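import Pool.Agent.Helper115.EXR.Defs

set_option autoImplicit false

namespace Pool.Agent.Helper115.EXR

open Real

section JbasicO

theorem o_one (l : ℝ) : o l 1 = l := by
  simp [o, e]

theorem o_add (l : ℝ) (j k : ℕ) : (e l)^[j] (o l k) = o l (j + k) := by
  unfold o
  rw [Function.iterate_add_apply]

theorem e_log {l x : ℝ} (hl : 0 < l) (hx : 0 < x) : e l (Real.log (x / l)) = x := by
  unfold e
  rw [Real.exp_log (div_pos hx hl)]
  field_simp

theorem rep_fix {l : ℝ} (hl : Real.exp (-1) < l) (j : ℕ) (X : ℝ) (hX : o l j ≤ X) :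
    ∃ s : ℝ, 0 ≤ s ∧ (e l)^[j] s = X := by
  have hl0 : 0 < l := l_pos hl
  induction j generalizing X with
  | zero =>
    refine ⟨X, ?_, rfl⟩
    simpa [o] using hX
  | succ j ih =>
    rw [o_succ] at hX
    have hXpos : 0 < X := lt_of_lt_of_le (e_pos hl0 _) hX
    have h1 : o l j ≤ Real.log (X / l) := by
      rw [← (e_strictMono hl0).le_iff_le, e_log hl0 hXpos]
      exact hX
    obtain ⟨s, hs, hs2⟩ := ih _ h1
    refine ⟨s, hs, ?_⟩
    rw [Function.iterate_succ_apply', hs2, e_log hl0 hXpos]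

/-- every `X ≥ o l k` is `(e l)^[j] s` with `j ≥ k`, `s ∈ [0,l)` -/
theorem rep {l : ℝ} (hl : Real.exp (-1) < l) (k : ℕ) (X : ℝ) (hX : o l k ≤ X) :
    ∃ (j : ℕ) (s : ℝ), k ≤ j ∧ 0 ≤ s ∧ s < l ∧ (e l)^[j] s = X := by
  classical
  have hl0 : 0 < l := l_pos hl
  have hex : ∃ j : ℕ, X < o l (j + 1) := by
    have h := (o_tendsto hl).eventually_gt_atTop X
    obtain ⟨N, hN⟩ := Filter.eventually_atTop.1 h
    exact ⟨N, hN (N + 1) (Nat.le_succ N)⟩
  have hj := Nat.find_spec hex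
  have hmin : ∀ i, i < Nat.find hex → o l (i + 1) ≤ X := fun i hi =>
    not_lt.1 (Nat.find_min hex hi)
  generalize Nat.find hex = j at hj hmin
  have hk : k ≤ j := by
    by_contra hcon
    push Not at hcon
    have h2 : o l (j + 1) ≤ o l k := (o_strictMono hl).monotone hcon
    linarith
  have hjX : o l j ≤ X := by
    rcases Nat.eq_zero_or_pos j with h0 | hpos
    · subst h0
      have h2 : o l 0 ≤ o l k := (o_strictMono hl).monotone (Nat.zero_le k)
      linarith
    · have h2 := hmin (j - 1) (by omega)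
      have h3 : j - 1 + 1 = j := by omega
      rwa [h3] at h2
  obtain ⟨s, hs, hs2⟩ := rep_fix hl j X hjX
  refine ⟨j, s, hk, hs, ?_, hs2⟩
  rw [← (eit_strictMono hl0 j).lt_iff_lt, hs2]
  have h4 : (e l)^[j] l = o l (j + 1) := by
    have h5 := o_add l j 1
    rw [o_one] at h5
    exact h5
  rw [h4]
  exact hj

end JbasicO

section JlipL

/-- the constants -/
noncomputable def cj (l : ℝ) (j : ℕ) : ℝ := ∏ i ∈ Finset.range j, min 1 (o l (i + 1))

theorem cj_zero (l : ℝ) : cj l 0 = 1 := by unfold cj; simp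

theorem cj_succ (l : ℝ) (j : ℕ) : cj l (j + 1) = cj l j * min 1 (o l (j + 1)) := by
  unfold cj; rw [Finset.prod_range_succ]

theorem o_pos' {l : ℝ} (hl : Real.exp (-1) < l) (i : ℕ) : 0 < o l (i + 1) := by
  have h := o_strictMono hl (Nat.succ_pos i)
  have h0 : o l 0 = 0 := rfl
  rw [h0] at h
  exact h

theorem cj_pos {l : ℝ} (hl : Real.exp (-1) < l) (j : ℕ) : 0 < cj l j := by
  unfold cj
  apply Finset.prod_pos
  intro i _
  exact lt_min one_pos (o_pos' hl i)

theorem cj_anti {l : ℝ} (hl : Real.exp (-1) < l) : Antitone (cj l) := by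
  apply antitone_nat_of_succ_le
  intro j
  rw [cj_succ]
  exact mul_le_of_le_one_right (cj_pos hl j).le (min_le_left _ _)

theorem cj_bound {l : ℝ} (hl : Real.exp (-1) < l) (j : ℕ) (x y : ℝ) (hx : 0 ≤ x) (hxy : x ≤ y) :
    cj l j * (y - x) ≤ (e l)^[j] y - (e l)^[j] x := by
  induction j with
  | zero => rw [cj_zero]; simp
  | succ j ih =>
    have hl0 := l_pos hl
    rw [Function.iterate_succ_apply', Function.iterate_succ_apply', cj_succ]
    have h1 : (e l)^[j + 1] 0 ≤ (e l)^[j + 1] x := (eit_strictMono hl0 (j + 1)).monotone hx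
    rw [Function.iterate_succ_apply' (e l) j x] at h1
    change o l (j + 1) ≤ _ at h1
    have hab : (e l)^[j] x ≤ (e l)^[j] y := (eit_strictMono hl0 j).monotone hxy
    obtain ⟨a, ha⟩ : ∃ a, a = (e l)^[j] x := ⟨_, rfl⟩
    obtain ⟨b, hb⟩ : ∃ b, b = (e l)^[j] y := ⟨_, rfl⟩
    rw [← ha] at h1
    rw [← ha, ← hb] at ih hab
    rw [← ha, ← hb]
    have h2 : e l a * (b - a) ≤ e l b - e l a := by
      have h3 : e l b = e l a * Real.exp (b - a) := by
        unfold e
        rw [mul_assoc, ← Real.exp_add]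
        congr 2
        ring
      have h4 := Real.add_one_le_exp (b - a)
      have h5 := (e_pos hl0 a).le
      rw [h3]
      nlinarith [mul_le_mul_of_nonneg_left h4 h5]
    have h6 : min 1 (o l (j + 1)) ≤ e l a := (min_le_right _ _).trans h1
    have h7 : 0 < min 1 (o l (j + 1)) := lt_min one_pos (o_pos' hl j)
    calc cj l j * min 1 (o l (j + 1)) * (y - x) = min 1 (o l (j + 1)) * (cj l j * (y - x)) := by
          ring
      _ ≤ min 1 (o l (j + 1)) * (b - a) := mul_le_mul_of_nonneg_left ih h7.le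
      _ ≤ e l a * (b - a) := mul_le_mul_of_nonneg_right h6 (by linarith)
      _ ≤ _ := h2

theorem lipL {l : ℝ} (hl : Real.exp (-1) < l) : ∃ c : ℝ, 0 < c ∧ c ≤ 1 ∧
    ∀ (j : ℕ) (x y : ℝ), 0 ≤ x → x ≤ y → c * (y - x) ≤ (e l)^[j] y - (e l)^[j] x := by
  obtain ⟨i0, hi0⟩ := Filter.eventually_atTop.1 ((o_tendsto hl).eventually_ge_atTop 1)
  refine ⟨cj l i0, cj_pos hl i0, ?_, ?_⟩
  · have := cj_anti hl (Nat.zero_le i0)
    rwa [cj_zero] at this
  · intro j x y hx hxy
    refine le_trans ?_ (cj_bound hl j x y hx hxy)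
    apply mul_le_mul_of_nonneg_right _ (by linarith)
    rcases le_total j i0 with h | h
    · exact cj_anti hl h
    · induction j, h using Nat.le_induction with
      | base => exact le_rfl
      | succ n hn ih =>
        rw [cj_succ, min_eq_left (hi0 (n + 1) (by omega)), mul_one]
        exact ih

end JlipL

section JlipU

theorem lipU {l : ℝ} (hl : Real.exp (-1) < l) : ∃ C : ℝ, 1 ≤ C ∧
    ∀ (j : ℕ) (x y : ℝ), 0 ≤ x → x ≤ y →
      (e l)^[j] y - (e l)^[j] x ≤ C * (1 + (e l)^[j] y) ^ 2 * (y - x) := by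
  have hl0 : 0 < l := l_pos hl
  obtain ⟨j0, hj0⟩ := Filter.eventually_atTop.1
    ((o_tendsto hl).eventually_ge_atTop (max 1 (24 / l)))
  obtain ⟨D, hD⟩ : ∃ D, D = max 1 (2 / l) := ⟨_, rfl⟩
  have hD1 : 1 ≤ D := by rw [hD]; exact le_max_left _ _
  have hD2 : 2 / l ≤ D := by rw [hD]; exact le_max_right _ _
  have hDl : 2 ≤ D * l := by rwa [div_le_iff₀ hl0] at hD2
  have hsq : ∀ E : ℝ, 0 ≤ E → (1 + E) ^ 2 ≤ D * e l E := by
    intro E hE
    have h1 := Real.quadratic_le_exp_of_nonneg hE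
    have h2 : 2 * Real.exp E ≤ D * l * Real.exp E :=
      mul_le_mul_of_nonneg_right hDl (Real.exp_pos E).le
    unfold e
    nlinarith
  have hsq' : ∀ E : ℝ, max 1 (24 / l) ≤ E → (1 + E) ^ 2 ≤ e l E := by
    intro E hE
    have hE1 : 1 ≤ E := (le_max_left _ _).trans hE
    have hE2 : 24 / l ≤ E := (le_max_right _ _).trans hE
    rw [div_le_iff₀ hl0] at hE2
    have h1 := Real.pow_div_factorial_le_exp E (by linarith) 3
    have h2 : E ^ 3 / 6 ≤ Real.exp E := by
      have : ((Nat.factorial 3 : ℕ) : ℝ) = 6 := by norm_num [Nat.factorial]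
      rwa [this] at h1
    have h3 : l * (E ^ 3 / 6) ≤ l * Real.exp E := mul_le_mul_of_nonneg_left h2 hl0.le
    unfold e
    have h4 : (1 + E) ^ 2 ≤ 4 * E ^ 2 := by nlinarith
    have h5 : 24 * E ^ 2 ≤ E * l * E ^ 2 := mul_le_mul_of_nonneg_right hE2 (by positivity)
    nlinarith
  refine ⟨D ^ j0, one_le_pow₀ hD1, ?_⟩
  intro j x y hx hxy
  have hy : 0 ≤ y := hx.trans hxy
  have hEo : ∀ j, o l j ≤ (e l)^[j] y := fun j => (eit_strictMono hl0 j).monotone hy
  have hE0 : ∀ j, 0 ≤ (e l)^[j] y := by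
    intro j
    cases j with
    | zero => exact hy
    | succ j =>
      rw [Function.iterate_succ_apply']
      exact (e_pos hl0 _).le
  have hmain : ∀ j, (e l)^[j] y - (e l)^[j] x ≤
      D ^ (min j j0) * (1 + (e l)^[j] y) ^ 2 * (y - x) := by
    intro j
    induction j with
    | zero =>
      simp only [Function.iterate_zero, id_eq, Nat.zero_min, pow_zero, one_mul]
      have h1 : 1 ≤ (1 + y) ^ 2 := by nlinarith
      nlinarith [mul_le_mul_of_nonneg_right h1 (sub_nonneg.2 hxy)]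
    | succ j ih =>
      rw [Function.iterate_succ_apply', Function.iterate_succ_apply']
      obtain ⟨a, ha⟩ : ∃ a, a = (e l)^[j] x := ⟨_, rfl⟩
      obtain ⟨b, hb⟩ : ∃ b, b = (e l)^[j] y := ⟨_, rfl⟩
      have hb0 : 0 ≤ b := by rw [hb]; exact hE0 j
      have hbo : o l j ≤ b := by rw [hb]; exact hEo j
      rw [← ha, ← hb] at ih ⊢
      have hstep : e l b - e l a ≤ e l b * (b - a) := by
        unfold e
        have h1 := Real.add_one_le_exp (a - b)
        have h2 : Real.exp a = Real.exp b * Real.exp (a - b) := by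
          rw [← Real.exp_add]; congr 1; ring
        rw [h2]
        have h3 : 0 ≤ l * Real.exp b := by positivity
        nlinarith [mul_le_mul_of_nonneg_left h1 h3]
      have hpos : 0 < e l b := e_pos hl0 b
      have hpow : 0 ≤ D ^ (min j j0) := by positivity
      have hyx : 0 ≤ y - x := sub_nonneg.2 hxy
      have hfin : D ^ (min j j0) * (1 + b) ^ 2 ≤ D ^ (min (j + 1) j0) * e l b := by
        rcases lt_or_ge j j0 with hj | hj
        · rw [min_eq_left hj.le, min_eq_left (by omega : j + 1 ≤ j0)]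
          have h1 : (0 : ℝ) ≤ D ^ j := by positivity
          calc D ^ j * (1 + b) ^ 2 ≤ D ^ j * (D * e l b) := mul_le_mul_of_nonneg_left (hsq b hb0) h1
            _ = D ^ (j + 1) * e l b := by ring
        · rw [min_eq_right hj, min_eq_right (by omega : j0 ≤ j + 1)]
          exact mul_le_mul_of_nonneg_left (hsq' b ((hj0 j hj).trans hbo)) (by positivity)
      calc e l b - e l a ≤ e l b * (b - a) := hstep
        _ ≤ e l b * (D ^ (min j j0) * (1 + b) ^ 2 * (y - x)) :=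
          mul_le_mul_of_nonneg_left ih hpos.le
        _ ≤ e l b * ((D ^ (min (j + 1) j0) * e l b) * (y - x)) := by
          apply mul_le_mul_of_nonneg_left _ hpos.le
          exact mul_le_mul_of_nonneg_right hfin hyx
        _ ≤ D ^ (min (j + 1) j0) * (1 + e l b) ^ 2 * (y - x) := by
          have h1 : e l b * e l b ≤ (1 + e l b) ^ 2 := by nlinarith
          have h2 : 0 ≤ D ^ (min (j + 1) j0) * (y - x) := by positivity
          nlinarith [mul_le_mul_of_nonneg_left h1 h2]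
  refine (hmain j).trans ?_
  apply mul_le_mul_of_nonneg_right _ (sub_nonneg.2 hxy)
  apply mul_le_mul_of_nonneg_right _ (by positivity)
  exact pow_le_pow_right₀ hD1 (min_le_right _ _)

end JlipU

section JexpL

theorem expL {l : ℝ} (hl : Real.exp (-1) < l) : ∃ C : ℝ, 1 ≤ C ∧
    ∀ (j : ℕ) (x y : ℝ), 0 ≤ x → x ≤ y →
      exp (-((e l)^[j] x)) - exp (-((e l)^[j] y)) ≤
        C * exp (-((e l)^[j] x) / 2) * (y - x) := by
  obtain ⟨C, hC, hlip⟩ := lipU hl
  have hl0 : 0 < l := l_pos hl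
  refine ⟨16 * C, by linarith, ?_⟩
  intro j x y hx hxy
  set Q : ℝ := (e l)^[j] x with hQ
  have hmono : Monotone ((e l)^[j]) := (eit_strictMono hl0 j).monotone
  have hQ0 : 0 ≤ Q := by
    rcases j with _ | j
    · simpa [hQ] using hx
    · rw [hQ, Function.iterate_succ_apply']
      exact (e_pos hl0 _).le
  have hpoly : (2 + Q) ^ 2 ≤ 16 * exp (Q / 2) := by
    have h1 : exp (Q / 2) = exp (Q / 4) * exp (Q / 4) := by
      rw [← Real.exp_add]; congr 1; ring
    have h2 : 1 + Q / 4 ≤ exp (Q / 4) := by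
      have := Real.add_one_le_exp (Q / 4)
      linarith
    have h3 : (1 + Q / 4) * (1 + Q / 4) ≤ exp (Q / 4) * exp (Q / 4) := by gcongr
    rw [h1]
    nlinarith
  have hexp : exp (-Q) * (2 + Q) ^ 2 ≤ 16 * exp (-Q / 2) := by
    calc exp (-Q) * (2 + Q) ^ 2 ≤ exp (-Q) * (16 * exp (Q / 2)) := by gcongr
      _ = 16 * (exp (-Q) * exp (Q / 2)) := by ring
      _ = 16 * exp (-Q / 2) := by rw [← Real.exp_add]; congr 2; ring
  -- general estimate for z with E z ≤ Q + 1
  have hgen : ∀ z, x ≤ z → z ≤ y → (e l)^[j] z ≤ Q + 1 →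
      exp (-Q) * ((e l)^[j] z - Q) ≤ 16 * C * exp (-Q / 2) * (y - x) := by
    intro z h1 h2 h3
    have h4 := hlip j x z hx h1
    have h5 : Q ≤ (e l)^[j] z := hmono h1
    have h6 : (1 + (e l)^[j] z) ^ 2 ≤ (2 + Q) ^ 2 := by
      apply pow_le_pow_left₀ (by linarith)
      linarith
    have h7 : (e l)^[j] z - Q ≤ C * (2 + Q) ^ 2 * (y - x) := by
      calc (e l)^[j] z - Q ≤ C * (1 + (e l)^[j] z) ^ 2 * (z - x) := h4
        _ ≤ C * (2 + Q) ^ 2 * (y - x) := by
            have h8 : 0 ≤ z - x := by linarith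
            gcongr
    have h8 : 0 ≤ y - x := by linarith
    calc exp (-Q) * ((e l)^[j] z - Q) ≤ exp (-Q) * (C * (2 + Q) ^ 2 * (y - x)) := by gcongr
      _ = C * (exp (-Q) * (2 + Q) ^ 2) * (y - x) := by ring
      _ ≤ C * (16 * exp (-Q / 2)) * (y - x) := by gcongr
      _ = 16 * C * exp (-Q / 2) * (y - x) := by ring
  by_cases hcase : (e l)^[j] y ≤ Q + 1
  · have h1 := hgen y hxy le_rfl hcase
    refine le_trans ?_ h1
    have h2 : exp (-((e l)^[j] y)) = exp (-Q) * exp (-((e l)^[j] y - Q)) := by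
      rw [← Real.exp_add]; congr 1; ring
    have h3 : 1 - ((e l)^[j] y - Q) ≤ exp (-((e l)^[j] y - Q)) := by
      have := Real.add_one_le_exp (-((e l)^[j] y - Q))
      linarith
    rw [h2]
    have h4 := Real.exp_pos (-Q)
    nlinarith
  · rw [not_le] at hcase
    obtain ⟨z, hz, hzQ⟩ : ∃ z ∈ Set.Icc x y, (e l)^[j] z = Q + 1 := by
      apply intermediate_value_Icc hxy (eit_cont l j).continuousOn
      exact ⟨by linarith, hcase.le⟩
    have h1 := hgen z hz.1 hz.2 hzQ.le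
    rw [hzQ] at h1
    have h2 := Real.exp_pos (-((e l)^[j] y))
    have h3 : exp (-Q) * (Q + 1 - Q) = exp (-Q) := by ring
    linarith

end JexpL

section Jth_lower

theorem th_lower {Q Q' : ℝ} (h : π + 1 ≤ Q) (h' : Q ≤ Q') :
    exp (-Q) - exp (-Q') ≤ exp (-(th Q)) - exp (-(th Q')) := by
  have hpi := Real.pi_pos
  have hQ : 0 < Q := by linarith
  have hQ' : 0 < Q' := by linarith
  have h1 : 0 < Q ^ 2 - π ^ 2 := by nlinarith
  have h2 : 0 < Q' ^ 2 - π ^ 2 := by nlinarith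
  have hT : 0 < th Q := Real.sqrt_pos.2 h1
  have hT' : 0 < th Q' := Real.sqrt_pos.2 h2
  have e1 : th Q ^ 2 = Q ^ 2 - π ^ 2 := Real.sq_sqrt h1.le
  have e2 : th Q' ^ 2 = Q' ^ 2 - π ^ 2 := Real.sq_sqrt h2.le
  have l1 : th Q ≤ Q := by
    refine le_of_sq_le_sq ?_ hQ.le
    rw [e1]; nlinarith
  have l2 : th Q' ≤ Q' := by
    refine le_of_sq_le_sq ?_ hQ'.le
    rw [e2]; nlinarith
  have l3 : Q' - Q ≤ th Q' - th Q := by
    have hmul : (th Q' - th Q) * (th Q' + th Q) = (Q' - Q) * (Q' + Q) := by nlinarith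
    by_contra hc
    push Not at hc
    have : (th Q' - th Q) * (th Q' + th Q) < (Q' - Q) * (th Q' + th Q) :=
      mul_lt_mul_of_pos_right hc (by linarith)
    have h5 : (Q' - Q) * (th Q' + th Q) ≤ (Q' - Q) * (Q' + Q) :=
      mul_le_mul_of_nonneg_left (by linarith) (by linarith)
    linarith
  have a1 : exp (-Q) - exp (-Q') = exp (-Q) * (1 - exp (-(Q' - Q))) := by
    rw [mul_sub, mul_one, ← Real.exp_add]; congr 2; ring
  have a2 : exp (-(th Q)) - exp (-(th Q')) = exp (-(th Q)) * (1 - exp (-(th Q' - th Q))) := by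
    rw [mul_sub, mul_one, ← Real.exp_add]; congr 2; ring
  rw [a1, a2]
  refine mul_le_mul ?_ ?_ ?_ (Real.exp_pos _).le
  · exact Real.exp_le_exp.2 (by linarith)
  · have := Real.exp_le_exp.2 (show -(th Q' - th Q) ≤ -(Q' - Q) by linarith)
    linarith
  · have := Real.exp_le_one_iff.2 (show -(Q' - Q) ≤ 0 by linarith)
    linarith

end Jth_lower

section Jth_upper

theorem th_upper {Q Q' : ℝ} (h : π + 1 ≤ Q) (h' : Q ≤ Q') :
    exp (-(th Q)) - exp (-(th Q')) ≤ 2 * exp π * (exp (-Q) - exp (-Q')) := by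
  have hpi := Real.pi_gt_three
  have hpi2 := Real.pi_lt_d2
  have key : ∀ R : ℝ, π + 1 ≤ R → 0 < th R ∧ R ≤ 2 * th R ∧ R - π ≤ th R ∧
      th R ^ 2 = R ^ 2 - π ^ 2 := by
    intro R hR
    have h0 : 0 < R ^ 2 - π ^ 2 := by nlinarith
    have h1 : th R ^ 2 = R ^ 2 - π ^ 2 := by unfold th; exact Real.sq_sqrt h0.le
    have h2 : 0 < th R := by unfold th; exact Real.sqrt_pos.mpr h0
    refine ⟨h2, ?_, ?_, h1⟩
    · have h3 : 3 * R ^ 2 ≥ 4 * π ^ 2 := by nlinarith
      exact abs_le_of_sq_le_sq' (by nlinarith) (by linarith) |>.2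
    · exact abs_le_of_sq_le_sq' (by nlinarith) h2.le |>.2
  obtain ⟨a1, a2, a3, a4⟩ := key Q h
  obtain ⟨b1, b2, b3, b4⟩ := key Q' (h.trans h')
  have hD : th Q' - th Q ≤ 2 * (Q' - Q) := by
    have e : (th Q' - th Q) * (th Q' + th Q) = (Q' - Q) * (Q' + Q) := by
      have : (th Q' - th Q) * (th Q' + th Q) = th Q' ^ 2 - th Q ^ 2 := by ring
      rw [this, a4, b4]; ring
    have h1 : (Q' - Q) * (Q' + Q) ≤ (Q' - Q) * (2 * (th Q' + th Q)) :=
      mul_le_mul_of_nonneg_left (by linarith) (by linarith)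
    have h2 : (th Q' - th Q) * (th Q' + th Q) ≤ (2 * (Q' - Q)) * (th Q' + th Q) := by
      rw [e]; linarith
    exact le_of_mul_le_mul_right h2 (by linarith)
  obtain ⟨d, hd⟩ : ∃ d, d = Q' - Q := ⟨_, rfl⟩
  obtain ⟨D, hDd⟩ : ∃ D, D = th Q' - th Q := ⟨_, rfl⟩
  have e1 : exp (-(th Q')) = exp (-(th Q)) * exp (-D) := by
    rw [← Real.exp_add]; congr 1; rw [hDd]; ring
  have e2 : exp (-Q') = exp (-Q) * exp (-d) := by
    rw [← Real.exp_add]; congr 1; rw [hd]; ring
  have hd0 : 0 ≤ d := by rw [hd]; linarith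
  have e3 : exp (-(2 * d)) = exp (-d) * exp (-d) := by
    rw [← Real.exp_add]; congr 1; ring
  have h3 : exp (-(2 * d)) ≤ exp (-D) := by
    apply Real.exp_le_exp.mpr; rw [hDd, hd]; linarith
  have h4 : exp (-d) ≤ 1 := Real.exp_le_one_iff.mpr (by linarith)
  have h5 : 0 < exp (-d) := Real.exp_pos _
  have h6 : exp (-(th Q)) ≤ exp π * exp (-Q) := by
    rw [← Real.exp_add]; apply Real.exp_le_exp.mpr; linarith
  have h7 : 1 - exp (-D) ≤ 2 * (1 - exp (-d)) := by nlinarith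
  have h8 : 0 ≤ 2 * (1 - exp (-d)) := by linarith
  rw [e1, e2]
  calc exp (-(th Q)) - exp (-(th Q)) * exp (-D) = exp (-(th Q)) * (1 - exp (-D)) := by ring
    _ ≤ exp (-(th Q)) * (2 * (1 - exp (-d))) :=
        mul_le_mul_of_nonneg_left h7 (Real.exp_pos _).le
    _ ≤ (exp π * exp (-Q)) * (2 * (1 - exp (-d))) := mul_le_mul_of_nonneg_right h6 h8
    _ = 2 * exp π * (exp (-Q) - exp (-Q) * exp (-d)) := by ring

end Jth_upper

section Jthwh

theorem th_bounds {Q : ℝ} (h : π ≤ Q) : Q - π ≤ th Q ∧ th Q ≤ Q := by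
  have hp := Real.pi_pos
  unfold th
  constructor
  · apply Real.le_sqrt_of_sq_le
    nlinarith
  · rw [Real.sqrt_le_left (by linarith)]
    nlinarith [sq_nonneg π]

theorem th_mono {Q Q' : ℝ} (h : π ≤ Q) (h' : Q ≤ Q') : th Q ≤ th Q' := by
  have hp := Real.pi_pos
  unfold th
  apply Real.sqrt_le_sqrt
  nlinarith

theorem wh_th {Q : ℝ} (h : π ≤ Q) : wh (th Q) = Q := by
  have hp := Real.pi_pos
  unfold wh th
  rw [Real.sq_sqrt (by nlinarith), sub_add_cancel, Real.sqrt_sq (by linarith)]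

theorem th_wh {Z : ℝ} (h : 0 ≤ Z) : th (wh Z) = Z := by
  unfold wh th
  rw [Real.sq_sqrt (by positivity), add_sub_cancel_right, Real.sqrt_sq h]

theorem wh_mono {Z Z' : ℝ} (h : 0 ≤ Z) (h' : Z ≤ Z') : wh Z ≤ wh Z' := by
  unfold wh
  apply Real.sqrt_le_sqrt
  nlinarith

theorem wh_ge (Z : ℝ) : Z ≤ wh Z ∧ π ≤ wh Z := by
  unfold wh
  constructor
  · apply Real.le_sqrt_of_sq_le
    nlinarith [sq_nonneg π]
  · apply Real.le_sqrt_of_sq_le
    nlinarith [sq_nonneg Z]

end Jthwh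

end Pool.Agent.Helper115.EXR
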