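import Pool.Agent.Helper115.EXR.A

set_option autoImplicit false

namespace Pool.Agent.Helper115.EXR

open Real

section JHeq

theorem H_eq_aux {l m : ℝ} (hl : Real.exp (-1) < l) {b : ℝ → ℝ}
    (hb : Adm l m b) (i d : ℕ) (s s' : ℝ) (h1 : s ≤ l) (h0' : 0 ≤ s')
    (he : (e l)^[i + d] s' = (e l)^[i] s) : (e m)^[i + d] (b s') = (e m)^[i] (b s) := by
  have hl0 : 0 < l := l_pos hl
  rw [Function.iterate_add_apply] at he ⊢
  have h2 : (e l)^[d] s' = s := (eit_strictMono hl0 i).injective he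
  suffices h : (e m)^[d] (b s') = b s by rw [h]
  match d, h2 with
  | 0, h2 =>
    simp only [Function.iterate_zero, id] at h2 ⊢
    rw [h2]
  | 1, h2 =>
    simp only [Function.iterate_one] at h2 ⊢
    have h3 : l * Real.exp s' = s := h2
    have h4 : Real.exp s' ≤ 1 := by
      by_contra hc
      push Not at hc
      nlinarith
    have h5 : s' ≤ 0 := Real.exp_le_one_iff.1 h4
    have h6 : s' = 0 := le_antisymm h5 h0'
    rw [h6, Real.exp_zero, mul_one] at h3
    rw [h6, ← h3, hb.zero, hb.top]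
    simp [e]
  | d + 2, h2 =>
    exfalso
    have h3 : (e l)^[d + 2] 0 ≤ (e l)^[d + 2] s' := (eit_strictMono hl0 (d + 2)).monotone h0'
    have h4 : o l 1 < o l (d + 2) := o_strictMono hl (by omega)
    rw [o_one] at h4
    have h5 : o l (d + 2) = (e l)^[d + 2] 0 := rfl
    rw [h2] at h3
    linarith

theorem H_eq {l m : ℝ} (hl : Real.exp (-1) < l) (hm : Real.exp (-1) < m) {b : ℝ → ℝ} (hb : Adm l m b)
    (j : ℕ) (s : ℝ) (h0 : 0 ≤ s) (h1 : s ≤ l) : H l m b ((e l)^[j] s) = (e m)^[j] (b s) := by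
  have hex : ∃ p : ℕ × ℝ, 0 ≤ p.2 ∧ p.2 ≤ l ∧ (e l)^[p.1] p.2 = (e l)^[j] s :=
    ⟨(j, s), h0, h1, rfl⟩
  have hH : H l m b ((e l)^[j] s) =
      (e m)^[(Classical.choose hex).1] (b (Classical.choose hex).2) := by
    unfold H
    rw [dif_pos hex]
  rw [hH]
  obtain ⟨g1, g2, g3⟩ := Classical.choose_spec hex
  generalize Classical.choose hex = p at g1 g2 g3
  obtain ⟨j', s'⟩ := p
  simp only at g1 g2 g3 ⊢
  rcases le_total j j' with h | h
  · obtain ⟨d, rfl⟩ := Nat.exists_eq_add_of_le h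
    exact H_eq_aux hl hb j d s s' h1 g1 g3
  · obtain ⟨d, rfl⟩ := Nat.exists_eq_add_of_le h
    exact (H_eq_aux hl hb j' d s' s g2 h0 g3.symm).symm

end JHeq

section JHrest

theorem Adm.nonneg {l m : ℝ} {b : ℝ → ℝ} (hb : Adm l m b) (s : ℝ) (h0 : 0 ≤ s) (h1 : s ≤ l) :
    0 ≤ b s := by
  have := hb.mono 0 s le_rfl h0 h1
  rwa [hb.zero] at this

theorem Adm.le {l m : ℝ} {b : ℝ → ℝ} (hb : Adm l m b) (s : ℝ) (h0 : 0 ≤ s) (h1 : s ≤ l) :
    b s ≤ m := by
  have := hb.mono s l h0 h1 le_rfl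
  rwa [hb.top] at this

theorem H_low {l m : ℝ} (hl : Real.exp (-1) < l) (hm : Real.exp (-1) < m) {b : ℝ → ℝ} (hb : Adm l m b)
    (s : ℝ) (h0 : 0 ≤ s) (h1 : s ≤ l) : H l m b s = b s := by
  have := H_eq hl hm hb 0 s h0 h1
  simpa using this

theorem H_o {l m : ℝ} (hl : Real.exp (-1) < l) (hm : Real.exp (-1) < m) {b : ℝ → ℝ} (hb : Adm l m b)
    (k : ℕ) : H l m b (o l k) = o m k := by
  have := H_eq hl hm hb k 0 le_rfl (l_pos hl).le
  rw [hb.zero] at this
  exact this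

theorem H_iter {l m : ℝ} (hl : Real.exp (-1) < l) (hm : Real.exp (-1) < m) {b : ℝ → ℝ} (hb : Adm l m b)
    (j : ℕ) (x : ℝ) (h0 : 0 ≤ x) : H l m b ((e l)^[j] x) = (e m)^[j] (H l m b x) := by
  obtain ⟨i, s, -, hs0, hs1, rfl⟩ := rep hl 0 x (by simpa [o] using h0)
  rw [H_eq hl hm hb i s hs0 hs1.le, ← Function.iterate_add_apply, ← Function.iterate_add_apply,
    H_eq hl hm hb (j + i) s hs0 hs1.le]

theorem H_mono {l m : ℝ} (hl : Real.exp (-1) < l) (hm : Real.exp (-1) < m) {b : ℝ → ℝ} (hb : Adm l m b)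
    (x y : ℝ) (h0 : 0 ≤ x) (h1 : x ≤ y) : H l m b x ≤ H l m b y := by
  obtain ⟨i, s, -, hs0, hs1, rfl⟩ := rep hl 0 x (by simpa [o] using h0)
  obtain ⟨j, t, -, ht0, ht1, rfl⟩ := rep hl 0 y (by simpa [o] using h0.trans h1)
  rw [H_eq hl hm hb i s hs0 hs1.le, H_eq hl hm hb j t ht0 ht1.le]
  have lp := l_pos hl
  have mp := l_pos hm
  rcases lt_trichotomy i j with hij | hij | hij
  · have a1 : (e m)^[i] (b s) ≤ (e m)^[i] m :=
      (eit_strictMono mp i).monotone (hb.le s hs0 hs1.le)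
    have a2 : (e m)^[i] m = o m (i + 1) := by
      have := o_add m i 1
      rw [o_one] at this
      exact this
    have a3 : o m (i + 1) ≤ o m j := (o_strictMono hm).monotone hij
    have a4 : o m j ≤ (e m)^[j] (b t) :=
      (eit_strictMono mp j).monotone (hb.nonneg t ht0 ht1.le)
    linarith
  · subst hij
    have hst : s ≤ t := (eit_strictMono lp i).le_iff_le.mp h1
    exact (eit_strictMono mp i).monotone (hb.mono s t hs0 hst ht1.le)
  · exfalso
    have a1 : (e l)^[j] t < (e l)^[j] l := (eit_strictMono lp j) ht1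
    have a2 : (e l)^[j] l = o l (j + 1) := by
      have := o_add l j 1
      rw [o_one] at this
      exact this
    have a3 : o l (j + 1) ≤ o l i := (o_strictMono hl).monotone hij
    have a4 : o l i ≤ (e l)^[i] s := (eit_strictMono lp i).monotone hs0
    linarith

theorem H_nonneg {l m : ℝ} (hl : Real.exp (-1) < l) (hm : Real.exp (-1) < m) {b : ℝ → ℝ} (hb : Adm l m b)
    (x : ℝ) (h0 : 0 ≤ x) : 0 ≤ H l m b x := by
  have h := H_mono hl hm hb 0 x le_rfl h0
  have h2 := H_o hl hm hb 0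
  have e0 : ∀ q : ℝ, o q 0 = 0 := fun q => by simp [o]
  rw [e0, e0] at h2
  rwa [h2] at h

end JHrest

end Pool.Agent.Helper115.EXR
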