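import Pool.Agent.Helper115.EXR.B

set_option autoImplicit false

namespace Pool.Agent.Helper115.EXR

open Real

section Jpar

theorem th_tendsto_aux {l : ℝ} (hl : Real.exp (-1) < l) :
    Filter.Tendsto (fun k => th (o l k)) Filter.atTop Filter.atTop := by
  have h1 : Filter.Tendsto (fun k => o l k - π) Filter.atTop Filter.atTop :=
    Filter.tendsto_atTop_add_const_right _ (-π) (o_tendsto hl)
  refine Filter.tendsto_atTop_mono' _ ?_ h1
  filter_upwards [(o_tendsto hl).eventually_ge_atTop π] with k hk using (th_bounds hk).1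

theorem exp_tendsto_aux {f : ℕ → ℝ} (c : ℝ) (hf : Filter.Tendsto f Filter.atTop Filter.atTop) :
    Filter.Tendsto (fun k => c * exp (-(f k))) Filter.atTop (nhds 0) := by
  have h := (Real.tendsto_exp_neg_atTop_nhds_zero.comp hf).const_mul c
  rw [mul_zero] at h
  exact h

theorem ep_tendsto_aux {l : ℝ} (hl : Real.exp (-1) < l) :
    Filter.Tendsto (fun k => ep l k) Filter.atTop (nhds 0) :=
  exp_tendsto_aux l (th_tendsto_aux hl)

theorem half_tendsto_aux {l : ℝ} (hl : Real.exp (-1) < l) (A : ℝ) :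
    Filter.Tendsto (fun k => A * exp (-(o l k) / 2)) Filter.atTop (nhds 0) := by
  have h1 : Filter.Tendsto (fun k => o l k / 2) Filter.atTop Filter.atTop :=
    (o_tendsto hl).atTop_div_const (by norm_num)
  refine (exp_tendsto_aux A h1).congr (fun k => ?_)
  rw [neg_div]

/-- parameters exist -/
theorem par_exists {l m c : ℝ} (hl : Real.exp (-1) < l) (hlm : l < m) (hc : 0 < c) (hcl : c ≤ l / 2)
    (hcm : l * exp c ≤ m) (A : ℝ) : ∃ K : ℕ, ∀ k, K ≤ k → Par l m c k ∧
      A * exp (-(o m k) / 2) ≤ 1 ∧ A * exp (-(o l k) / 2) ≤ 1 := by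
  have hm : Real.exp (-1) < m := hl.trans hlm
  have hl0 : 0 < l := l_pos hl
  have t1 : Filter.Tendsto (fun k => s2 l k) Filter.atTop (nhds l) := by
    have h : Filter.Tendsto (fun k => l * exp (-(ep l k))) Filter.atTop (nhds (l * exp (-0))) :=
      ((Real.continuous_exp.tendsto _).comp (ep_tendsto_aux hl).neg).const_mul l
    rw [neg_zero, exp_zero, mul_one] at h
    exact h
  have hcl' : c < l := by linarith
  have key : ∀ᶠ k in Filter.atTop, Par l m c k ∧
      A * exp (-(o m k) / 2) ≤ 1 ∧ A * exp (-(o l k) / 2) ≤ 1 := by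
    filter_upwards [(o_tendsto hl).eventually_ge_atTop (π + 2), (o_tendsto hm).eventually_ge_atTop (π + 2),
      (exp_tendsto_aux l (o_tendsto hl)).eventually (gt_mem_nhds hc),
      (exp_tendsto_aux m (o_tendsto hm)).eventually (gt_mem_nhds hc),
      t1.eventually (lt_mem_nhds hcl'),
      (ep_tendsto_aux hl).eventually (gt_mem_nhds hc),
      (ep_tendsto_aux hm).eventually (gt_mem_nhds hc),
      (half_tendsto_aux hm A).eventually (gt_mem_nhds one_pos),
      (half_tendsto_aux hl A).eventually (gt_mem_nhds one_pos)] with k h1 h2 h3 h4 h5 h6 h7 h8 h9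
    exact ⟨⟨hl, hlm, hc, hcl, hcm, h1, h2, h3, h4, h5, h6.le, h7.le⟩, h8.le, h9.le⟩
  obtain ⟨K, hK⟩ := Filter.eventually_atTop.mp key
  exact ⟨K, hK⟩

end Jpar

section Jbmid

theorem s2m_ge {l m c : ℝ} {k : ℕ} (P : Par l m c k) : l ≤ s2 m k := by
  have hm : 0 < m := (l_pos P.hl).trans P.hlm
  have h1 : m * exp (-c) ≤ m * exp (-(ep m k)) :=
    mul_le_mul_of_nonneg_left (exp_le_exp.mpr (neg_le_neg P.epm)) hm.le
  have h2 : l ≤ m * exp (-c) := by
    have h3 := mul_le_mul_of_nonneg_right P.hcm (exp_pos (-c)).le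
    rw [mul_assoc, ← exp_add, add_neg_cancel, exp_zero, mul_one] at h3
    exact h3
  exact h2.trans h1

theorem s2_lt {l m c : ℝ} {k : ℕ} (P : Par l m c k) : s2 l k < l ∧ s2 m k < m := by
  have hl : 0 < l := l_pos P.hl
  have hm : 0 < m := hl.trans P.hlm
  have key : ∀ x : ℝ, 0 < x → s2 x k < x := by
    intro x hx
    have h1 : 0 < ep x k := mul_pos hx (exp_pos _)
    have h2 : exp (-(ep x k)) < 1 := by
      rw [exp_lt_one_iff]
      linarith
    calc s2 x k = x * exp (-(ep x k)) := rfl
      _ < x * 1 := mul_lt_mul_of_pos_left h2 hx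
      _ = x := mul_one x
  exact ⟨key l hl, key m hm⟩

theorem bmid_s1 {l m c : ℝ} {k : ℕ} (P : Par l m c k) : bmid l m c k (s1 l k) = s1 m k := by
  unfold bmid
  rw [if_pos P.s1l.le, sub_self, mul_zero, add_zero]

theorem bmid_s2 {l m c : ℝ} {k : ℕ} (P : Par l m c k) : bmid l m c k (s2 l k) = s2 m k := by
  unfold bmid
  have h := P.s2l
  rw [if_neg (not_le.mpr h), div_mul_cancel₀ _ (sub_pos.mpr h).ne']
  ring

theorem bmid_le_c {l m c : ℝ} {k : ℕ} (P : Par l m c k) {s : ℝ} (h : s ≤ c) :
    bmid l m c k s = c + (c - s1 m k) / (c - s1 l k) * (s - c) := by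
  unfold bmid
  rw [if_pos h]
  have h1 : c - s1 l k ≠ 0 := (sub_pos.mpr P.s1l).ne'
  field_simp
  ring

theorem bmid_gt_c {l m c : ℝ} {k : ℕ} {s : ℝ} (h : c ≤ s) :
    bmid l m c k s = c + (s2 m k - c) / (s2 l k - c) * (s - c) ∨ s = c := by
  rcases h.lt_or_eq with h | h
  · left
    unfold bmid
    rw [if_neg (not_le.mpr h)]
  · right; exact h.symm

theorem bmid_ge_c {l m c : ℝ} {k : ℕ} (P : Par l m c k) {s : ℝ} (h : c ≤ s) :
    bmid l m c k s = c + (s2 m k - c) / (s2 l k - c) * (s - c) := by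
  rcases bmid_gt_c (l := l) (m := m) (k := k) h with h1 | h1
  · exact h1
  · rw [bmid_le_c P h1.le, h1, sub_self, mul_zero, mul_zero]

theorem slopes_pos {l m c : ℝ} {k : ℕ} (P : Par l m c k) :
    0 < (c - s1 m k) / (c - s1 l k) ∧ 1 ≤ (s2 m k - c) / (s2 l k - c) := by
  have h1 := s2m_ge P
  have h2 := (s2_lt P).1
  have h3 := P.s2l
  refine ⟨div_pos (sub_pos.mpr P.s1m) (sub_pos.mpr P.s1l), ?_⟩
  rw [le_div_iff₀ (sub_pos.mpr h3)]
  linarith

theorem bmid_lip {l m c : ℝ} {k : ℕ} (P : Par l m c k) : ∃ L : ℝ, 0 < L ∧ ∀ s t, s ≤ t →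
    bmid l m c k t - bmid l m c k s ≤ L * (t - s) ∧ t - s ≤ L * (bmid l m c k t - bmid l m c k s) := by
  obtain ⟨ha1, ha2⟩ := slopes_pos P
  set a1 := (c - s1 m k) / (c - s1 l k) with ha1def
  set a2 := (s2 m k - c) / (s2 l k - c) with ha2def
  have hL1 : 1 ≤ (a1 + a2 + 1 / a1) * a1 := by
    have : 1 / a1 * a1 = 1 := by field_simp
    nlinarith [mul_pos ha1 ha1]
  have hia : 0 < 1 / a1 := by positivity
  have hL2 : 1 ≤ (a1 + a2 + 1 / a1) * a2 := by nlinarith
  have hLa1 : a1 ≤ a1 + a2 + 1 / a1 := by linarith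
  have hLa2 : a2 ≤ a1 + a2 + 1 / a1 := by linarith
  set L := a1 + a2 + 1 / a1 with hL
  refine ⟨L, by linarith, ?_⟩
  intro s t hst
  rcases le_total t c with htc | htc
  · rw [bmid_le_c P htc, bmid_le_c P (hst.trans htc), ← ha1def]
    have e1 : c + a1 * (t - c) - (c + a1 * (s - c)) = a1 * (t - s) := by ring
    rw [e1]
    have h0 : 0 ≤ t - s := sub_nonneg.mpr hst
    constructor
    · exact mul_le_mul_of_nonneg_right hLa1 h0
    · rw [← mul_assoc]; nlinarith
  · rcases le_total s c with hsc | hsc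
    · rw [bmid_ge_c P htc, bmid_le_c P hsc, ← ha1def, ← ha2def]
      have h0 : 0 ≤ t - c := sub_nonneg.mpr htc
      have h1 : 0 ≤ c - s := sub_nonneg.mpr hsc
      have e1 : c + a2 * (t - c) - (c + a1 * (s - c)) = a2 * (t - c) + a1 * (c - s) := by ring
      rw [e1]
      have e2 : t - s = (t - c) + (c - s) := by ring
      rw [e2]
      constructor
      · rw [mul_add]
        exact add_le_add (mul_le_mul_of_nonneg_right hLa2 h0) (mul_le_mul_of_nonneg_right hLa1 h1)
      · rw [mul_add, ← mul_assoc, ← mul_assoc]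
        exact add_le_add (le_mul_of_one_le_left h0 hL2) (le_mul_of_one_le_left h1 hL1)
    · rw [bmid_ge_c P htc, bmid_ge_c P hsc, ← ha2def]
      have h0 : 0 ≤ t - s := sub_nonneg.mpr hst
      have e1 : c + a2 * (t - c) - (c + a2 * (s - c)) = a2 * (t - s) := by ring
      rw [e1]
      constructor
      · exact mul_le_mul_of_nonneg_right hLa2 h0
      · rw [← mul_assoc]; exact le_mul_of_one_le_left h0 hL2

theorem bmid_ge {l m c : ℝ} {k : ℕ} (P : Par l m c k) (s : ℝ) (h : c ≤ s) (h' : s ≤ s2 l k) :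
    s ≤ bmid l m c k s := by
  rw [bmid_ge_c P h]
  have h2 := (slopes_pos P).2
  have h3 : 0 ≤ s - c := sub_nonneg.mpr h
  have := le_mul_of_one_le_left h3 h2
  linarith

end Jbmid

section JSadm

/-- `S` preserves admissibility -/
theorem S_adm {l m c : ℝ} {k : ℕ} (P : Par l m c k) {b : ℝ → ℝ} (hb : Adm l m b) :
    Adm l m (S l m c k b) := by
  have hl := P.hl
  have hm : Real.exp (-1) < m := lt_trans P.hl P.hlm
  have l0 : 0 < l := l_pos hl
  have m0 : 0 < m := l_pos hm
  have hol : π + 2 ≤ o l k := P.ol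
  have hom : π + 2 ≤ o m k := P.om
  have hpi : 0 < π := Real.pi_pos
  have hs1 : s1 l k < s2 l k := lt_trans P.s1l P.s2l
  have hs1p : 0 < s1 l k := by unfold s1; positivity
  have hs2l : s2 l k < l := (s2_lt P).1
  have hs2m : s2 m k < m := (s2_lt P).2
  obtain ⟨L, hL, hLip⟩ := bmid_lip P
  have bmono : ∀ s t, s ≤ t → bmid l m c k s ≤ bmid l m c k t := by
    intro s t hst
    have h2 := (hLip s t hst).2
    have h3 : 0 ≤ L * (bmid l m c k t - bmid l m c k s) := le_trans (by linarith) h2
    have h4 : 0 ≤ bmid l m c k t - bmid l m c k s := by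
      by_contra hneg
      push Not at hneg
      have := mul_neg_of_pos_of_neg hL hneg
      linarith
    linarith
  -- region A
  have A1 : ∀ s, 0 < s → s < s1 l k → o l k ≤ log (l / s) := by
    intro s h0 h1
    rw [Real.le_log_iff_exp_le (by positivity), le_div_iff₀ h0]
    unfold s1 at h1
    have : s * exp (o l k) < l := by
      calc s * exp (o l k) < l * exp (-(o l k)) * exp (o l k) := by
            apply mul_lt_mul_of_pos_right h1 (exp_pos _)
        _ = l := by rw [mul_assoc, ← Real.exp_add]; simp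
    linarith
  have A2 : ∀ s t, 0 < s → s ≤ t → log (l / t) ≤ log (l / s) := by
    intro s t h0 h1
    apply Real.log_le_log (div_pos l0 (lt_of_lt_of_le h0 h1))
    exact div_le_div_of_nonneg_left l0.le h0 h1
  have A3 : ∀ s, 0 < s → s < s1 l k → m * exp (-(H l m b (log (l / s)))) ≤ s1 m k := by
    intro s h0 h1
    have h2 := A1 s h0 h1
    have h3 := H_mono hl hm hb (o l k) (log (l / s)) (by linarith) h2
    rw [H_o hl hm hb k] at h3
    unfold s1
    apply mul_le_mul_of_nonneg_left _ m0.le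
    apply Real.exp_le_exp.mpr
    linarith
  -- region C
  have C1 : ∀ s, s2 l k < s → s < l → 0 < log (l / s) ∧ log (l / s) < ep l k := by
    intro s h0 h1
    have hs : 0 < s := lt_trans (lt_trans hs1p hs1) h0
    constructor
    · apply Real.log_pos
      rw [lt_div_iff₀ hs]; linarith
    · rw [Real.log_lt_iff_lt_exp (by positivity), div_lt_iff₀ hs]
      unfold s2 at h0
      calc l = exp (ep l k) * (l * exp (-(ep l k))) := by
            rw [mul_comm l, ← mul_assoc, ← Real.exp_add]; simp
        _ < exp (ep l k) * s := by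
            apply mul_lt_mul_of_pos_left h0 (exp_pos _)
  have thn : 0 ≤ th (o l k) := by unfold th; exact Real.sqrt_nonneg _
  have C2 : ∀ s, s2 l k < s → s < l → th (o l k) ≤ log (l / (log (l / s))) := by
    intro s h0 h1
    obtain ⟨hy0, hy1⟩ := C1 s h0 h1
    rw [Real.le_log_iff_exp_le (by positivity), le_div_iff₀ hy0]
    unfold ep at hy1
    have : exp (th (o l k)) * log (l / s) < exp (th (o l k)) * (l * exp (-(th (o l k)))) := by
      apply mul_lt_mul_of_pos_left hy1 (exp_pos _)
    have h4 : exp (th (o l k)) * (l * exp (-(th (o l k)))) = l := by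
      rw [mul_comm l, ← mul_assoc, ← Real.exp_add]; simp
    linarith
  have C3 : ∀ s, s2 l k < s → s < l → o l k ≤ wh (log (l / (log (l / s)))) := by
    intro s h0 h1
    have := wh_mono thn (C2 s h0 h1)
    rwa [wh_th (by linarith)] at this
  have C4 : ∀ s, s2 l k < s → s < l → o m k ≤ H l m b (wh (log (l / (log (l / s))))) := by
    intro s h0 h1
    have := H_mono hl hm hb (o l k) _ (by linarith) (C3 s h0 h1)
    rwa [H_o hl hm hb k] at this
  have C5 : ∀ s, s2 l k < s → s < l → eta l m b (log (l / s)) ≤ ep m k := by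
    intro s h0 h1
    have := th_mono (by linarith) (C4 s h0 h1)
    unfold eta ep
    apply mul_le_mul_of_nonneg_left _ m0.le
    apply Real.exp_le_exp.mpr
    linarith
  have C6 : ∀ s, s2 l k < s → s < l → s2 m k ≤ m * exp (-(eta l m b (log (l / s)))) := by
    intro s h0 h1
    have := C5 s h0 h1
    unfold s2
    apply mul_le_mul_of_nonneg_left _ m0.le
    apply Real.exp_le_exp.mpr
    linarith
  have C7 : ∀ Y, m * exp (-(eta l m b Y)) ≤ m := by
    intro Y
    have h1 : 0 ≤ eta l m b Y := by unfold eta; positivity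
    have h2 : exp (-(eta l m b Y)) ≤ 1 := Real.exp_le_one_iff.mpr (by linarith)
    nlinarith
  have C8 : ∀ s t, s2 l k < s → s ≤ t → t < l →
      m * exp (-(eta l m b (log (l / s)))) ≤ m * exp (-(eta l m b (log (l / t)))) := by
    intro s t h0 h1 h2
    have hs : 0 < s := lt_trans (lt_trans hs1p hs1) h0
    have hsl : s < l := lt_of_le_of_lt h1 h2
    have ht2 : s2 l k < t := lt_of_lt_of_le h0 h1
    have hyt := (C1 t ht2 h2).1
    have hys := (C1 s h0 hsl).1
    have hyy := A2 s t hs h1
    have h3 : log (l / (log (l / s))) ≤ log (l / (log (l / t))) := by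
      apply Real.log_le_log (div_pos l0 hys)
      exact div_le_div_of_nonneg_left l0.le hyt hyy
    have h4 := wh_mono (le_trans thn (C2 s h0 hsl)) h3
    have h5 := H_mono hl hm hb _ _ (le_trans (by linarith) (C3 s h0 hsl)) h4
    have h6 := th_mono (le_trans (by linarith) (C4 s h0 hsl)) h5
    have h7 : eta l m b (log (l / t)) ≤ eta l m b (log (l / s)) := by
      unfold eta
      apply mul_le_mul_of_nonneg_left _ m0.le
      apply Real.exp_le_exp.mpr
      linarith
    apply mul_le_mul_of_nonneg_left _ m0.le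
    apply Real.exp_le_exp.mpr
    linarith
  have hs1m : 0 < s1 m k := by unfold s1; positivity
  have hs12m : s1 m k ≤ s2 m k := by
    rw [← bmid_s1 P, ← bmid_s2 P]
    exact bmono _ _ hs1.le
  refine ⟨?_, ?_, ?_⟩
  · unfold S; simp
  · unfold S
    rw [if_neg (by linarith), if_neg (by linarith), if_neg (by linarith), if_neg (lt_irrefl l)]
  · intro s t h0 hst htl
    -- value bounds for t
    have SA : ∀ x, 0 < x → x < s1 l k → S l m c k b x = m * exp (-(H l m b (log (l / x)))) := by
      intro x hx0 hx1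
      unfold S
      rw [if_neg (by linarith), if_pos hx1]
    have SB : ∀ x, s1 l k ≤ x → x ≤ s2 l k → S l m c k b x = bmid l m c k x := by
      intro x hx0 hx1
      unfold S
      rw [if_neg (by linarith), if_neg (by linarith), if_pos hx1]
    have SC : ∀ x, s2 l k < x → x < l →
        S l m c k b x = m * exp (-(eta l m b (log (l / x)))) := by
      intro x hx0 hx1
      unfold S
      rw [if_neg (by linarith), if_neg (by linarith), if_neg (by linarith), if_pos hx1]
    have SD : ∀ x, l ≤ x → S l m c k b x = m := by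
      intro x hx0
      unfold S
      rw [if_neg (by linarith), if_neg (by linarith), if_neg (by linarith),
        if_neg (by linarith)]
    have S0 : ∀ x, x ≤ 0 → S l m c k b x = 0 := by
      intro x hx0
      unfold S
      rw [if_pos hx0]
    have SB1 : ∀ x, s1 l k ≤ x → s1 m k ≤ bmid l m c k x := by
      intro x hx
      rw [← bmid_s1 P]; exact bmono _ _ hx
    have SB2 : ∀ x, x ≤ s2 l k → bmid l m c k x ≤ s2 m k := by
      intro x hx
      rw [← bmid_s2 P]; exact bmono _ _ hx
    rcases le_or_gt s 0 with hs | hs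
    · rw [S0 s hs]
      rcases le_or_gt t 0 with ht | ht
      · rw [S0 t ht]
      rcases lt_or_ge t (s1 l k) with h | h
      · rw [SA t ht h]; positivity
      rcases le_or_gt t (s2 l k) with h' | h'
      · rw [SB t h h']; linarith [SB1 t h]
      rcases lt_or_ge t l with h'' | h''
      · rw [SC t h' h'']; positivity
      · rw [SD t h'']; exact m0.le
    have ht : 0 < t := lt_of_lt_of_le hs hst
    rcases lt_or_ge s (s1 l k) with h | h
    · rw [SA s hs h]
      rcases lt_or_ge t (s1 l k) with g | g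
      · rw [SA t ht g]
        have h2 := A1 t ht g
        have h3 := H_mono hl hm hb _ _ (le_trans (by linarith) h2) (A2 s t hs hst)
        apply mul_le_mul_of_nonneg_left _ m0.le
        apply Real.exp_le_exp.mpr
        linarith
      have := A3 s hs h
      rcases le_or_gt t (s2 l k) with g' | g'
      · rw [SB t g g']; linarith [SB1 t g]
      rcases lt_or_ge t l with g'' | g''
      · rw [SC t g' g'']; linarith [C6 t g' g'']
      · rw [SD t g'']; linarith
    rcases le_or_gt s (s2 l k) with h' | h'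
    · rw [SB s h h']
      have h9 := SB2 s h'
      rcases le_or_gt t (s2 l k) with g' | g'
      · rw [SB t (le_trans h hst) g']; exact bmono _ _ hst
      rcases lt_or_ge t l with g'' | g''
      · rw [SC t g' g'']; linarith [C6 t g' g'']
      · rw [SD t g'']; linarith
    rcases lt_or_ge s l with h'' | h''
    · rw [SC s h' h'']
      rcases lt_or_ge t l with g'' | g''
      · rw [SC t (lt_of_lt_of_le h' hst) g'']
        exact C8 s t h' hst g''
      · rw [SD t g'']; exact C7 _
    · rw [SD s h'', SD t (le_trans h'' hst)]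

end JSadm

section JScontr

theorem abs_exp_sub_le_aux {x y : ℝ} (hx : 0 ≤ x) (hy : 0 ≤ y) :
    |exp (-x) - exp (-y)| ≤ |x - y| := by
  wlog h : x ≤ y generalizing x y
  · rw [abs_sub_comm, abs_sub_comm x y]; exact this hy hx (le_of_not_ge h)
  · have h1 : exp (-y) ≤ exp (-x) := exp_le_exp.2 (by linarith)
    rw [abs_of_nonneg (by linarith), abs_sub_comm, abs_of_nonneg (by linarith : 0 ≤ y - x)]
    have h2 : exp (-y) = exp (-x) * exp (-(y - x)) := by rw [← exp_add]; ring_nf
    have h3 : 1 - (y - x) ≤ exp (-(y - x)) := by have := add_one_le_exp (-(y - x)); linarith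
    have h4 : exp (-x) ≤ 1 := exp_le_one_iff.2 (by linarith)
    have h5 : 0 < exp (-x) := exp_pos _
    have h6 : exp (-x) * (1 - exp (-(y - x))) ≤ exp (-x) * (y - x) :=
      mul_le_mul_of_nonneg_left (by linarith) h5.le
    have h7 : exp (-x) * (y - x) ≤ 1 * (y - x) := mul_le_mul_of_nonneg_right h4 (by linarith)
    rw [h2]
    linarith

theorem th_upper_abs {Q Q' : ℝ} (h : π + 1 ≤ Q) (h' : π + 1 ≤ Q') :
    |exp (-(th Q)) - exp (-(th Q'))| ≤ 2 * exp π * |exp (-Q) - exp (-Q')| := by
  wlog hQ : Q ≤ Q' generalizing Q Q'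
  · rw [abs_sub_comm, abs_sub_comm (exp (-Q))]; exact this h' h (le_of_not_ge hQ)
  · have h1 := th_upper h hQ
    have h2 := th_lower h hQ
    have h3 : exp (-Q') ≤ exp (-Q) := exp_le_exp.2 (by linarith)
    rw [abs_of_nonneg (by linarith), abs_of_nonneg (by linarith)]
    exact h1

/-- contraction -/
theorem S_contr {l m : ℝ} (hl : Real.exp (-1) < l) (hlm : l < m) : ∃ A : ℝ, 1 ≤ A ∧
    ∀ (c : ℝ) (k : ℕ), Par l m c k → A * exp (-(o m k) / 2) ≤ 1 →
    ∀ b b' : ℝ → ℝ, Adm l m b → Adm l m b' → ∀ d : ℝ,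
    (∀ s, 0 ≤ s → s ≤ l → |b s - b' s| ≤ d) →
    ∀ s, 0 ≤ s → s ≤ l → |S l m c k b s - S l m c k b' s| ≤ d / 2 := by
  have hm : Real.exp (-1) < m := hl.trans hlm
  have hl0 : 0 < l := l_pos hl
  have hm0 : 0 < m := l_pos hm
  obtain ⟨CE, hCE, hexpL⟩ := expL hm
  have hCE0 : 0 < CE := by linarith
  refine ⟨2 * (m + 2 * m ^ 2 * exp π) * CE + 1, ?_, ?_⟩
  · have : 0 ≤ 2 * (m + 2 * m ^ 2 * exp π) * CE := by positivity
    linarith
  intro c k P hA b b' hb hb' d hd s hs0 hsl
  have hd0 : 0 ≤ d := (abs_nonneg _).trans (hd 0 le_rfl hl0.le)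
  set ε := exp (-(o m k) / 2) with hε
  have hε0 : 0 < ε := exp_pos _
  -- key estimate
  have key : ∀ X, o l k ≤ X →
      |exp (-(H l m b X)) - exp (-(H l m b' X))| ≤ CE * ε * d := by
    have aux : ∀ (j : ℕ), k ≤ j → ∀ x y : ℝ, 0 ≤ x → x ≤ y → |x - y| ≤ d →
        |exp (-((e m)^[j] x)) - exp (-((e m)^[j] y))| ≤ CE * ε * d := by
      intro j hj x y hx hxy hxyd
      have h1 := hexpL j x y hx hxy
      have h2 : (e m)^[j] x ≤ (e m)^[j] y := (eit_strictMono hm0 j).monotone hxy
      have h3 : exp (-((e m)^[j] y)) ≤ exp (-((e m)^[j] x)) := exp_le_exp.2 (by linarith)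
      rw [abs_of_nonneg (by linarith)]
      have h4 : o m k ≤ (e m)^[j] x :=
        ((o_strictMono hm).monotone hj).trans ((eit_strictMono hm0 j).monotone hx)
      have h5 : exp (-((e m)^[j] x) / 2) ≤ ε := exp_le_exp.2 (by linarith)
      have h6 : y - x ≤ d := by
        rw [abs_sub_comm] at hxyd
        exact (le_abs_self _).trans hxyd
      calc exp (-((e m)^[j] x)) - exp (-((e m)^[j] y))
          ≤ CE * exp (-((e m)^[j] x) / 2) * (y - x) := h1
        _ ≤ CE * ε * d := by
            apply mul_le_mul _ h6 (by linarith) (by positivity)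
            exact mul_le_mul_of_nonneg_left h5 hCE0.le
    intro X hX
    obtain ⟨j, s', hj, h0, h1, rfl⟩ := rep hl k X hX
    rw [H_eq hl hm hb j s' h0 h1.le, H_eq hl hm hb' j s' h0 h1.le]
    have h2 := hd s' h0 h1.le
    rcases le_total (b s') (b' s') with h | h
    · exact aux j hj _ _ (hb.nonneg s' h0 h1.le) h h2
    · rw [abs_sub_comm]
      rw [abs_sub_comm] at h2
      exact aux j hj _ _ (hb'.nonneg s' h0 h1.le) h h2
  have hA1 : m * (CE * ε * d) ≤ d / 2 := by
    have h1 : (2 * m * CE) * ε ≤ 1 := by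
      refine le_trans (mul_le_mul_of_nonneg_right ?_ hε0.le) hA
      have : 0 ≤ 2 * (2 * m ^ 2 * exp π) * CE := by positivity
      linarith
    have h2 : (2 * m * CE) * ε * d ≤ 1 * d := mul_le_mul_of_nonneg_right h1 hd0
    linarith
  have hA2 : m * (m * (2 * exp π * (CE * ε * d))) ≤ d / 2 := by
    have h1 : (4 * m ^ 2 * exp π * CE) * ε ≤ 1 := by
      refine le_trans (mul_le_mul_of_nonneg_right ?_ hε0.le) hA
      have : 0 ≤ 2 * m * CE := by positivity
      linarith
    have h2 : (4 * m ^ 2 * exp π * CE) * ε * d ≤ 1 * d := mul_le_mul_of_nonneg_right h1 hd0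
    linarith
  have hol0 : 0 ≤ o l k := by have := P.ol; have := Real.pi_pos; linarith
  unfold S
  split_ifs with c1 c2 c3 c4
  · rw [sub_self, abs_zero]; positivity
  · -- lower part
    push Not at c1
    rw [← mul_sub, abs_mul, abs_of_pos hm0]
    refine (mul_le_mul_of_nonneg_left (key _ ?_) hm0.le).trans hA1
    rw [Real.le_log_iff_exp_le (by positivity), le_div_iff₀ c1]
    have : s < l * exp (-(o l k)) := c2
    have h2 : exp (o l k) * s ≤ exp (o l k) * (l * exp (-(o l k))) :=
      mul_le_mul_of_nonneg_left this.le (exp_pos _).le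
    have h3 : exp (o l k) * (l * exp (-(o l k))) = l := by
      rw [exp_neg]; field_simp
    linarith
  · rw [sub_self, abs_zero]; positivity
  · -- upper part
    push Not at c1 c2 c3
    set Y := log (l / s) with hY
    have hY0 : 0 < Y := by
      apply Real.log_pos
      rw [lt_div_iff₀ c1]; linarith
    have hYlt : Y ≤ ep l k := by
      have h1 : l / s ≤ exp (ep l k) := by
        rw [div_le_iff₀ c1]
        have h2 : l * exp (-(ep l k)) < s := c3
        have h3 : exp (ep l k) * (l * exp (-(ep l k))) = l := by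
          rw [exp_neg]; field_simp
        have h4 : exp (ep l k) * (l * exp (-(ep l k))) ≤ exp (ep l k) * s :=
          mul_le_mul_of_nonneg_left h2.le (exp_pos _).le
        linarith
      calc Y ≤ log (exp (ep l k)) := Real.log_le_log (by positivity) h1
        _ = ep l k := Real.log_exp _
    have hZ : th (o l k) ≤ log (l / Y) := by
      rw [Real.le_log_iff_exp_le (by positivity), le_div_iff₀ hY0]
      have h2 : Y ≤ l * exp (-(th (o l k))) := hYlt
      have h3 : exp (th (o l k)) * (l * exp (-(th (o l k)))) = l := by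
        rw [exp_neg]; field_simp
      have h4 : exp (th (o l k)) * Y ≤ exp (th (o l k)) * (l * exp (-(th (o l k)))) :=
        mul_le_mul_of_nonneg_left h2 (exp_pos _).le
      linarith
    have hpi := Real.pi_pos
    have hW : o l k ≤ wh (log (l / Y)) := by
      have h1 : wh (th (o l k)) = o l k := wh_th (by have := P.ol; linarith)
      rw [← h1]
      exact wh_mono (Real.sqrt_nonneg _) hZ
    have hQ : π + 1 ≤ H l m b (wh (log (l / Y))) := by
      have h1 := H_mono hl hm hb _ _ hol0 hW
      rw [H_o hl hm hb k] at h1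
      have := P.om
      linarith
    have hQ' : π + 1 ≤ H l m b' (wh (log (l / Y))) := by
      have h1 := H_mono hl hm hb' _ _ hol0 hW
      rw [H_o hl hm hb' k] at h1
      have := P.om
      linarith
    have h1 := th_upper_abs hQ hQ'
    have h2 := key _ hW
    have h3 : |eta l m b Y - eta l m b' Y| ≤ m * (2 * exp π * (CE * ε * d)) := by
      unfold eta
      rw [← mul_sub, abs_mul, abs_of_pos hm0]
      refine mul_le_mul_of_nonneg_left (h1.trans ?_) hm0.le
      exact mul_le_mul_of_nonneg_left h2 (by positivity)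
    rw [← mul_sub, abs_mul, abs_of_pos hm0]
    refine (mul_le_mul_of_nonneg_left ((abs_exp_sub_le_aux ?_ ?_).trans h3) hm0.le).trans hA2
    · unfold eta; positivity
    · unfold eta; positivity
  · rw [sub_self, abs_zero]; positivity

end JScontr

section Jfix

/-- the fixed point -/
theorem exists_fix {l m : ℝ} (hl : Real.exp (-1) < l) (hlm : l < m) : ∃ A : ℝ, 1 ≤ A ∧
    ∀ (c : ℝ) (k : ℕ), Par l m c k → A * exp (-(o m k) / 2) ≤ 1 →
    ∃ b : ℝ → ℝ, Adm l m b ∧ ∀ s, 0 ≤ s → s ≤ l → S l m c k b s = b s := by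
  obtain ⟨A, hA, hS⟩ := S_contr hl hlm
  refine ⟨A, hA, ?_⟩
  intro c k P hk
  have hl0 : 0 < l := l_pos hl
  have hm0 : 0 < m := hl0.trans hlm
  have hadm0 : Adm l m (fun s => m * s / l) := by
    refine ⟨by simp, ?_, ?_⟩
    · show m * l / l = m
      field_simp
    · intro s t hs hst htl
      show m * s / l ≤ m * t / l
      exact div_le_div_of_nonneg_right (mul_le_mul_of_nonneg_left hst hm0.le) hl0.le
  obtain ⟨bs, hbs0, hbss⟩ : ∃ bs : ℕ → ℝ → ℝ, bs 0 = (fun s => m * s / l) ∧
      ∀ n, bs (n + 1) = S l m c k (bs n) :=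
    ⟨fun n => (S l m c k)^[n] (fun s => m * s / l), rfl,
      fun n => Function.iterate_succ_apply' _ _ _⟩
  have hadm : ∀ n, Adm l m (bs n) := by
    intro n
    induction n with
    | zero => rw [hbs0]; exact hadm0
    | succ n ih => rw [hbss]; exact S_adm P ih
  have hd : ∀ n, ∀ s, 0 ≤ s → s ≤ l → |bs (n + 1) s - bs n s| ≤ m * (1 / 2) ^ n := by
    intro n
    induction n with
    | zero =>
      intro s h0 h1
      have a1 := (hadm 1).nonneg s h0 h1
      have a2 := (hadm 1).le s h0 h1
      have a3 := (hadm 0).nonneg s h0 h1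
      have a4 := (hadm 0).le s h0 h1
      rw [abs_le]
      constructor <;> simp only [zero_add, pow_zero, mul_one] <;> linarith
    | succ n ih =>
      intro s h0 h1
      have h := hS c k P hk (bs (n + 1)) (bs n) (hadm _) (hadm _) (m * (1 / 2) ^ n) ih s h0 h1
      rw [← hbss, ← hbss] at h
      refine h.trans (le_of_eq ?_)
      rw [pow_succ]
      ring
  have hdist : ∀ s, 0 ≤ s → s ≤ l → ∀ n, dist (bs n s) (bs (n + 1) s) ≤ m * (1 / 2) ^ n := by
    intro s h0 h1 n
    rw [dist_comm, Real.dist_eq]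
    exact hd n s h0 h1
  have hlim : ∀ s, ∃ x : ℝ, 0 ≤ s → s ≤ l → Filter.Tendsto (fun n => bs n s) Filter.atTop (nhds x) := by
    intro s
    by_cases h : 0 ≤ s ∧ s ≤ l
    · obtain ⟨x, hx⟩ := cauchySeq_tendsto_of_complete
        (cauchySeq_of_le_geometric (1 / 2 : ℝ) m (by norm_num) (hdist s h.1 h.2))
      exact ⟨x, fun _ _ => hx⟩
    · exact ⟨0, fun h0 h1 => absurd ⟨h0, h1⟩ h⟩
  choose b hb using hlim
  have hclose : ∀ n, ∀ s, 0 ≤ s → s ≤ l → |bs n s - b s| ≤ 2 * m * (1 / 2) ^ n := by
    intro n s h0 h1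
    have h := dist_le_of_le_geometric_of_tendsto (1 / 2 : ℝ) m (by norm_num) (hdist s h0 h1)
      (hb s h0 h1) n
    rw [Real.dist_eq] at h
    refine h.trans (le_of_eq ?_)
    ring
  have hbadm : Adm l m b := by
    refine ⟨?_, ?_, ?_⟩
    · have h := hb 0 le_rfl hl0.le
      have e : (fun n => bs n 0) = fun _ => (0:ℝ) := funext (fun n => (hadm n).zero)
      rw [e] at h
      exact tendsto_nhds_unique h tendsto_const_nhds
    · have h := hb l hl0.le le_rfl
      have e : (fun n => bs n l) = fun _ => m := funext (fun n => (hadm n).top)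
      rw [e] at h
      exact tendsto_nhds_unique h tendsto_const_nhds
    · intro s t hs hst htl
      exact le_of_tendsto_of_tendsto' (hb s hs (hst.trans htl)) (hb t (hs.trans hst) htl)
        (fun n => (hadm n).mono s t hs hst htl)
  refine ⟨b, hbadm, ?_⟩
  intro s h0 h1
  have h2 : ∀ n, |S l m c k b s - bs (n + 1) s| ≤ m * (1 / 2) ^ n := by
    intro n
    have h := hS c k P hk b (bs n) hbadm (hadm n) (2 * m * (1 / 2) ^ n)
      (fun s h0 h1 => by rw [abs_sub_comm]; exact hclose n s h0 h1) s h0 h1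
    rw [hbss]
    refine h.trans (le_of_eq ?_)
    ring
  have h3 : Filter.Tendsto (fun n : ℕ => m * (1 / 2 : ℝ) ^ n) Filter.atTop (nhds 0) := by
    have := (tendsto_pow_atTop_nhds_zero_of_lt_one (r := (1 / 2 : ℝ)) (by norm_num)
      (by norm_num)).const_mul m
    rwa [mul_zero] at this
  have h4 : Filter.Tendsto (fun n => bs (n + 1) s) Filter.atTop (nhds (S l m c k b s)) := by
    rw [tendsto_iff_dist_tendsto_zero]
    refine squeeze_zero (fun n => dist_nonneg) (fun n => ?_) h3
    rw [dist_comm, Real.dist_eq]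
    exact h2 n
  have h5 : Filter.Tendsto (fun n => bs (n + 1) s) Filter.atTop (nhds (b s)) :=
    (hb s h0 h1).comp (Filter.tendsto_add_atTop_nat 1)
  exact tendsto_nhds_unique h4 h5

end Jfix

end Pool.Agent.Helper115.EXR
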