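import Mathlib

set_option autoImplicit false

namespace Pool.Agent.Helper115.EXR

open Real

/-- an equivalence relation on parameters which holds for nearby pairs (uniformly on compact sets)
holds for all pairs -/
theorem chain {P : ℝ → ℝ → Prop} (hr : ∀ l, P l l) (hs : ∀ l m, P l m → P m l)
    (ht : ∀ l m n, P l m → P m n → P l n)
    (hloc : ∀ p q : ℝ, Real.exp (-1) < p → p ≤ q → ∃ κ₀ : ℝ, 0 < κ₀ ∧
      ∀ l m : ℝ, p ≤ l → l ≤ q → l < m → m ≤ l * exp κ₀ → P l m) :
    ∀ l m : ℝ, Real.exp (-1) < l → Real.exp (-1) < m → P l m := by
  have key : ∀ l m : ℝ, Real.exp (-1) < l → l < m → P l m := by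
    intro l m hl hlm
    obtain ⟨κ, hκ, hloc'⟩ := hloc l m hl hlm.le
    have hl0 : 0 < l := lt_trans (Real.exp_pos _) hl
    have hd : 0 < Real.log (m / l) := Real.log_pos (by rw [lt_div_iff₀ hl0]; linarith)
    obtain ⟨n, hn⟩ := exists_nat_gt (Real.log (m / l) / κ)
    have hn0 : 0 < (n : ℝ) := lt_trans (by positivity) hn
    set d := Real.log (m / l) / n with hdef
    have hd0 : 0 < d := by positivity
    have hdκ : d ≤ κ := by
      rw [hdef, div_le_iff₀ hn0]
      rw [div_lt_iff₀ hκ] at hn
      linarith [mul_comm (n : ℝ) κ]
    have hnd : (n : ℝ) * d = Real.log (m / l) := by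
      rw [hdef]; field_simp
    have hend : l * exp (n * d) = m := by
      rw [hnd, Real.exp_log (div_pos (lt_trans hl0 hlm) hl0)]; field_simp
    have step : ∀ i : ℕ, i ≤ n → P l (l * exp (i * d)) := by
      intro i
      induction i with
      | zero => intro _; simpa using hr l
      | succ i ih =>
        intro hi
        have h1 := ih (by omega)
        refine ht _ _ _ h1 ?_
        apply hloc'
        · have : (1 : ℝ) ≤ exp (i * d) := Real.one_le_exp (by positivity)
          nlinarith
        · rw [← hend]
          apply mul_le_mul_of_nonneg_left _ hl0.le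
          apply Real.exp_le_exp.2
          have : (i : ℝ) ≤ n := by exact_mod_cast (by omega : i ≤ n)
          nlinarith
        · apply mul_lt_mul_of_pos_left _ hl0
          apply Real.exp_lt_exp.2
          push_cast
          nlinarith
        · rw [mul_assoc, ← Real.exp_add]
          apply mul_le_mul_of_nonneg_left _ hl0.le
          apply Real.exp_le_exp.2
          push_cast
          nlinarith
    have := step n le_rfl
    rwa [hend] at this
  intro l m hl hm
  rcases lt_trichotomy l m with h | h | h
  · exact key l m hl h
  · subst h; exact hr l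
  · exact hs _ _ (key m l hm h)

end Pool.Agent.Helper115.EXR
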