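import Pool.Agent.Helper115.EXR.C

set_option autoImplicit false

namespace Pool.Agent.Helper115.EXR

open Real

section Jfixa

theorem fix_c {l m c : ℝ} {k : ℕ} (P : Par l m c k) {b : ℝ → ℝ}
    (hS : ∀ s, 0 ≤ s → s ≤ l → S l m c k b s = b s) (s : ℝ) (h0 : c ≤ s) (h1 : s ≤ s2 l k) :
    b s = bmid l m c k s := by
  have h2 := s2_lt P
  have hc := P.hc
  have hs1 := P.s1l
  rw [← hS s (by linarith) (by linarith)]
  unfold S
  rw [if_neg (by linarith), if_neg (by linarith), if_pos h1]

theorem fix_cc {l m c : ℝ} {k : ℕ} (P : Par l m c k) {b : ℝ → ℝ}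
    (hS : ∀ s, 0 ≤ s → s ≤ l → S l m c k b s = b s) : b c = c := by
  rw [fix_c P hS c le_rfl P.s2l.le]
  unfold bmid
  rw [if_pos le_rfl]
  have : c - s1 l k ≠ 0 := by have := P.s1l; intro h; linarith
  field_simp
  ring

theorem fix_ge {l m c : ℝ} {k : ℕ} (P : Par l m c k) {b : ℝ → ℝ} (hb : Adm l m b)
    (hS : ∀ s, 0 ≤ s → s ≤ l → S l m c k b s = b s) (s : ℝ) (h0 : c ≤ s) (h1 : s ≤ l) :
    s ≤ b s := by
  have h2 := s2_lt P
  have hc := P.hc
  have hcs := P.s2l
  rcases le_or_gt s (s2 l k) with h | h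
  · rw [fix_c P hS s h0 h]
    exact bmid_ge P s h0 h
  · have h3 : b (s2 l k) = s2 m k := by
      rw [fix_c P hS (s2 l k) hcs.le le_rfl, bmid_s2 P]
    have h4 := s2m_ge P
    have h5 := hb.mono (s2 l k) s (by linarith) h.le h1
    linarith

theorem fix_s2 {l m c : ℝ} {k : ℕ} (P : Par l m c k) : l - l * c ≤ s2 l k := by
  have hl : 0 < l := l_pos P.hl
  have h1 : 1 - ep l k ≤ exp (-(ep l k)) := by
    have := Real.add_one_le_exp (-(ep l k)); linarith
  have h2 := P.epl
  have h3 : 1 - c ≤ exp (-(ep l k)) := by linarith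
  have h4 := mul_le_mul_of_nonneg_left h3 hl.le
  unfold s2
  linarith

theorem fix_le {l m c : ℝ} {k : ℕ} (P : Par l m c k) {b : ℝ → ℝ} (hb : Adm l m b)
    (hS : ∀ s, 0 ≤ s → s ≤ l → S l m c k b s = b s) (s : ℝ) (h0 : 0 ≤ s) (h1 : s ≤ l) :
    b s ≤ s + c + (m - l) + l * c := by
  have h2 := s2_lt P
  have hc := P.hc
  have hcs := P.s2l
  have hl : 0 < l := l_pos P.hl
  have hlc : 0 < l * c := mul_pos hl hc
  have hlm := P.hlm
  have hs2 := fix_s2 P
  rcases le_or_gt s c with h | h
  · have h3 := hb.mono s c h0 h (by linarith)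
    rw [fix_cc P hS] at h3
    linarith
  rcases le_or_gt s (s2 l k) with h' | h'
  · rw [fix_c P hS s h.le h']
    unfold bmid
    rw [if_neg (by linarith)]
    have h4 := s2m_ge P
    have h5 : 0 < s2 l k - c := by linarith
    have h6 : c + (s2 m k - c) / (s2 l k - c) * (s - c) =
        s + (s2 m k - s2 l k) * ((s - c) / (s2 l k - c)) := by
      field_simp
      ring
    rw [h6]
    have h7 : (s - c) / (s2 l k - c) ≤ 1 := by
      rw [div_le_one h5]; linarith
    have h8 : (s2 m k - s2 l k) * ((s - c) / (s2 l k - c)) ≤ (s2 m k - s2 l k) * 1 :=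
      mul_le_mul_of_nonneg_left h7 (by linarith)
    linarith
  · have h3 := hb.le s h0 h1
    linarith

end Jfixa

section JHge

theorem iter_le_iter {l m : ℝ} (hl : 0 < l) (hlm : l ≤ m) : ∀ (i : ℕ) (x y : ℝ), 0 ≤ x → x ≤ y →
    (e l)^[i] x ≤ (e m)^[i] y := by
  intro i
  induction i with
  | zero => intro x y _ h; simpa using h
  | succ i ih =>
    intro x y hx hxy
    rw [Function.iterate_succ_apply, Function.iterate_succ_apply]
    apply ih
    · exact (e_pos hl x).le
    · unfold e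
      exact mul_le_mul hlm (Real.exp_le_exp.2 hxy) (Real.exp_pos _).le (hl.le.trans hlm)

theorem H_ge {l m c : ℝ} {k : ℕ} (P : Par l m c k) {b : ℝ → ℝ} (hb : Adm l m b)
    (hS : ∀ s, 0 ≤ s → s ≤ l → S l m c k b s = b s) (X : ℝ) (hX : l ≤ X) : X ≤ H l m b X := by
  have hl0 : 0 < l := l_pos P.hl
  have hm : Real.exp (-1) < m := P.hl.trans P.hlm
  obtain ⟨j, s, hj, hs0, hsl, hsX⟩ := rep P.hl 1 X (by rw [o_one]; exact hX)
  rw [← hsX, H_eq P.hl hm hb j s hs0 hsl.le]
  rcases le_or_gt c s with hcs | hsc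
  · exact iter_le_iter hl0 P.hlm.le j s (b s) hs0 (fix_ge P hb hS s hcs hsl.le)
  · obtain ⟨i, rfl⟩ : ∃ i, j = i + 1 := ⟨j - 1, by omega⟩
    rw [Function.iterate_succ_apply, Function.iterate_succ_apply]
    apply iter_le_iter hl0 P.hlm.le i
    · exact (e_pos hl0 s).le
    · have h1 : e l s ≤ m := by
        unfold e
        exact (mul_le_mul_of_nonneg_left (Real.exp_le_exp.2 hsc.le) hl0.le).trans P.hcm
      have h2 : m ≤ e m (b s) := by
        have hb0 : 0 ≤ b s := hb.nonneg s hs0 hsl.le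
        unfold e
        have h3 : (1:ℝ) ≤ Real.exp (b s) := Real.one_le_exp hb0
        have h4 : 0 < m := hl0.trans P.hlm
        nlinarith
      exact h1.trans h2

end JHge

section JHle

theorem HLaux_exp_le {x : ℝ} (h0 : 0 ≤ x) (h1 : x ≤ 1) : exp x ≤ 1 + 2 * x := by
  have := Real.abs_exp_sub_one_le (x := x) (by rw [abs_of_nonneg h0]; exact h1)
  rw [abs_of_nonneg h0] at this
  have := (abs_le.1 this).2
  linarith

theorem HLaux_exp_neg {x : ℝ} (h0 : 0 ≤ x) (h1 : x ≤ 1) : exp (-x) ≤ 1 - x / 2 := by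
  have h2 : 1 + x ≤ exp x := by have := Real.add_one_le_exp x; linarith
  have h3 : exp (-x) * exp x = 1 := by rw [← exp_add]; simp
  have h4 : 0 < exp (-x) := exp_pos _
  have h5 : exp (-x) * (1 + x) ≤ 1 := by nlinarith
  have h6 : 1 ≤ (1 - x / 2) * (1 + x) := by nlinarith
  by_contra h
  push Not at h
  nlinarith

theorem HLaux_mono {l q s t : ℝ} (hl : 0 < l) (hlq : l ≤ q) (hst : s ≤ t) (j : ℕ) :
    (e l)^[j] s ≤ (e q)^[j] t := by
  induction j with
  | zero => simpa using hst
  | succ j ih =>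
    rw [Function.iterate_succ_apply', Function.iterate_succ_apply']
    unfold e at *
    exact mul_le_mul hlq (exp_le_exp.2 ih) (exp_pos _).le (by linarith)

theorem HLaux_A {q D0 : ℝ} (hq : 0 < q) (hD0 : 0 ≤ D0) (j : ℕ) : ∃ D K : ℝ, 0 ≤ D ∧ 0 < K ∧
    ∀ l κ s t : ℝ, 0 < l → l ≤ q → 0 ≤ κ → κ ≤ K → s ≤ l → t ≤ s + D0 * κ →
      (e (l * exp κ))^[j] t ≤ (e l)^[j] s + D * κ := by
  induction j with
  | zero => exact ⟨D0, 1, hD0, one_pos, fun l κ s t _ _ _ _ _ h => by simpa using h⟩
  | succ j ih =>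
    obtain ⟨D, K, hD, hK, h⟩ := ih
    set M := (e q)^[j + 1] q with hM
    have hM0 : 0 ≤ M := by
      rw [hM, Function.iterate_succ_apply']
      unfold e
      positivity
    refine ⟨2 * (1 + D) * M, min K (1 / (1 + D)), by positivity, lt_min hK (by positivity), ?_⟩
    intro l κ s t hl hlq hκ hκK hsl ht
    have h1 := h l κ s t hl hlq hκ (hκK.trans (min_le_left _ _)) hsl ht
    have h2 : (1 + D) * κ ≤ 1 := by
      have := hκK.trans (min_le_right _ _)
      rw [le_div_iff₀ (by positivity)] at this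
      linarith
    have h3 : (e l)^[j + 1] s ≤ M := HLaux_mono hl hlq (hsl.trans hlq) (j + 1)
    rw [Function.iterate_succ_apply'] at h3 ⊢
    rw [Function.iterate_succ_apply']
    set a := (e (l * exp κ))^[j] t
    set c := (e l)^[j] s
    have h4 : e (l * exp κ) a ≤ e l c * exp ((1 + D) * κ) := by
      unfold e
      rw [mul_assoc, mul_assoc, ← exp_add, ← exp_add]
      apply mul_le_mul_of_nonneg_left _ hl.le
      apply exp_le_exp.2
      linarith
    have h5 : exp ((1 + D) * κ) ≤ 1 + 2 * ((1 + D) * κ) := HLaux_exp_le (by positivity) h2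
    have h6 : 0 < e l c := by unfold e; positivity
    have h7 : 0 ≤ (1 + D) * κ := by positivity
    calc e (l * exp κ) a ≤ e l c * exp ((1 + D) * κ) := h4
      _ ≤ e l c * (1 + 2 * ((1 + D) * κ)) := mul_le_mul_of_nonneg_left h5 h6.le
      _ = e l c + 2 * ((1 + D) * κ) * e l c := by ring
      _ ≤ e l c + 2 * ((1 + D) * κ) * M := by
          have := mul_le_mul_of_nonneg_left h3 h7
          linarith
      _ = _ := by ring

theorem HLaux_step {l m : ℝ} (hl : Real.exp (-1) < l) (hm : Real.exp (-1) < m) {b : ℝ → ℝ}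
    (hb : Adm l m b) (f g : ℝ → ℝ)
    (hf : ∀ᶠ x in Filter.atTop, H l m b x ≤ f x)
    (hfg : ∀ᶠ x in Filter.atTop, Real.log m + f x ≤ g x) :
    ∀ᶠ X in Filter.atTop, H l m b X ≤ exp (g (Real.log (X / l))) := by
  have hl0 := l_pos hl
  have hm0 := l_pos hm
  have ht : Filter.Tendsto (fun X : ℝ => Real.log (X / l)) Filter.atTop Filter.atTop :=
    Real.tendsto_log_atTop.comp (Filter.tendsto_id.atTop_div_const hl0)
  filter_upwards [ht.eventually hf, ht.eventually hfg, ht.eventually (Filter.eventually_ge_atTop 0),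
    Filter.eventually_gt_atTop 0] with X h1 h2 h3 h4
  have h5 : e l (Real.log (X / l)) = X := e_log hl0 h4
  have h6 := H_iter hl hm hb 1 (Real.log (X / l)) h3
  simp only [Function.iterate_one] at h6
  rw [h5] at h6
  rw [h6]
  unfold e
  calc m * exp (H l m b (Real.log (X / l))) = exp (Real.log m + H l m b (Real.log (X / l))) := by
        rw [exp_add, exp_log hm0]
    _ ≤ _ := exp_le_exp.2 (by linarith)

theorem HLaux_ev {A B C α β : ℝ} (hC : 0 < C) (hβ : 0 < β) (hαβ : α < β) :
    ∀ᶠ x in Filter.atTop, A + B * exp (α * x) ≤ C * exp (β * x) := by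
  have h1 : Filter.Tendsto (fun x : ℝ => exp (-(β * x))) Filter.atTop (nhds 0) :=
    Real.tendsto_exp_neg_atTop_nhds_zero.comp (Filter.tendsto_id.const_mul_atTop hβ)
  have h2 : Filter.Tendsto (fun x : ℝ => exp (-((β - α) * x))) Filter.atTop (nhds 0) :=
    Real.tendsto_exp_neg_atTop_nhds_zero.comp
      (Filter.tendsto_id.const_mul_atTop (by linarith : 0 < β - α))
  have h3 : Filter.Tendsto (fun x : ℝ => A * exp (-(β * x)) + B * exp (-((β - α) * x)))
      Filter.atTop (nhds 0) := by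
    simpa using (h1.const_mul A).add (h2.const_mul B)
  filter_upwards [h3.eventually (gt_mem_nhds hC)] with x hx
  have h4 : A + B * exp (α * x) =
      (A * exp (-(β * x)) + B * exp (-((β - α) * x))) * exp (β * x) := by
    rw [add_mul, mul_assoc, mul_assoc, ← exp_add, ← exp_add]
    have e1 : -(β * x) + β * x = 0 := by ring
    have e2 : -((β - α) * x) + β * x = α * x := by ring
    rw [e1, e2, exp_zero, mul_one]
  rw [h4]
  exact mul_le_mul_of_nonneg_right hx.le (exp_pos _).le

/-- upper growth: uniform smallness threshold for `log (m/l)` on compact parameter sets -/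
theorem H_le {p q : ℝ} (hp : Real.exp (-1) < p) (hpq : p ≤ q) : ∃ κ₀ : ℝ, 0 < κ₀ ∧
    ∀ (l m c : ℝ) (k : ℕ) (b : ℝ → ℝ), p ≤ l → l ≤ q → m ≤ l * exp κ₀ → c ≤ Real.log (m / l) →
    Par l m c k → Adm l m b → (∀ s, 0 ≤ s → s ≤ l → S l m c k b s = b s) →
    ∃ Y : ℝ, ∀ y, Y ≤ y → H l m b y ≤ exp (√y) := by
  have hp0 : 0 < p := l_pos hp
  have hq0 : 0 < q := lt_of_lt_of_le hp0 hpq
  have hcp : 0 < 1 + Real.log p := dlt_pos hp
  set cp := 1 + Real.log p with hcpdef
  obtain ⟨j1, hj1⟩ : ∃ j1 : ℕ, 4 ≤ o p (j1 + 2) := by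
    have h1 := (o_tendsto hp).eventually (Filter.eventually_ge_atTop 4)
    obtain ⟨N, hN⟩ := Filter.eventually_atTop.1 h1
    exact ⟨N, hN (N + 2) (by omega)⟩
  obtain ⟨D, K, hD, hK, hA⟩ := HLaux_A hq0 (by positivity : (0:ℝ) ≤ 1 + 3 * q) j1
  set del := min (cp / 2) (1 / 2) with hdel
  have hdel0 : 0 < del := lt_min (by positivity) (by norm_num)
  refine ⟨min (min 1 K) (min del (cp / (2 * (D + 1)))), lt_min (lt_min one_pos hK)
    (lt_min hdel0 (by positivity)), ?_⟩
  intro l m c k b hpl hlq hmκ hc P hb hS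
  have hl : Real.exp (-1) < l := P.hl
  have hl0 : 0 < l := l_pos hl
  have hlm := P.hlm
  have hm : Real.exp (-1) < m := hl.trans hlm
  have hm0 : 0 < m := l_pos hm
  set κ := Real.log (m / l) with hκ
  have hml : m = l * exp κ := by
    rw [hκ, exp_log (by positivity)]
    field_simp
  have hκ0 : 0 < κ := Real.log_pos (by rw [lt_div_iff₀ hl0]; linarith)
  have hκle : κ ≤ min (min 1 K) (min del (cp / (2 * (D + 1)))) := by
    rw [hml] at hmκ
    have := le_of_mul_le_mul_left hmκ hl0
    exact exp_le_exp.1 this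
  have hκ1 : κ ≤ 1 := hκle.trans ((min_le_left _ _).trans (min_le_left _ _))
  have hκK : κ ≤ K := hκle.trans ((min_le_left _ _).trans (min_le_right _ _))
  have hκd : κ ≤ del := hκle.trans ((min_le_right _ _).trans (min_le_left _ _))
  have hκD : (D + 1) * κ ≤ cp / 2 := by
    have := hκle.trans ((min_le_right _ _).trans (min_le_right _ _))
    rw [le_div_iff₀ (by positivity)] at this
    linarith
  have hdel2 : del ≤ cp / 2 := min_le_left _ _
  have hdel1 : del ≤ 1 / 2 := min_le_right _ _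
  -- initial bound
  have hb0 : ∀ s, 0 ≤ s → s ≤ l → b s ≤ s + (1 + 3 * q) * κ := by
    intro s h0 h1
    have h2 := fix_le P hb hS s h0 h1
    have h3 : m - l ≤ 2 * q * κ := by
      have h4 : exp κ ≤ 1 + 2 * κ := HLaux_exp_le hκ0.le hκ1
      rw [hml]
      calc l * exp κ - l ≤ l * (1 + 2 * κ) - l := by
            have := mul_le_mul_of_nonneg_left h4 hl0.le
            linarith
        _ = l * (2 * κ) := by ring
        _ ≤ q * (2 * κ) := mul_le_mul_of_nonneg_right hlq (by positivity)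
        _ = _ := by ring
    have h5 : l * c ≤ q * κ := mul_le_mul hlq hc P.hc.le hq0.le
    linarith
  -- step bound
  have hlogl : cp ≤ 1 + Real.log l := by
    rw [hcpdef]
    have := Real.log_le_log hp0 hpl
    linarith
  have hmain : ∀ s, 0 ≤ s → s ≤ l → ∀ n : ℕ,
      (e m)^[j1 + n] (b s) + κ + del ≤ (e l)^[j1 + n + 1] s ∧
      (e m)^[j1 + n + 1] (b s) ≤ exp (-del) * (e l)^[j1 + n + 2] s := by
    intro s h0 h1 n
    have hstep : ∀ j : ℕ, (e m)^[j] (b s) + κ + del ≤ (e l)^[j + 1] s →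
        (e m)^[j + 1] (b s) ≤ exp (-del) * (e l)^[j + 2] s := by
      intro j hj
      rw [Function.iterate_succ_apply' (e m) j, Function.iterate_succ_apply' (e l) (j + 1)]
      have hem : e m ((e m)^[j] (b s)) = l * exp (κ + (e m)^[j] (b s)) := by
        unfold e
        rw [exp_add, ← mul_assoc, ← hml]
      rw [hem]
      have hel : exp (-del) * e l ((e l)^[j + 1] s) = l * exp (-del + (e l)^[j + 1] s) := by
        unfold e
        rw [exp_add]; ring
      rw [hel]
      apply mul_le_mul_of_nonneg_left _ hl0.le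
      apply exp_le_exp.2
      linarith
    have hbase : (e m)^[j1 + n] (b s) + κ + del ≤ (e l)^[j1 + n + 1] s := by
      induction n with
      | zero =>
        have h2 := hA l κ s (b s) hl0 hlq hκ0.le hκK h1 (hb0 s h0 h1)
        rw [← hml] at h2
        have h3 := e_gt hl0 ((e l)^[j1] s)
        rw [← Function.iterate_succ_apply' (e l) j1] at h3
        simp only [add_zero]
        have h4 : (e l)^[j1.succ] s = (e l)^[j1 + 1] s := rfl
        rw [h4] at h3
        linarith
      | succ n ih =>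
        have h2 := hstep _ ih
        have h3 : (4:ℝ) ≤ (e l)^[j1 + n + 2] s := by
          have h4 : o p (j1 + 2) ≤ o l (j1 + 2) := HLaux_mono hp0 hpl le_rfl _
          have h5 : o l (j1 + 2) ≤ o l (j1 + n + 2) := (o_strictMono hl).monotone (by omega)
          have h6 : o l (j1 + n + 2) ≤ (e l)^[j1 + n + 2] s :=
            HLaux_mono hl0 le_rfl h0 _
          linarith
        have h7 : exp (-del) ≤ 1 - del / 2 := HLaux_exp_neg hdel0.le (by linarith)
        have h8 : exp (-del) * (e l)^[j1 + n + 2] s ≤ (1 - del / 2) * (e l)^[j1 + n + 2] s :=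
          mul_le_mul_of_nonneg_right h7 (by linarith)
        show (e m)^[j1 + n + 1] (b s) + κ + del ≤ (e l)^[j1 + n + 2] s
        nlinarith
    exact ⟨hbase, hstep _ hbase⟩
  have hE1 : ∀ᶠ x in Filter.atTop, H l m b x ≤ exp (-del) * (l * exp x) := by
    filter_upwards [Filter.eventually_ge_atTop (o l (j1 + 1))] with x hx
    obtain ⟨j, s, hj, h0, h1, rfl⟩ := rep hl (j1 + 1) x hx
    rw [H_eq hl hm hb j s h0 h1.le]
    obtain ⟨n, rfl⟩ : ∃ n, j = j1 + n + 1 := ⟨j - (j1 + 1), by omega⟩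
    have h2 := (hmain s h0 h1.le n).2
    rw [Function.iterate_succ_apply' (e l) (j1 + n + 1)] at h2
    exact h2
  set θ := exp (-del) with hθ
  have hθ0 : 0 < θ := exp_pos _
  have hθ1 : θ < 1 := by rw [hθ, Real.exp_lt_one_iff]; linarith
  have hE2 : ∀ᶠ X in Filter.atTop, H l m b X ≤ m * exp (θ * X) := by
    have h1 := HLaux_step hl hm hb (fun x => θ * (l * exp x))
      (fun x => Real.log m + θ * (l * exp x)) hE1 (Filter.Eventually.of_forall fun x => le_rfl)
    filter_upwards [h1, Filter.eventually_gt_atTop 0] with X h2 h3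
    rw [exp_log (by positivity), exp_add, exp_log hm0, mul_div_cancel₀ _ hl0.ne'] at h2
    exact h2
  have hE3 : ∀ᶠ X in Filter.atTop, H l m b X ≤ exp (X / 4) := by
    have h1 := HLaux_step hl hm hb (fun X => m * exp (θ * X)) (fun x => l / 4 * exp (1 * x)) hE2
      (HLaux_ev (by positivity) one_pos hθ1)
    filter_upwards [h1, Filter.eventually_gt_atTop 0] with X h2 h3
    rw [one_mul, exp_log (by positivity)] at h2
    have h4 : l / 4 * (X / l) = X / 4 := by field_simp
    rw [h4] at h2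
    exact h2
  have hE4 : ∀ᶠ X in Filter.atTop, H l m b X ≤ exp (√X) := by
    have h1 := HLaux_step hl hm hb (fun X => exp (X / 4)) (fun x => √(l * exp x)) hE3 (by
      have h2 := HLaux_ev (A := Real.log m) (B := 1) (C := √l) (α := 1 / 4) (β := 1 / 2)
        (by positivity) (by norm_num) (by norm_num)
      filter_upwards [h2] with x hx
      have h3 : √(l * exp x) = √l * exp (1 / 2 * x) := by
        rw [Real.sqrt_mul hl0.le]
        congr 1
        rw [show exp x = exp (1 / 2 * x) ^ 2 by rw [← exp_nat_mul]; congr 1; push_cast; ring]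
        exact Real.sqrt_sq (exp_pos _).le
      rw [h3]
      have h4 : (1:ℝ) * exp (1 / 4 * x) = exp (x / 4) := by rw [one_mul]; congr 1; ring
      rw [h4] at hx
      exact hx)
    filter_upwards [h1, Filter.eventually_gt_atTop 0] with X h2 h3
    rw [exp_log (by positivity), mul_div_cancel₀ _ hl0.ne'] at h2
    exact h2
  exact Filter.eventually_atTop.1 hE4

end JHle

end Pool.Agent.Helper115.EXR
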