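import Mathlib

set_option autoImplicit false

namespace Pool.Agent.Helper115.EXR

open Real

/-- the real exponential map -/
noncomputable def e (l x : ℝ) : ℝ := l * Real.exp x

/-- the orbit of 0 -/
noncomputable def o (l : ℝ) (k : ℕ) : ℝ := (e l)^[k] 0

/-- conjugating extension to `[0,∞)` of a function `b` on `[0,l]` -/
noncomputable def H (l m : ℝ) (b : ℝ → ℝ) (X : ℝ) : ℝ := by
  classical exact
  if h : ∃ p : ℕ × ℝ, 0 ≤ p.2 ∧ p.2 ≤ l ∧ (e l)^[p.1] p.2 = X then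
    (e m)^[(Classical.choose h).1] (b (Classical.choose h).2) else 0

/-- admissible functions -/
structure Adm (l m : ℝ) (b : ℝ → ℝ) : Prop where
  zero : b 0 = 0
  top : b l = m
  mono : ∀ s t, 0 ≤ s → s ≤ t → t ≤ l → b s ≤ b t

noncomputable def th (Q : ℝ) : ℝ := √(Q ^ 2 - π ^ 2)
noncomputable def wh (Z : ℝ) : ℝ := √(Z ^ 2 + π ^ 2)
noncomputable def ep (l : ℝ) (k : ℕ) : ℝ := l * exp (-(th (o l k)))
noncomputable def s1 (l : ℝ) (k : ℕ) : ℝ := l * exp (-(o l k))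
noncomputable def s2 (l : ℝ) (k : ℕ) : ℝ := l * exp (-(ep l k))

/-- the prescribed middle part -/
noncomputable def bmid (l m c : ℝ) (k : ℕ) (s : ℝ) : ℝ :=
  if s ≤ c then s1 m k + (c - s1 m k) / (c - s1 l k) * (s - s1 l k)
  else c + (s2 m k - c) / (s2 l k - c) * (s - c)

noncomputable def eta (l m : ℝ) (b : ℝ → ℝ) (Y : ℝ) : ℝ :=
  m * exp (-(th (H l m b (wh (log (l / Y))))))

/-- the operator whose fixed point is wanted -/
noncomputable def S (l m c : ℝ) (k : ℕ) (b : ℝ → ℝ) (s : ℝ) : ℝ :=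
  if s ≤ 0 then 0
  else if s < s1 l k then m * exp (-(H l m b (log (l / s))))
  else if s ≤ s2 l k then bmid l m c k s
  else if s < l then m * exp (-(eta l m b (log (l / s))))
  else m

/-- constraints on the parameters -/
structure Par (l m c : ℝ) (k : ℕ) : Prop where
  hl : Real.exp (-1) < l
  hlm : l < m
  hc : 0 < c
  hcl : c ≤ l / 2
  hcm : l * exp c ≤ m
  ol : π + 2 ≤ o l k
  om : π + 2 ≤ o m k
  s1l : s1 l k < c
  s1m : s1 m k < c
  s2l : c < s2 l k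
  epl : ep l k ≤ c
  epm : ep m k ≤ c

structure Rel (l m : ℝ) (G : ℝ → ℝ → Prop) : Prop where
  nn : ∀ x v, G x v → 0 ≤ x ∧ 0 ≤ v
  zero : G 0 0
  zz : ∀ v, G 0 v → v = 0
  step : ∀ x v, G x v → G (e l x) (e m v)
  rep : ∀ (j : ℕ) x v, G x v → o l j ≤ x → ∃ s u, G s u ∧ (e l)^[j] s = x ∧ (e m)^[j] u = v
  mono : ∀ x v x' v', G x v → G x' v' → x < x' → v ≤ v'
  grow : ∃ C : ℝ, ∀ x v, G x v → 3 * Real.log (1 + x) - C ≤ v

/-- modulus of continuity at scale `N` with constant `C` -/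
def Md (l : ℝ) (G : ℝ → ℝ → Prop) (C N : ℝ) : Prop :=
  ∀ s u s' u', G s u → G s' u' → s ≤ s' → s' ≤ l → s' - s ≤ exp (-N) → u' - u ≤ C / (1 + N) ^ 3

structure Sys (l m : ℝ) (k : ℕ) (G : ℝ → ℝ → Prop) : Prop extends Rel l m G where
  g1 : G (s1 l k) (s1 m k)
  g2 : G (s2 l k) (s2 m k)
  gt : G l m
  top : ∀ u, G l u → u = m
  ub : ∀ s u, G s u → s ≤ l → u ≤ m
  low : ∀ s u, G s u → 0 < s → s ≤ s1 l k →
    ∃ x v, G x v ∧ o l k ≤ x ∧ s = l * exp (-x) ∧ u = m * exp (-v)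
  up : ∀ s u, G s u → s2 l k ≤ s → s < l →
    ∃ x v, G x v ∧ o l k ≤ x ∧ o m k ≤ v ∧ s = l * exp (-(l * exp (-(th x)))) ∧
      u = m * exp (-(m * exp (-(th v))))
  mid : ∃ L : ℝ, 0 < L ∧ ∀ s u s' u', G s u → G s' u' → s1 l k ≤ s → s ≤ s' → s' ≤ s2 l k →
    u' - u ≤ L * (s' - s)

def Gr (l m : ℝ) (b : ℝ → ℝ) (x v : ℝ) : Prop := 0 ≤ x ∧ v = H l m b x

noncomputable def hh (l m : ℝ) (b : ℝ → ℝ) (x : ℝ) : ℝ :=
  if 0 ≤ x then H l m b x else Real.log (b (l * exp x) / m)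

noncomputable def bb (l m : ℝ) (b : ℝ → ℝ) (x : ℝ) : ℝ :=
  Real.log (-(hh l m b (-(l * exp x))) / m)

/-- constant-family version of `Good` -/
structure GoodC (l m R : ℝ) (h β : ℝ → ℝ) : Prop where
  hR : 10 ≤ R
  mono : StrictMono h
  cont : Continuous h
  zero : h 0 = 0
  pos : ∀ x, h (l * Real.exp x) = m * Real.exp (h x)
  neg : ∀ x, h (-(l * Real.exp x)) = -(m * Real.exp (β x))
  right : ∀ x, R ≤ x → β x = h x
  left : ∀ x, x ≤ -R → β x < 0 ∧
    (β x) ^ 2 + Real.pi ^ 2 = (h (Real.sqrt (x ^ 2 + Real.pi ^ 2))) ^ 2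
  grow : ∀ x, R ≤ x → (Real.log x) ^ 2 ≤ h x
  inc : ∀ x d, R ≤ x → |d| ≤ Real.exp (-Real.exp (x / 2)) → |h (x + d) - h x| ≤ 1

theorem e_pos {l : ℝ} (hl : 0 < l) (x : ℝ) : 0 < e l x := by
  unfold e; positivity

theorem e_strictMono {l : ℝ} (hl : 0 < l) : StrictMono (e l) := by
  intro x y hxy
  unfold e
  exact mul_lt_mul_of_pos_left (Real.exp_lt_exp.2 hxy) hl

theorem e_cont (l : ℝ) : Continuous (e l) := by
  unfold e; fun_prop

theorem dlt_pos {l : ℝ} (hl : Real.exp (-1) < l) : 0 < 1 + Real.log l := by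
  have h1 := Real.log_lt_log (Real.exp_pos _) hl
  rw [Real.log_exp] at h1
  linarith

theorem l_pos {l : ℝ} (hl : Real.exp (-1) < l) : 0 < l := lt_trans (Real.exp_pos _) hl

theorem e_gt {l : ℝ} (hl : 0 < l) (x : ℝ) : x + (1 + Real.log l) ≤ e l x := by
  have h1 : e l x = Real.exp (x + Real.log l) := by
    unfold e
    rw [Real.exp_add, Real.exp_log hl, mul_comm]
  rw [h1]
  have := Real.add_one_le_exp (x + Real.log l)
  linarith

theorem eit_strictMono {l : ℝ} (hl : 0 < l) (n : ℕ) : StrictMono ((e l)^[n]) :=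
  (e_strictMono hl).iterate n

theorem eit_cont (l : ℝ) (n : ℕ) : Continuous ((e l)^[n]) := (e_cont l).iterate n

theorem o_succ (l : ℝ) (k : ℕ) : o l (k + 1) = e l (o l k) := by
  unfold o
  rw [Function.iterate_succ_apply']

theorem o_strictMono {l : ℝ} (hl : Real.exp (-1) < l) : StrictMono (o l) := by
  apply strictMono_nat_of_lt_succ
  intro n
  rw [o_succ]
  have h1 := e_gt (l_pos hl) (o l n)
  have h2 := dlt_pos hl
  linarith

theorem eit_ge {l : ℝ} (hl : Real.exp (-1) < l) (x : ℝ) (n : ℕ) :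
    x + n * (1 + Real.log l) ≤ (e l)^[n] x := by
  induction n with
  | zero => simp
  | succ n ih =>
    rw [Function.iterate_succ_apply']
    have h1 := e_gt (l_pos hl) ((e l)^[n] x)
    push_cast
    linarith

theorem eit_tendsto {l : ℝ} (hl : Real.exp (-1) < l) (x : ℝ) :
    Filter.Tendsto (fun n => (e l)^[n] x) Filter.atTop Filter.atTop := by
  apply Filter.tendsto_atTop_mono (eit_ge hl x)
  apply Filter.tendsto_atTop_add_const_left
  exact Filter.Tendsto.atTop_mul_const (dlt_pos hl) tendsto_natCast_atTop_atTop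

theorem o_tendsto {l : ℝ} (hl : Real.exp (-1) < l) :
    Filter.Tendsto (o l) Filter.atTop Filter.atTop := eit_tendsto hl 0

theorem eit_range {l : ℝ} (hl : 0 < l) (n : ℕ) (x : ℝ) (h : (e l)^[n] (-1) ≤ x) :
    ∃ y, -1 ≤ y ∧ (e l)^[n] y = x := by
  induction n generalizing x with
  | zero => exact ⟨x, h, rfl⟩
  | succ n ih =>
    rw [Function.iterate_succ_apply'] at h
    have hx : 0 < x := lt_of_lt_of_le (e_pos hl _) h
    have hz : e l (Real.log (x / l)) = x := by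
      unfold e
      rw [Real.exp_log (by positivity)]
      field_simp
    have h1 : (e l)^[n] (-1) ≤ Real.log (x / l) := by
      rw [← (e_strictMono hl).le_iff_le, hz]
      exact h
    obtain ⟨y, hy, hy'⟩ := ih _ h1
    exact ⟨y, hy, by rw [Function.iterate_succ_apply', hy', hz]⟩

end Pool.Agent.Helper115.EXR
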