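import Pool.Agent.Helper115.EXR.B

set_option autoImplicit false

namespace Pool.Agent.Helper115.EXR

open Real

section JMdext

/-- modulus across the point `l` -/
theorem Md_ext {l m : ℝ} (hl : Real.exp (-1) < l) (hm : Real.exp (-1) < m) {G : ℝ → ℝ → Prop}
    (hG : Rel l m G) {C N : ℝ} (hC : 0 ≤ C) (hN : 1 ≤ N) (hM : Md l G C N) :
    ∀ s u s' u', G s u → G s' u' → s ≤ l → s ≤ s' → s' - s ≤ min 1 l * exp (-N) →
      u' - u ≤ (1 + m * exp m) * (C / (1 + N) ^ 3) := by
  intro s u s' u' h1 h2 hsl hss hd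
  have hl0 := l_pos hl
  have hm0 := l_pos hm
  have hexp1 : exp (-N) ≤ exp (-1) := exp_le_exp.mpr (by linarith)
  have hN0 : 0 ≤ C / (1 + N) ^ 3 := div_nonneg hC (by positivity)
  have hme : 0 ≤ m * exp m := by positivity
  have hmin1 : min 1 l * exp (-N) ≤ exp (-N) := by
    have := min_le_left 1 l
    have := exp_pos (-N)
    nlinarith
  have hs0 := (hG.nn s u h1).1
  rcases le_or_gt s' l with h | h
  · have := hM s u s' u' h1 h2 hss h (hd.trans hmin1)
    nlinarith
  · have hGlm : G l m := by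
      have := hG.step 0 0 hG.zero
      simpa [e] using this
    have hA : m - u ≤ C / (1 + N) ^ 3 := hM s u l m h1 hGlm hsl le_rfl (by linarith)
    obtain ⟨t, w, hG1, ht, hw⟩ := hG.rep 1 s' u' h2 (by rw [o_one]; exact h.le)
    rw [Function.iterate_one] at ht hw
    obtain ⟨ht0, hw0⟩ := hG.nn t w hG1
    have ht1 : t ≤ exp (-N) := by
      have h3 : l * (t + 1) ≤ s' := by
        rw [← ht]
        unfold e
        exact mul_le_mul_of_nonneg_left (add_one_le_exp t) hl0.le
      have h4 : min 1 l * exp (-N) ≤ l * exp (-N) := mul_le_mul_of_nonneg_right (min_le_right _ _) (exp_pos _).le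
      have h5 : l * t ≤ l * exp (-N) := by linarith
      exact le_of_mul_le_mul_left h5 hl0
    have htl : t < l := by linarith
    have hB : w - 0 ≤ C / (1 + N) ^ 3 := hM 0 0 t w hG.zero hG1 ht0 htl.le (by linarith)
    have hwm : w ≤ m := hG.mono t w l m hG1 hGlm htl
    have h6 : u' - m ≤ m * exp m * w := by
      rw [← hw]
      unfold e
      have h7 : exp w - 1 ≤ w * exp w := by
        have h8 := add_one_le_exp (-w)
        have h9 : exp (-w) * exp w = 1 := by rw [← exp_add]; simp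
        have h10 := exp_pos w
        nlinarith
      have h11 : exp w ≤ exp m := exp_le_exp.mpr hwm
      have h12 : w * exp w ≤ w * exp m := mul_le_mul_of_nonneg_left h11 hw0
      have h13 : m * (exp w - 1) ≤ m * (w * exp m) := mul_le_mul_of_nonneg_left (h7.trans h12) hm0.le
      linarith
    have h14 : m * exp m * w ≤ m * exp m * (C / (1 + N) ^ 3) := mul_le_mul_of_nonneg_left (by linarith) hme
    linarith

end JMdext

section JKabs

theorem Kabs {l m : ℝ} (hl : Real.exp (-1) < l) (hm : Real.exp (-1) < m) : ∃ A : ℝ, 1 ≤ A ∧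
    ∀ (G : ℝ → ℝ → Prop), Rel l m G → ∀ k : ℕ, ∀ C1 : ℝ, 0 ≤ C1 → ∃ C0 N0 : ℝ, 1 ≤ C0 ∧ 1 ≤ N0 ∧
    ∀ C N : ℝ, C0 ≤ C → N0 ≤ N → Md l G C (N / 2) → ∀ x v, G x v → o l k ≤ x →
      (exp (-x) ≤ exp (-N + C1) → exp (-v) ≤ A * exp (-(o m k) / 2) * (C / (1 + N) ^ 3)) ∧
      ∀ x' v', G x' v' → x ≤ x' → exp (-x) - exp (-x') ≤ exp (-N + C1) →
        exp (-v) - exp (-v') ≤ A * exp (-(o m k) / 2) * (C / (1 + N) ^ 3) := by
  have hl0 : 0 < l := l_pos hl
  have hm0 : 0 < m := l_pos hm
  obtain ⟨CE, hCE1, hCE⟩ := expL hm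
  obtain ⟨cL, hcL0, hcL1, hcL⟩ := lipL hl
  have hM0 : 0 < 1 + m * exp m := by positivity
  refine ⟨64 + 8 * CE * (1 + m * exp m), ?_, ?_⟩
  · have : 0 ≤ 8 * CE * (1 + m * exp m) := by positivity
    linarith
  intro G hG k C1 hC1
  obtain ⟨CG, hCG⟩ := hG.grow
  set μ : ℝ := cL * min 1 l / 2 with hμ
  have hμ0 : 0 < μ := by
    have : 0 < min 1 l := lt_min one_pos hl0
    positivity
  refine ⟨exp CG * exp (o m k / 2) + 1, max (2 * C1 + 2) (4 * (C1 - log μ)), ?_, ?_, ?_⟩
  · have : 0 < exp CG * exp (o m k / 2) := by positivity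
    linarith
  · exact le_trans (by linarith) (le_max_left _ _)
  intro C N hC hN hMd x v hxv hx
  have hN1 : 2 * C1 + 2 ≤ N := (le_max_left _ _).trans hN
  have hN2 : 4 * (C1 - log μ) ≤ N := (le_max_right _ _).trans hN
  have hN0 : 0 < 1 + N := by linarith
  have hC0 : 0 < C := lt_of_lt_of_le (by positivity) hC
  have hx0 : 0 ≤ x := (hG.nn x v hxv).1
  have hq : 0 < C / (1 + N) ^ 3 := by positivity
  have hE : 0 < exp (-(o m k) / 2) := exp_pos _
  have hcase : N / 4 ≤ x → exp (-v) ≤ (64 + 8 * CE * (1 + m * exp m)) * exp (-(o m k) / 2) * (C / (1 + N) ^ 3) := by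
    intro h
    have h1 := hCG x v hxv
    have hx1 : 0 < 1 + x := by linarith
    have h2 : exp (-v) ≤ exp CG * ((1 + x) ^ 3)⁻¹ := by
      have h3 : exp (-v) ≤ exp (CG - 3 * log (1 + x)) := exp_le_exp.2 (by linarith)
      refine h3.trans (le_of_eq ?_)
      rw [exp_sub, div_eq_mul_inv]
      congr 2
      have h3' : 3 * log (1 + x) = log ((1 + x) ^ 3) := by rw [Real.log_pow]; norm_num
      rw [h3', exp_log (by positivity)]
    have h4 : ((1 + x) ^ 3)⁻¹ ≤ 64 / (1 + N) ^ 3 := by
      rw [inv_eq_one_div, div_le_div_iff₀ (by positivity) (by positivity), one_mul]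
      have h5 : 1 + N ≤ 4 * (1 + x) := by linarith
      calc (1 + N) ^ 3 ≤ (4 * (1 + x)) ^ 3 := pow_le_pow_left₀ hN0.le h5 3
        _ = 64 * (1 + x) ^ 3 := by ring
    have h6 : exp CG ≤ exp (-(o m k) / 2) * C := by
      have h7 : exp CG * exp (o m k / 2) ≤ C := by linarith
      calc exp CG = exp (-(o m k) / 2) * (exp CG * exp (o m k / 2)) := by
            rw [mul_comm (exp CG), ← mul_assoc, ← exp_add]
            have : -(o m k) / 2 + o m k / 2 = 0 := by ring
            rw [this, exp_zero, one_mul]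
        _ ≤ exp (-(o m k) / 2) * C := mul_le_mul_of_nonneg_left h7 hE.le
    calc exp (-v) ≤ exp CG * ((1 + x) ^ 3)⁻¹ := h2
      _ ≤ exp CG * (64 / (1 + N) ^ 3) := mul_le_mul_of_nonneg_left h4 (exp_pos _).le
      _ ≤ (exp (-(o m k) / 2) * C) * (64 / (1 + N) ^ 3) :=
          mul_le_mul_of_nonneg_right h6 (by positivity)
      _ = 64 * exp (-(o m k) / 2) * (C / (1 + N) ^ 3) := by ring
      _ ≤ (64 + 8 * CE * (1 + m * exp m)) * exp (-(o m k) / 2) * (C / (1 + N) ^ 3) := by
          refine mul_le_mul_of_nonneg_right (mul_le_mul_of_nonneg_right ?_ hE.le) hq.le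
          have : 0 ≤ 8 * CE * (1 + m * exp m) := by positivity
          linarith
  constructor
  · intro h
    apply hcase
    have := exp_le_exp.1 h
    linarith
  intro x' v' hxv' hxx' hexp
  rcases le_or_gt (N / 4) x with hxN | hxN
  · have := exp_pos (-v')
    linarith [hcase hxN]
  set ε := exp (-(3 * N / 4) + C1) with hε
  have hε0 : 0 < ε := exp_pos _
  have hε1 : ε ≤ 1 / 2 := by
    have h1 : ε ≤ exp (-1) := exp_le_exp.2 (by linarith)
    have h2 : exp (-1 : ℝ) ≤ 1 / 2 := by
      rw [exp_neg, inv_eq_one_div]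
      apply one_div_le_one_div_of_le two_pos
      have := Real.add_one_le_exp (1 : ℝ)
      linarith
    exact h1.trans h2
  have hd : x' - x ≤ 2 * ε := by
    have h1 : 1 - exp (-(x' - x)) ≤ ε := by
      have h2 : exp (-x) * (1 - exp (-(x' - x))) ≤ exp (-N + C1) := by
        have : exp (-x) * (1 - exp (-(x' - x))) = exp (-x) - exp (-x') := by
          rw [mul_sub, mul_one, ← exp_add]
          congr 2; ring
        rw [this]; exact hexp
      have h3 : 1 - exp (-(x' - x)) = exp x * (exp (-x) * (1 - exp (-(x' - x)))) := by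
        rw [← mul_assoc, ← exp_add, add_neg_cancel, exp_zero, one_mul]
      rw [h3]
      calc exp x * (exp (-x) * (1 - exp (-(x' - x)))) ≤ exp x * exp (-N + C1) :=
            mul_le_mul_of_nonneg_left h2 (exp_pos _).le
        _ = exp (x + (-N + C1)) := (exp_add _ _).symm
        _ ≤ ε := exp_le_exp.2 (by linarith)
    have hd0 : 0 ≤ x' - x := by linarith
    have h4 : exp (-(x' - x)) * (1 + (x' - x)) ≤ 1 := by
      have h5 := Real.add_one_le_exp (x' - x)
      calc exp (-(x' - x)) * (1 + (x' - x)) ≤ exp (-(x' - x)) * exp (x' - x) :=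
            mul_le_mul_of_nonneg_left (by linarith) (exp_pos _).le
        _ = 1 := by rw [← exp_add, neg_add_cancel, exp_zero]
    have h6 : (1 - ε) * (1 + (x' - x)) ≤ 1 := by
      refine le_trans ?_ h4
      exact mul_le_mul_of_nonneg_right (by linarith) (by linarith)
    nlinarith
  obtain ⟨j, s, hkj, hs0, hsl, hsx⟩ := rep hl k x hx
  have hojx : o l j ≤ x := by
    rw [← hsx]
    exact (eit_strictMono hl0 j).monotone hs0
  obtain ⟨s₁, u, hsu, hs₁, hu⟩ := hG.rep j x v hxv hojx
  obtain ⟨s', u', hsu', hs', hu'⟩ := hG.rep j x' v' hxv' (hojx.trans hxx')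
  have hss : s₁ = s := (eit_strictMono hl0 j).injective (hs₁.trans hsx.symm)
  subst hss
  have hss' : s₁ ≤ s' := by
    rw [← (eit_strictMono hl0 j).le_iff_le, hs₁, hs']
    exact hxx'
  have hlip := hcL j s₁ s' hs0 hss'
  rw [hs₁, hs'] at hlip
  have hds : s' - s₁ ≤ min 1 l * exp (-(N / 2)) := by
    have h1 : cL * (s' - s₁) ≤ 2 * ε := hlip.trans hd
    have h2 : 2 * ε ≤ cL * (min 1 l * exp (-(N / 2))) := by
      have h3 : ε ≤ μ * exp (-(N / 2)) := by
        rw [hε]
        calc exp (-(3 * N / 4) + C1) ≤ exp (log μ + -(N / 2)) := exp_le_exp.2 (by linarith)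
          _ = μ * exp (-(N / 2)) := by rw [exp_add, exp_log hμ0]
      calc 2 * ε ≤ 2 * (μ * exp (-(N / 2))) := by linarith
        _ = cL * (min 1 l * exp (-(N / 2))) := by rw [hμ]; ring
    exact le_of_mul_le_mul_left (h1.trans h2) hcL0
  have hext := Md_ext hl hm hG hC0.le (by linarith : 1 ≤ N / 2) hMd s₁ u s' u' hsu hsu' hsl.le hss' hds
  have hN2' : C / (1 + N / 2) ^ 3 ≤ 8 * (C / (1 + N) ^ 3) := by
    have h1 : (1 + N) ^ 3 ≤ 8 * (1 + N / 2) ^ 3 := by
      calc (1 + N) ^ 3 ≤ (2 * (1 + N / 2)) ^ 3 := pow_le_pow_left₀ hN0.le (by linarith) 3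
        _ = 8 * (1 + N / 2) ^ 3 := by ring
    have h2 : 0 < (1 + N / 2) ^ 3 := by
      have : 0 < 1 + N / 2 := by linarith
      positivity
    rw [div_le_iff₀ h2]
    have h3 : 8 * (C / (1 + N) ^ 3) * (1 + N / 2) ^ 3 = (C / (1 + N) ^ 3) * (8 * (1 + N / 2) ^ 3) := by ring
    rw [h3]
    calc C = C / (1 + N) ^ 3 * (1 + N) ^ 3 := by
          rw [div_mul_cancel₀ _ (by positivity)]
      _ ≤ C / (1 + N) ^ 3 * (8 * (1 + N / 2) ^ 3) := mul_le_mul_of_nonneg_left h1 hq.le
  have hRHS : 0 ≤ (64 + 8 * CE * (1 + m * exp m)) * exp (-(o m k) / 2) * (C / (1 + N) ^ 3) := by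
    positivity
  rcases lt_or_ge u' u with huu | huu
  · have h1 : v' ≤ v := by
      rw [← hu, ← hu']
      exact (eit_strictMono hm0 j).monotone huu.le
    have h2 : exp (-v) ≤ exp (-v') := exp_le_exp.2 (by linarith)
    linarith
  have hu0 : 0 ≤ u := (hG.nn _ _ hsu).2
  have h1 := hCE j u u' hu0 huu
  rw [hu, hu'] at h1
  have hv : o m k ≤ v := by
    have h2 : o m k ≤ o m j := (o_strictMono hm).monotone hkj
    have h3 : o m j ≤ v := by
      rw [← hu]
      exact (eit_strictMono hm0 j).monotone hu0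
    exact h2.trans h3
  have hv' : exp (-v / 2) ≤ exp (-(o m k) / 2) := exp_le_exp.2 (by linarith)
  have hu'' : u' - u ≤ 8 * (1 + m * exp m) * (C / (1 + N) ^ 3) := by
    refine hext.trans ?_
    calc (1 + m * exp m) * (C / (1 + N / 2) ^ 3) ≤ (1 + m * exp m) * (8 * (C / (1 + N) ^ 3)) :=
          mul_le_mul_of_nonneg_left hN2' hM0.le
      _ = _ := by ring
  calc exp (-v) - exp (-v') ≤ CE * exp (-v / 2) * (u' - u) := h1
    _ ≤ CE * exp (-(o m k) / 2) * (8 * (1 + m * exp m) * (C / (1 + N) ^ 3)) := by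
        refine mul_le_mul (mul_le_mul_of_nonneg_left hv' (by linarith)) hu'' (by linarith) (by positivity)
    _ = (8 * CE * (1 + m * exp m)) * exp (-(o m k) / 2) * (C / (1 + N) ^ 3) := by ring
    _ ≤ _ := by
        refine mul_le_mul_of_nonneg_right (mul_le_mul_of_nonneg_right ?_ hE.le) hq.le
        linarith

end JKabs

section JMod

theorem Mod_arith_low {l m : ℝ} (hl0 : 0 < l) (hm0 : 0 < m) {G : ℝ → ℝ → Prop} {k : ℕ}
    (hS : Sys l m k G) {C1 N E : ℝ} (hC1 : |Real.log l| ≤ C1) (hE : 0 ≤ E)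
    (hK : ∀ x v, G x v → o l k ≤ x →
      (exp (-x) ≤ exp (-N + C1) → exp (-v) ≤ E) ∧
      ∀ x' v', G x' v' → x ≤ x' → exp (-x) - exp (-x') ≤ exp (-N + C1) →
        exp (-v) - exp (-v') ≤ E)
    (s u s' u' : ℝ) (h : G s u) (h' : G s' u') (hss : s ≤ s') (hs1 : s' ≤ s1 l k)
    (hN : s' - s ≤ exp (-N)) : u' - u ≤ m * E := by
  have hs0 : 0 ≤ s := (hS.nn s u h).1
  have hdiv : ∀ t : ℝ, t ≤ exp (-N) → t / l ≤ exp (-N + C1) := by
    intro t ht
    have h1 : 1 / l ≤ exp C1 := by
      have : 1 / l = exp (-Real.log l) := by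
        rw [Real.exp_neg, Real.exp_log hl0, one_div]
      rw [this]
      exact exp_le_exp.2 (le_trans (neg_le_abs _) hC1)
    rw [Real.exp_add]
    calc t / l = t * (1 / l) := by ring
      _ ≤ exp (-N) * (1 / l) := by
          exact mul_le_mul_of_nonneg_right ht (by positivity)
      _ ≤ exp (-N) * exp C1 := by
          exact mul_le_mul_of_nonneg_left h1 (exp_pos _).le
  rcases eq_or_lt_of_le (hs0.trans hss) with h0 | h0
  · have e1 : s = 0 := le_antisymm (hss.trans h0.symm.le) hs0
    have e2 : u = 0 := hS.zz u (e1 ▸ h)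
    have e3 : u' = 0 := hS.zz u' (by rw [← h0] at h'; exact h')
    rw [e2, e3]
    have : 0 ≤ m * E := by positivity
    linarith
  · obtain ⟨x', v', hG', hx', hs', hu'⟩ := hS.low s' u' h' h0 hs1
    rcases eq_or_lt_of_le hs0 with h2 | h2
    · have e2 : u = 0 := hS.zz u (by rw [← h2] at h; exact h)
      have h3 : exp (-x') ≤ exp (-N + C1) := by
        have : exp (-x') = (s' - s) / l := by
          rw [← h2, hs']; field_simp; ring
        rw [this]
        exact hdiv _ hN
      have h4 := (hK x' v' hG' hx').1 h3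
      rw [e2, hu']
      have := mul_le_mul_of_nonneg_left h4 hm0.le
      linarith
    · obtain ⟨x, v, hG, hx, hs, hu⟩ := hS.low s u h h2 (hss.trans hs1)
      have hxx : x' ≤ x := by
        have h5 : l * exp (-x) ≤ l * exp (-x') := by rw [← hs, ← hs']; exact hss
        have h6 := le_of_mul_le_mul_left h5 hl0
        have h7 := exp_le_exp.1 h6
        linarith
      have h3 : exp (-x') - exp (-x) ≤ exp (-N + C1) := by
        have : exp (-x') - exp (-x) = (s' - s) / l := by
          rw [hs, hs']; field_simp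
        rw [this]
        exact hdiv _ hN
      have h4 := (hK x' v' hG' hx').2 x v hG hxx h3
      rw [hu, hu']
      have := mul_le_mul_of_nonneg_left h4 hm0.le
      linarith

theorem th_le_imp {x y : ℝ} (hx : π ≤ x) (hy : π ≤ y) (h : th x ≤ th y) : x ≤ y := by
  have h0 : 0 ≤ th x := Real.sqrt_nonneg _
  have := wh_mono h0 h
  rwa [wh_th hx, wh_th hy] at this

theorem exp_neg_sub_le {a b : ℝ} (ha0 : 0 ≤ a) (hab : a ≤ b) : exp (-a) - exp (-b) ≤ b - a := by
  have h12 : exp (-b) = exp (-a) * exp (-(b - a)) := by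
    rw [← Real.exp_add]; congr 1; ring
  have h13 := Real.add_one_le_exp (-(b - a))
  have h14 : exp (-a) ≤ 1 := by
    rw [Real.exp_le_one_iff]; linarith
  have h15 : 0 < exp (-a) := exp_pos _
  have h16 : exp (-a) * (1 - exp (-(b - a))) ≤ 1 * (b - a) := by
    apply mul_le_mul h14 (by linarith) _ (by norm_num)
    have : exp (-(b - a)) ≤ 1 := by rw [Real.exp_le_one_iff]; linarith
    linarith
  rw [h12]
  linarith

theorem Mod_arith_up {l m : ℝ} (hl0 : 0 < l) (hm0 : 0 < m) {G : ℝ → ℝ → Prop} {k : ℕ}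
    (hS : Sys l m k G) (hol : π + 2 ≤ o l k)
    {C1 N E : ℝ} (hC1 : |Real.log (l * s2 l k)| ≤ C1) (hE : 0 ≤ E)
    (hK : ∀ x v, G x v → o l k ≤ x →
      (exp (-x) ≤ exp (-N + C1) → exp (-v) ≤ E) ∧
      ∀ x' v', G x' v' → x ≤ x' → exp (-x) - exp (-x') ≤ exp (-N + C1) →
        exp (-v) - exp (-v') ≤ E) (hom : π + 2 ≤ o m k)
    (s u s' u' : ℝ) (h : G s u) (h' : G s' u') (hss : s ≤ s') (hs2 : s2 l k ≤ s) (hsl : s' ≤ l)
    (hN : s' - s ≤ exp (-N)) : u' - u ≤ 2 * m ^ 2 * exp π * E := by
  have hs20 : 0 < s2 l k := mul_pos hl0 (exp_pos _)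
  have hs0 : 0 < s := lt_of_lt_of_le hs20 hs2
  have hRnn : 0 ≤ 2 * m ^ 2 * exp π * E := by positivity
  have hdiv : ∀ t : ℝ, t ≤ exp (-N) → t / s / l ≤ exp (-N + C1) := by
    intro t ht
    have h1 : 1 / (l * s2 l k) ≤ exp C1 := by
      have : 1 / (l * s2 l k) = exp (-Real.log (l * s2 l k)) := by
        rw [Real.exp_neg, Real.exp_log (mul_pos hl0 hs20), one_div]
      rw [this]
      exact exp_le_exp.2 (le_trans (neg_le_abs _) hC1)
    have h2 : 1 / (l * s) ≤ 1 / (l * s2 l k) :=
      one_div_le_one_div_of_le (mul_pos hl0 hs20) (mul_le_mul_of_nonneg_left hs2 hl0.le)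
    rw [Real.exp_add]
    calc t / s / l = t * (1 / (l * s)) := by field_simp
      _ ≤ exp (-N) * (1 / (l * s)) := by
          exact mul_le_mul_of_nonneg_right ht (by positivity)
      _ ≤ exp (-N) * exp C1 := by
          exact mul_le_mul_of_nonneg_left (h2.trans h1) (exp_pos _).le
  rcases eq_or_lt_of_le (hss.trans hsl) with h1 | h1
  · have e1 : s' = l := le_antisymm hsl (h1 ▸ hss)
    have e2 : u' = m := hS.top u' (e1 ▸ h')
    have e3 : u = m := hS.top u (h1 ▸ h)
    rw [e2, e3]; linarith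
  · obtain ⟨x, v, hG, hx, hv, hs, hu⟩ := hS.up s u h hs2 h1
    have hxp : π ≤ x := by linarith
    have hvp : π ≤ v := by linarith
    have hY : l * exp (-(th x)) = Real.log l - Real.log s := by
      rw [hs, Real.log_mul hl0.ne' (exp_pos _).ne', Real.log_exp]; ring
    rcases eq_or_lt_of_le hsl with h2 | h2
    · have e2 : u' = m := hS.top u' (h2 ▸ h')
      have h3 : Real.log l - Real.log s ≤ (s' - s) / s := by
        rw [← Real.log_div hl0.ne' hs0.ne', h2]
        have := Real.log_le_sub_one_of_pos (div_pos hl0 hs0)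
        have e : (l - s) / s = l / s - 1 := by field_simp
        rw [e]; exact this
      have h4 : exp (-x) ≤ exp (-N + C1) := by
        have h5 : exp (-x) ≤ exp (-(th x)) := exp_le_exp.2 (by
          have := (th_bounds hxp).2
          linarith)
        have h6 : exp (-(th x)) ≤ (s' - s) / s / l := by
          rw [le_div_iff₀ hl0]
          rw [mul_comm, hY]; exact h3
        exact h5.trans (h6.trans (hdiv _ hN))
      have h7 := (hK x v hG hx).1 h4
      have h8 : 1 - m * exp (-(th v)) ≤ exp (-(m * exp (-(th v)))) := by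
        have := Real.add_one_le_exp (-(m * exp (-(th v))))
        linarith
      have h9 : exp (-(th v)) ≤ exp π * exp (-v) := by
        rw [← Real.exp_add]
        exact exp_le_exp.2 (by
          have := (th_bounds hvp).1
          linarith)
      have h10 : exp (-(th v)) ≤ exp π * E :=
        h9.trans (mul_le_mul_of_nonneg_left h7 (exp_pos _).le)
      rw [e2, hu]
      have h11 : m * (1 - m * exp (-(th v))) ≤ m * exp (-(m * exp (-(th v)))) :=
        mul_le_mul_of_nonneg_left h8 hm0.le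
      have h12 : m ^ 2 * exp (-(th v)) ≤ m ^ 2 * (exp π * E) :=
        mul_le_mul_of_nonneg_left h10 (by positivity)
      have h13 : 0 ≤ m ^ 2 * (exp π * E) := by positivity
      have h14 : m * (1 - m * exp (-(th v))) = m - m ^ 2 * exp (-(th v)) := by ring
      have h15 : 2 * m ^ 2 * exp π * E = 2 * (m ^ 2 * (exp π * E)) := by ring
      rw [h15]
      rw [h14] at h11
      linarith
    · obtain ⟨x', v', hG', hx', hv', hs', hu'⟩ := hS.up s' u' h' (hs2.trans hss) h2
      have hxp' : π ≤ x' := by linarith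
      have hvp' : π ≤ v' := by linarith
      have hs0' : 0 < s' := lt_of_lt_of_le hs0 hss
      have hY' : l * exp (-(th x')) = Real.log l - Real.log s' := by
        rw [hs', Real.log_mul hl0.ne' (exp_pos _).ne', Real.log_exp]; ring
      have hlog : Real.log s ≤ Real.log s' := Real.log_le_log hs0 hss
      have hth : th x ≤ th x' := by
        have h5 : l * exp (-(th x')) ≤ l * exp (-(th x)) := by rw [hY, hY']; linarith
        have h6 := le_of_mul_le_mul_left h5 hl0
        have h7 := exp_le_exp.1 h6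
        linarith
      have hxx : x ≤ x' := th_le_imp hxp hxp' hth
      have h3 : Real.log s' - Real.log s ≤ (s' - s) / s := by
        rw [← Real.log_div hs0'.ne' hs0.ne']
        have := Real.log_le_sub_one_of_pos (div_pos hs0' hs0)
        have e : (s' - s) / s = s' / s - 1 := by field_simp
        rw [e]; exact this
      have h4 : exp (-x) - exp (-x') ≤ exp (-N + C1) := by
        have h5 := th_lower (by linarith : π + 1 ≤ x) hxx
        have h6 : exp (-(th x)) - exp (-(th x')) ≤ (s' - s) / s / l := by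
          rw [le_div_iff₀ hl0]
          have : (exp (-(th x)) - exp (-(th x'))) * l = l * exp (-(th x)) - l * exp (-(th x')) := by
            ring
          rw [this, hY, hY']; linarith
        exact h5.trans (h6.trans (hdiv _ hN))
      have h7 := (hK x v hG hx).2 x' v' hG' hxx h4
      rcases le_total v v' with hvv | hvv
      · have h8 := th_upper (by linarith : π + 1 ≤ v) hvv
        have h9 : exp (-(th v)) - exp (-(th v')) ≤ 2 * exp π * E :=
          h8.trans (mul_le_mul_of_nonneg_left h7 (by positivity))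
        have h10 : exp (-(th v')) ≤ exp (-(th v)) := exp_le_exp.2 (by
          have := th_mono hvp hvv
          linarith)
        have hab : m * exp (-(th v')) ≤ m * exp (-(th v)) := mul_le_mul_of_nonneg_left h10 hm0.le
        have ha0 : 0 ≤ m * exp (-(th v')) := by positivity
        have h11 := exp_neg_sub_le ha0 hab
        have h16 : m * exp (-(th v)) - m * exp (-(th v')) ≤ m * (2 * exp π * E) := by
          have := mul_le_mul_of_nonneg_left h9 hm0.le
          rw [mul_sub] at this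
          exact this
        have h17 := mul_le_mul_of_nonneg_left (h11.trans h16) hm0.le
        rw [hu, hu', ← mul_sub]
        calc _ ≤ m * (m * (2 * exp π * E)) := h17
          _ = 2 * m ^ 2 * exp π * E := by ring
      · have h8 := th_mono hvp' hvv
        have h9 : exp (-(th v)) ≤ exp (-(th v')) := exp_le_exp.2 (by linarith)
        have h10 : u' ≤ u := by
          rw [hu, hu']
          apply mul_le_mul_of_nonneg_left _ hm0.le
          apply exp_le_exp.2
          have := mul_le_mul_of_nonneg_left h9 hm0.le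
          linarith
        linarith

theorem Mod {l m : ℝ} (hl : Real.exp (-1) < l) (hm : Real.exp (-1) < m) : ∃ A : ℝ, 1 ≤ A ∧
    ∀ (k : ℕ) (G : ℝ → ℝ → Prop), Sys l m k G → A * exp (-(o m k) / 2) ≤ 1 →
    π + 2 ≤ o l k → π + 2 ≤ o m k → s1 l k < s2 l k → ∃ C : ℝ, 0 < C ∧ ∀ N : ℝ, 0 ≤ N → Md l G C N := by
  obtain ⟨A', hA', hKabs⟩ := Kabs hl hm
  have hl0 : 0 < l := l_pos hl
  have hm0 : 0 < m := l_pos hm
  refine ⟨4 * (m + 2 * m ^ 2 * exp π) * A' + 1, ?_, ?_⟩
  · have : 0 ≤ 4 * (m + 2 * m ^ 2 * exp π) * A' := by positivity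
    linarith
  intro k G hS hAq hol hom h12
  have hA'0 : 0 < A' := by linarith
  obtain ⟨L, hL0, hL⟩ := hS.mid
  obtain ⟨C0, N0, hC0, hN0, hK⟩ := hKabs G hS.toRel k (|Real.log l| + |Real.log (l * s2 l k)|)
    (by positivity)
  set q := exp (-(o m k) / 2) with hq
  have hq0 : 0 < q := exp_pos _
  set C := C0 + m * (1 + N0) ^ 3 + 24 * exp 1 * L with hC
  have hCpos : 0 < C := by positivity
  have hC0' : C0 ≤ C := by
    have : 0 ≤ m * (1 + N0) ^ 3 + 24 * exp 1 * L := by positivity
    rw [hC]; linarith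
  refine ⟨C, hCpos, ?_⟩
  have hbase : ∀ N : ℝ, 0 ≤ N → N ≤ N0 → Md l G C N := by
    intro N hN hNN s u s' u' h h' hss hsl hd
    have h1 := hS.ub s' u' h' hsl
    have h2 := (hS.nn s u h).2
    have h3 : m ≤ C / (1 + N) ^ 3 := by
      rw [le_div_iff₀ (by positivity)]
      have h4 : (1 + N) ^ 3 ≤ (1 + N0) ^ 3 := pow_le_pow_left₀ (by linarith) (by linarith) 3
      have h5 := mul_le_mul_of_nonneg_left h4 hm0.le
      have : 0 ≤ C0 + 24 * exp 1 * L := by positivity
      rw [hC]; linarith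
    linarith
  have hstep : ∀ N : ℝ, N0 ≤ N → Md l G C (N / 2) → Md l G C N := by
    intro N hNN hM
    have hN1 : 1 ≤ N := hN0.trans hNN
    set D := C / (1 + N) ^ 3 with hD
    have hD0 : 0 < D := by positivity
    have hK' := hK C N hC0' hNN hM
    set E := A' * q * D with hE
    have hE0 : 0 ≤ E := by positivity
    have hE1 : (m + 2 * m ^ 2 * exp π) * E ≤ D / 4 := by
      have h1 : 4 * (m + 2 * m ^ 2 * exp π) * A' * q ≤ 1 := by
        have : (4 * (m + 2 * m ^ 2 * exp π) * A' + 1) * q = 4 * (m + 2 * m ^ 2 * exp π) * A' * q + q := by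
          ring
        rw [this] at hAq
        linarith
      have h2 := mul_le_mul_of_nonneg_right h1 hD0.le
      have : 4 * (m + 2 * m ^ 2 * exp π) * A' * q * D = 4 * ((m + 2 * m ^ 2 * exp π) * E) := by
        rw [hE]; ring
      linarith
    have hElow : m * E ≤ D / 4 := by
      have : 0 ≤ 2 * m ^ 2 * exp π * E := by positivity
      linarith
    have hEup : 2 * m ^ 2 * exp π * E ≤ D / 4 := by
      have : 0 ≤ m * E := by positivity
      linarith
    have hmid : L * exp (-N) ≤ D / 4 := by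
      have h1 : (1 + N) ^ 3 ≤ 6 * exp (1 + N) := by
        have := Real.pow_div_factorial_le_exp (1 + N) (by linarith) 3
        have e : ((Nat.factorial 3 : ℕ) : ℝ) = 6 := by norm_num [Nat.factorial]
        rw [e] at this
        linarith
      have h2 : (1 + N) ^ 3 * exp (-N) ≤ 6 * exp 1 := by
        have h3 := mul_le_mul_of_nonneg_right h1 (exp_pos (-N)).le
        have : 6 * exp (1 + N) * exp (-N) = 6 * exp 1 := by
          rw [mul_assoc, ← Real.exp_add]; ring_nf
        linarith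
      rw [hD, div_div, le_div_iff₀ (by positivity)]
      have h4 := mul_le_mul_of_nonneg_left h2 (by positivity : 0 ≤ 4 * L)
      have h5 : 0 ≤ C0 + m * (1 + N0) ^ 3 := by positivity
      rw [hC]
      nlinarith [h4, h5]
    intro s u s' u' h h' hss hsl hd
    have lowp : ∀ s u s' u' : ℝ, G s u → G s' u' → s ≤ s' → s' ≤ s1 l k → s' - s ≤ exp (-N) →
        u' - u ≤ D / 4 := by
      intro s u s' u' h h' hss hs1 hd
      refine le_trans (Mod_arith_low hl0 hm0 hS (C1 := |Real.log l| + |Real.log (l * s2 l k)|)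
        (N := N) (E := E) (by have := abs_nonneg (Real.log (l * s2 l k)); linarith) hE0 hK' s u s' u' h h' hss hs1 hd) hElow
    have upp : ∀ s u s' u' : ℝ, G s u → G s' u' → s ≤ s' → s2 l k ≤ s → s' ≤ l →
        s' - s ≤ exp (-N) → u' - u ≤ D / 4 := by
      intro s u s' u' h h' hss hs2 hsl hd
      refine le_trans (Mod_arith_up hl0 hm0 hS hol (C1 := |Real.log l| + |Real.log (l * s2 l k)|)
        (N := N) (E := E) (by have := abs_nonneg (Real.log l); linarith) hE0 hK' hom s u s' u' h h' hss hs2 hsl hd) hEup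
    have midp : ∀ s u s' u' : ℝ, G s u → G s' u' → s1 l k ≤ s → s ≤ s' → s' ≤ s2 l k →
        s' - s ≤ exp (-N) → u' - u ≤ D / 4 := by
      intro s u s' u' h h' hs1 hss hs2 hd
      have h1 := hL s u s' u' h h' hs1 hss hs2
      have h2 := mul_le_mul_of_nonneg_left hd hL0.le
      linarith
    have hg1 := hS.g1
    have hg2 := hS.g2
    rcases le_total s' (s1 l k) with a1 | a1
    · have := lowp s u s' u' h h' hss a1 hd
      linarith
    rcases le_total (s2 l k) s with a2 | a2
    · have := upp s u s' u' h h' hss a2 hsl hd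
      linarith
    rcases le_total s (s1 l k) with a3 | a3
    · have b1 := lowp s u _ _ h hg1 a3 le_rfl (by linarith)
      rcases le_total s' (s2 l k) with a4 | a4
      · have b2 := midp _ _ s' u' hg1 h' le_rfl a1 a4 (by linarith)
        linarith
      · have b2 := midp _ _ _ _ hg1 hg2 le_rfl h12.le le_rfl (by linarith)
        have b3 := upp _ _ s' u' hg2 h' a4 le_rfl hsl (by linarith)
        linarith
    · rcases le_total s' (s2 l k) with a4 | a4
      · have b2 := midp s u s' u' h h' a3 hss a4 hd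
        linarith
      · have b2 := midp s u _ _ h hg2 a3 a2 le_rfl (by linarith)
        have b3 := upp _ _ s' u' hg2 h' a4 le_rfl hsl (by linarith)
        linarith
  have hall : ∀ n : ℕ, ∀ N : ℝ, 0 ≤ N → N ≤ 2 ^ n * N0 → Md l G C N := by
    intro n
    induction n with
    | zero =>
      intro N hN hNN
      exact hbase N hN (by simpa using hNN)
    | succ n ih =>
      intro N hN hNN
      rcases le_total N N0 with h1 | h1
      · exact hbase N hN h1
      · refine hstep N h1 (ih (N / 2) (by linarith) ?_)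
        rw [pow_succ] at hNN
        linarith
  intro N hN
  obtain ⟨n, hn⟩ := pow_unbounded_of_one_lt (N / N0) (by norm_num : (1 : ℝ) < 2)
  refine hall n N hN ?_
  rw [div_lt_iff₀ (by linarith)] at hn
  exact hn.le

end JMod

section Jincabs

/-- increments of `G` far out -/
theorem inc_abs {l m : ℝ} (hl : Real.exp (-1) < l) (hm : Real.exp (-1) < m) {G : ℝ → ℝ → Prop}
    (hG : Rel l m G) {C : ℝ} (hC : 0 < C) (hM : ∀ N : ℝ, 0 ≤ N → Md l G C N)
    {Y : ℝ} (hY : ∀ x v, G x v → Y ≤ x → v ≤ exp (√x)) :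
    ∃ R : ℝ, ∀ x v x' v', G x v → G x' v' → R ≤ x → x ≤ x' → x' - x ≤ exp (-(exp (x / 2))) →
      v' - v ≤ 1 := by
  have hl0 : 0 < l := l_pos hl
  have hm0 : 0 < m := l_pos hm
  obtain ⟨cL, hcL0, hcL1, hcL⟩ := lipL hl
  obtain ⟨CU, hCU1, hCU⟩ := lipU hm
  have hmin : 0 < min 1 l := lt_min one_pos hl0
  obtain ⟨κ, hκ⟩ : ∃ κ : ℝ, κ = cL * min 1 l := ⟨_, rfl⟩
  have hκ0 : 0 < κ := by rw [hκ]; positivity
  obtain ⟨K1, hK1⟩ : ∃ K1 : ℝ, K1 = CU * (1 + m * exp m) * C := ⟨_, rfl⟩
  have hK10 : 0 < K1 := by rw [hK1]; positivity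
  refine ⟨max (max Y 4) (max (4 / κ) (32 * K1 * exp (5 / 2))), ?_⟩
  intro x v x' v' hx hx' hR hxx hd
  have hxY : Y ≤ x := ((le_max_left _ _).trans (le_max_left _ _)).trans hR
  have hx4 : 4 ≤ x := ((le_max_right _ _).trans (le_max_left _ _)).trans hR
  have hxκ : 4 / κ ≤ x := ((le_max_left _ _).trans (le_max_right _ _)).trans hR
  have hxK : 32 * K1 * exp (5 / 2) ≤ x := ((le_max_right _ _).trans (le_max_right _ _)).trans hR
  by_cases hvv : v' ≤ v
  · linarith
  push Not at hvv
  -- representation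
  have ho0 : o l 0 ≤ x := by
    show (e l)^[0] 0 ≤ x
    simp only [Function.iterate_zero, id_eq]
    linarith
  obtain ⟨j, s0, -, hs00, hs0l, hs0x⟩ := rep hl 0 x ho0
  have hoj : o l j ≤ x := by
    rw [← hs0x]
    exact (eit_strictMono hl0 j).monotone hs00
  obtain ⟨s, u, hsu, hsx, huv⟩ := hG.rep j x v hx hoj
  obtain ⟨s', u', hsu', hsx', huv'⟩ := hG.rep j x' v' hx' (hoj.trans hxx)
  have hss0 : s = s0 := (eit_strictMono hl0 j).injective (hsx.trans hs0x.symm)
  have hsl : s ≤ l := by rw [hss0]; exact hs0l.le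
  have hss' : s ≤ s' := by
    rw [← (eit_strictMono hl0 j).le_iff_le, hsx, hsx']
    exact hxx
  have huu' : u ≤ u' := by
    by_contra hcon
    push Not at hcon
    have := (eit_strictMono hm0 j).monotone hcon.le
    rw [huv, huv'] at this
    linarith
  have hs0 : 0 ≤ s := (hG.nn s u hsu).1
  have hu0 : 0 ≤ u := (hG.nn s u hsu).2
  have hv'0 : 0 ≤ v' := (hG.nn x' v' hx').2
  -- the scale
  obtain ⟨N, hN⟩ : ∃ N : ℝ, N = exp (x / 2) / 2 := ⟨_, rfl⟩
  have hNx : x / 4 ≤ N := by
    have := Real.add_one_le_exp (x / 2)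
    rw [hN]
    linarith
  have hN1 : 1 ≤ N := by linarith
  have hexpN : exp (-N) ≤ κ := by
    have h1 : 1 / κ ≤ N := by
      have : 1 / κ = (4 / κ) / 4 := by ring
      rw [this]
      linarith
    have h2 : N + 1 ≤ exp N := Real.add_one_le_exp N
    rw [Real.exp_neg, inv_le_comm₀ (exp_pos _) hκ0, ← one_div]
    linarith
  have hscale : s' - s ≤ min 1 l * exp (-N) := by
    have h1 := hcL j s s' hs0 hss'
    rw [hsx, hsx'] at h1
    have h2 : exp (-(exp (x / 2))) = exp (-N) * exp (-N) := by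
      rw [← Real.exp_add]
      congr 1
      rw [hN]
      ring
    have h3 : cL * (s' - s) ≤ cL * (min 1 l * exp (-N)) := by
      calc cL * (s' - s) ≤ exp (-N) * exp (-N) := by rw [← h2]; exact h1.trans hd
        _ ≤ κ * exp (-N) := by gcongr
        _ = _ := by rw [hκ]; ring
    exact le_of_mul_le_mul_left h3 hcL0
  have hmd := Md_ext hl hm hG hC.le hN1 (hM N (by linarith)) s u s' u' hsu hsu' hsl hss' hscale
  have hU := hCU j u u' hu0 huu'
  rw [huv, huv'] at hU
  have hx'1 : x' ≤ x + 1 := by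
    have : exp (-(exp (x / 2))) ≤ 1 := by
      rw [Real.exp_le_one_iff]
      have := exp_pos (x / 2)
      linarith
    linarith
  have hv'b : v' ≤ exp (√(x + 1)) := by
    refine (hY x' v' hx' (hxY.trans hxx)).trans ?_
    apply Real.exp_le_exp.2
    exact Real.sqrt_le_sqrt hx'1
  have hsq : 2 * √(x + 1) ≤ x / 2 + 5 / 2 := by
    have h1 : 0 ≤ x + 1 := by linarith
    have h2 := Real.sq_sqrt h1
    nlinarith [sq_nonneg (√(x + 1) - 2)]
  have h1v : (1 + v') ^ 2 ≤ 4 * exp (x / 2 + 5 / 2) := by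
    have h1 : 1 ≤ exp (√(x + 1)) := Real.one_le_exp (Real.sqrt_nonneg _)
    have h2 : 1 + v' ≤ 2 * exp (√(x + 1)) := by linarith
    calc (1 + v') ^ 2 ≤ (2 * exp (√(x + 1))) ^ 2 := by gcongr
      _ = 4 * (exp (√(x + 1)) * exp (√(x + 1))) := by ring
      _ = 4 * exp (2 * √(x + 1)) := by
          rw [← Real.exp_add]
          congr 2
          ring
      _ ≤ 4 * exp (x / 2 + 5 / 2) := by
          gcongr
  have hN3 : exp (3 * x / 2) / 8 ≤ (1 + N) ^ 3 := by
    have h1 : exp (3 * x / 2) / 8 = N ^ 3 := by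
      rw [hN, div_pow, ← Real.exp_nat_mul]
      norm_num
      ring_nf
    rw [h1]
    have : 0 ≤ N := by linarith
    gcongr
    linarith
  have hfinal : CU * (1 + v') ^ 2 * (u' - u) ≤ 1 := by
    have h8 : 0 < exp (3 * x / 2) / 8 := by positivity
    calc CU * (1 + v') ^ 2 * (u' - u) ≤ CU * (1 + v') ^ 2 * ((1 + m * exp m) * (C / (1 + N) ^ 3)) := by
          gcongr
      _ ≤ CU * (4 * exp (x / 2 + 5 / 2)) * ((1 + m * exp m) * (C / (exp (3 * x / 2) / 8))) := by
          gcongr
      _ = 32 * K1 * (exp (x / 2 + 5 / 2) / exp (3 * x / 2)) := by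
          rw [hK1]
          field_simp
          ring
      _ = 32 * K1 * exp (5 / 2) * exp (-x) := by
          rw [← Real.exp_sub, mul_assoc (32 * K1), ← Real.exp_add]
          congr 2
          ring
      _ ≤ x * exp (-x) := by gcongr
      _ ≤ 1 := by
          rw [Real.exp_neg, ← div_eq_mul_inv, div_le_one (exp_pos _)]
          have := Real.add_one_le_exp x
          linarith
  linarith

end Jincabs

end Pool.Agent.Helper115.EXR
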