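import Pool.Agent.Helper115.EXR.D
import Pool.Agent.Helper115.EXR.E

set_option autoImplicit false

namespace Pool.Agent.Helper115.EXR

open Real

section Jfixb

theorem J77_bmid_mono {l m c : ℝ} {k : ℕ} (P : Par l m c k) {s t : ℝ} (h : s ≤ t) :
    bmid l m c k s ≤ bmid l m c k t := by
  obtain ⟨L, hL, hLip⟩ := bmid_lip P
  have h1 := (hLip s t h).2
  have h2 : 0 ≤ L * (bmid l m c k t - bmid l m c k s) := le_trans (by linarith) h1
  have h3 := nonneg_of_mul_nonneg_right h2 hL
  linarith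

theorem J77_mpos {l m c : ℝ} {k : ℕ} (P : Par l m c k) : 0 < m :=
  (l_pos P.hl).trans P.hlm

theorem fix_pos {l m c : ℝ} {k : ℕ} (P : Par l m c k) {b : ℝ → ℝ} (hb : Adm l m b)
    (hS : ∀ s, 0 ≤ s → s ≤ l → S l m c k b s = b s) (s : ℝ) (h0 : 0 < s) (h1 : s ≤ l) :
    0 < b s := by
  have hm := J77_mpos P
  rw [← hS s h0.le h1]
  unfold S
  rw [if_neg (not_le.2 h0)]
  split_ifs with h2 h3 h4
  · positivity
  · have h5 := J77_bmid_mono P (not_lt.1 h2)
    rw [bmid_s1 P] at h5
    have h6 : 0 < s1 m k := by unfold s1; positivity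
    linarith
  · positivity
  · exact hm

theorem fix_lt {l m c : ℝ} {k : ℕ} (P : Par l m c k) {b : ℝ → ℝ} (hb : Adm l m b)
    (hS : ∀ s, 0 ≤ s → s ≤ l → S l m c k b s = b s) (s : ℝ) (h0 : 0 ≤ s) (h1 : s < l) :
    b s < m := by
  have hm := J77_mpos P
  have hl0 := l_pos P.hl
  have hmm : Real.exp (-1) < m := P.hl.trans P.hlm
  have hexp : ∀ x : ℝ, 0 < x → m * exp (-x) < m := by
    intro x hx
    have h2 : exp (-x) < 1 := by rw [exp_lt_one_iff]; linarith
    nlinarith
  rw [← hS s h0 h1.le]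
  unfold S
  split_ifs with h2 h3 h4
  · exact hm
  · apply hexp
    have hs0 : 0 < s := not_le.1 h2
    have hpi := Real.pi_pos
    have h5 : o l k ≤ Real.log (l / s) := by
      rw [Real.le_log_iff_exp_le (by positivity), le_div_iff₀ hs0]
      unfold s1 at h3
      have h6 : exp (o l k) * s ≤ exp (o l k) * (l * exp (-(o l k))) :=
        mul_le_mul_of_nonneg_left h3.le (exp_pos _).le
      have h7 : exp (o l k) * (l * exp (-(o l k))) = l := by
        rw [exp_neg]; field_simp
      linarith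
    have h6 := H_mono P.hl hmm hb (o l k) (Real.log (l / s)) (by linarith [P.ol]) h5
    rw [H_o P.hl hmm hb k] at h6
    linarith [P.om]
  · have h5 := J77_bmid_mono P h4
    rw [bmid_s2 P] at h5
    exact lt_of_le_of_lt h5 (s2_lt P).2
  · apply hexp
    unfold eta
    positivity

end Jfixb

section Jsysfwd

theorem sys_fwd {l m c : ℝ} {k : ℕ} (P : Par l m c k) {b : ℝ → ℝ} (hb : Adm l m b)
    (hS : ∀ s, 0 ≤ s → s ≤ l → S l m c k b s = b s) : Sys l m k (Gr l m b) := by
  have hl := P.hl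
  have hm : Real.exp (-1) < m := P.hl.trans P.hlm
  have l0 := l_pos hl
  have m0 := l_pos hm
  have hπ := Real.pi_pos
  have hol : 0 < o l k := by have := P.ol; linarith
  have hs1pos : 0 < s1 l k := mul_pos l0 (exp_pos _)
  have hs1s2 : s1 l k < s2 l k := P.s1l.trans P.s2l
  have hs2l : s2 l k < l := (s2_lt P).1
  have hs2pos : 0 < s2 l k := hs1pos.trans hs1s2
  have hs1l : s1 l k < l := hs1s2.trans hs2l
  have hlow : ∀ s, 0 ≤ s → s ≤ l → H l m b s = b s := fun s h0 h1 => H_low hl hm hb s h0 h1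
  have hbmid : ∀ s, s1 l k ≤ s → s ≤ s2 l k → b s = bmid l m c k s := by
    intro s h1 h2
    have h0 : 0 < s := hs1pos.trans_le h1
    rw [← hS s h0.le (h2.trans hs2l.le)]
    unfold S
    rw [if_neg (not_le.2 h0), if_neg (not_lt.2 h1), if_pos h2]
  have hb1 : b (s1 l k) = s1 m k := by rw [hbmid _ le_rfl hs1s2.le, bmid_s1 P]
  have hb2 : b (s2 l k) = s2 m k := by rw [hbmid _ hs1s2.le le_rfl, bmid_s2 P]
  have hb0 : H l m b 0 = 0 := by rw [hlow 0 le_rfl l0.le, hb.zero]
  have hbl : H l m b l = m := by rw [hlow l l0.le le_rfl, hb.top]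
  refine { nn := ?_, zero := ?_, zz := ?_, step := ?_, rep := ?_, mono := ?_, grow := ?_,
           g1 := ?_, g2 := ?_, gt := ?_, top := ?_, ub := ?_, low := ?_, up := ?_, mid := ?_ }
  · rintro x v ⟨hx, rfl⟩
    exact ⟨hx, H_nonneg hl hm hb x hx⟩
  · exact ⟨le_rfl, hb0.symm⟩
  · rintro v ⟨_, rfl⟩
    exact hb0
  · rintro x v ⟨hx, rfl⟩
    refine ⟨(e_pos l0 x).le, ?_⟩
    have := H_iter hl hm hb 1 x hx
    simp only [Function.iterate_one] at this
    exact this.symm
  · rintro j x v ⟨hx, rfl⟩ ho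
    obtain ⟨s, hs0, hs⟩ := rep_fix hl j x ho
    refine ⟨s, H l m b s, ⟨hs0, rfl⟩, hs, ?_⟩
    rw [← H_iter hl hm hb j s hs0, hs]
  · rintro x v x' v' ⟨hx, rfl⟩ ⟨hx', rfl⟩ hxx
    exact H_mono hl hm hb x x' hx hxx.le
  · refine ⟨3 * l + 3 * Real.log 3, ?_⟩
    rintro x v ⟨hx, rfl⟩
    have hl3 : 0 ≤ Real.log 3 := Real.log_nonneg (by norm_num)
    rcases le_total l x with h | h
    · have h1 := H_ge P hb hS x h
      have h2 : Real.log (1 + x) ≤ (1 + x) / 3 - 1 + Real.log 3 := by
        have h3 := Real.log_le_sub_one_of_pos (show 0 < (1 + x) / 3 by positivity)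
        rw [Real.log_div (by positivity) (by norm_num)] at h3
        linarith
      linarith
    · have h1 := H_nonneg hl hm hb x hx
      have h2 : Real.log (1 + x) ≤ x := by
        have h3 := Real.log_le_sub_one_of_pos (show 0 < 1 + x by positivity)
        linarith
      linarith
  · exact ⟨hs1pos.le, by rw [hlow _ hs1pos.le hs1l.le, hb1]⟩
  · exact ⟨hs2pos.le, by rw [hlow _ hs2pos.le hs2l.le, hb2]⟩
  · exact ⟨l0.le, hbl.symm⟩
  · rintro u ⟨_, rfl⟩
    exact hbl
  · rintro s u ⟨h0, rfl⟩ h1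
    rw [hlow s h0 h1]
    exact hb.le s h0 h1
  · rintro s u ⟨_, rfl⟩ h0 h1
    have hsl : s ≤ l := h1.trans hs1l.le
    have hx : exp (-Real.log (l / s)) = s / l := by
      rw [Real.exp_neg, Real.exp_log (by positivity), inv_div]
    refine ⟨Real.log (l / s), H l m b (Real.log (l / s)), ⟨?_, rfl⟩, ?_, ?_, ?_⟩
    · exact Real.log_nonneg (by rw [le_div_iff₀ h0]; linarith)
    · rw [Real.le_log_iff_exp_le (by positivity), le_div_iff₀ h0]
      have : s * exp (o l k) ≤ l * exp (-(o l k)) * exp (o l k) :=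
        mul_le_mul_of_nonneg_right h1 (exp_pos _).le
      rw [mul_assoc, ← Real.exp_add, neg_add_cancel, Real.exp_zero, mul_one] at this
      linarith
    · rw [hx]; field_simp
    · rw [hlow s h0.le hsl]
      rcases lt_or_eq_of_le h1 with h | h
      · rw [← hS s h0.le hsl]
        unfold S
        rw [if_neg (not_le.2 h0), if_pos h]
      · have h4 : Real.log (l / s) = o l k := by
          rw [h]
          unfold s1
          rw [Real.log_div l0.ne' (by positivity), Real.log_mul l0.ne' (exp_pos _).ne', Real.log_exp]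
          ring
        rw [h4, H_o hl hm hb k, h, hb1]
        rfl
  · rintro s u ⟨_, rfl⟩ h2 hsl
    have h0 : 0 < s := hs2pos.trans_le h2
    have hls : 1 < l / s := by rw [lt_div_iff₀ h0]; linarith
    set Y := Real.log (l / s) with hY
    have hY0 : 0 < Y := Real.log_pos hls
    have hx : exp (-Y) = s / l := by
      rw [hY, Real.exp_neg, Real.exp_log (by positivity), inv_div]
    have hep : 0 < ep l k := mul_pos l0 (exp_pos _)
    have hYep : Y ≤ ep l k := by
      rw [hY, Real.log_le_iff_le_exp (by positivity), div_le_iff₀ h0]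
      have : exp (ep l k) * (l * exp (-(ep l k))) ≤ exp (ep l k) * s :=
        mul_le_mul_of_nonneg_left h2 (exp_pos _).le
      have h5 : exp (ep l k) * (l * exp (-(ep l k))) = l := by
        rw [mul_left_comm, ← Real.exp_add, add_neg_cancel, Real.exp_zero, mul_one]
      linarith
    have hlogep : Real.log (l / ep l k) = th (o l k) := by
      unfold ep
      rw [Real.log_div l0.ne' (by positivity), Real.log_mul l0.ne' (exp_pos _).ne', Real.log_exp]
      ring
    have hth0 : 0 ≤ th (o l k) := Real.sqrt_nonneg _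
    have hZ : th (o l k) ≤ Real.log (l / Y) := by
      rw [← hlogep]
      apply Real.log_le_log (by positivity)
      exact div_le_div_of_nonneg_left l0.le hY0 hYep
    have hπo : π ≤ o l k := by have := P.ol; linarith
    have hxo : o l k ≤ wh (Real.log (l / Y)) := by
      have := wh_mono hth0 hZ
      rwa [wh_th hπo] at this
    have hx0 : 0 ≤ wh (Real.log (l / Y)) := hol.le.trans hxo
    have hthx : th (wh (Real.log (l / Y))) = Real.log (l / Y) := th_wh (hth0.trans hZ)
    have hexp : exp (-Real.log (l / Y)) = Y / l := by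
      rw [Real.exp_neg, Real.exp_log (by positivity), inv_div]
    refine ⟨wh (Real.log (l / Y)), H l m b (wh (Real.log (l / Y))), ⟨hx0, rfl⟩, hxo, ?_, ?_, ?_⟩
    · have := H_mono hl hm hb _ _ hol.le hxo
      rwa [H_o hl hm hb k] at this
    · rw [hthx, hexp, mul_div_cancel₀ _ l0.ne', hx, mul_div_cancel₀ _ l0.ne']
    · rw [hlow s h0.le hsl.le]
      rcases lt_or_eq_of_le h2 with h | h
      · rw [← hS s h0.le hsl.le]
        unfold S
        rw [if_neg (not_le.2 h0), if_neg (not_lt.2 (hs1s2.le.trans h.le)), if_neg (not_le.2 h),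
          if_pos hsl]
        rfl
      · have h4 : Y = ep l k := by
          rw [hY, ← h]
          unfold s2
          rw [Real.log_div l0.ne' (by positivity), Real.log_mul l0.ne' (exp_pos _).ne', Real.log_exp]
          ring
        rw [h4, hlogep, wh_th hπo, H_o hl hm hb k, ← h, hb2]
        rfl
  · obtain ⟨L, hL, hLip⟩ := bmid_lip P
    refine ⟨L, hL, ?_⟩
    rintro s u s' u' ⟨h0, rfl⟩ ⟨h0', rfl⟩ h1 h2 h3
    rw [hlow s h0 ((h2.trans h3).trans hs2l.le), hlow s' h0' (h3.trans hs2l.le),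
      hbmid s h1 (h2.trans h3), hbmid s' (h1.trans h2) h3]
    exact (hLip s s' h2).1

end Jsysfwd

section Jsysinv

section J5286
variable {l m c : ℝ} {k : ℕ} {b : ℝ → ℝ}

theorem j5286_pos (P : Par l m c k) (hb : Adm l m b)
    (hS : ∀ s, 0 ≤ s → s ≤ l → S l m c k b s = b s) (x : ℝ) (hx : 0 < x) : 0 < H l m b x := by
  rcases le_total x l with h | h
  · rw [H_low P.hl (P.hl.trans P.hlm) hb x hx.le h]
    exact fix_pos P hb hS x hx h
  · exact lt_of_lt_of_le hx (H_ge P hb hS x h)

theorem j5286_elog (hl : 0 < l) {x : ℝ} (hx : 0 < x) : x = e l (Real.log (x / l)) := (e_log hl hx).symm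

theorem j5286_lt_o (P : Par l m c k) (hb : Adm l m b)
    (hS : ∀ s, 0 ≤ s → s ≤ l → S l m c k b s = b s) (j : ℕ) : ∀ x, 0 ≤ x → x < o l j → H l m b x < o m j := by
  have hl0 := l_pos P.hl
  have hm := P.hl.trans P.hlm
  have hm0 := l_pos hm
  induction j with
  | zero =>
    intro x h0 h1
    exact absurd h1 (not_lt.2 h0)
  | succ j ih =>
    intro x h0 h1
    rcases lt_or_ge x l with h | h
    · rw [H_low P.hl hm hb x h0 h.le]
      refine lt_of_lt_of_le (fix_lt P hb hS x h0 h) ?_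
      have h3 : o m 1 ≤ o m (j + 1) := (o_strictMono hm).monotone (by omega)
      rwa [o_one] at h3
    · have hx0 : 0 < x := lt_of_lt_of_le hl0 h
      have ht : 0 ≤ Real.log (x / l) := Real.log_nonneg ((one_le_div hl0).2 h)
      have hxe := j5286_elog hl0 hx0
      rw [hxe, o_succ] at h1
      have h2 := (e_strictMono hl0).lt_iff_lt.1 h1
      have h3 := ih _ ht h2
      have h4 := H_iter P.hl hm hb 1 _ ht
      simp only [Function.iterate_one] at h4
      rw [hxe, h4, o_succ]
      exact e_strictMono hm0 h3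

theorem j5286_gt_o (P : Par l m c k) (hb : Adm l m b)
    (hS : ∀ s, 0 ≤ s → s ≤ l → S l m c k b s = b s) (j : ℕ) (y : ℝ) (hy : o l j < y) : o m j < H l m b y := by
  have hl0 := l_pos P.hl
  have hm := P.hl.trans P.hlm
  have hm0 := l_pos hm
  obtain ⟨t, ht0, ht⟩ := rep_fix P.hl j y hy.le
  have h1 : 0 < t := by
    rcases eq_or_lt_of_le ht0 with h | h
    · exfalso
      rw [← h] at ht
      have : o l j = y := ht
      linarith
    · exact h
  rw [← ht, H_iter P.hl hm hb j t ht0]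
  exact eit_strictMono hm0 j (j5286_pos P hb hS t h1)

theorem j5286_gt_l (P : Par l m c k) (hb : Adm l m b)
    (hS : ∀ s, 0 ≤ s → s ≤ l → S l m c k b s = b s) (y : ℝ) (hy : l < y) : m < H l m b y := by
  have := j5286_gt_o P hb hS 1 y (by rw [o_one]; exact hy)
  rwa [o_one] at this

theorem j5286_zero (P : Par l m c k) (hb : Adm l m b) : H l m b 0 = 0 := by
  rw [H_low P.hl (P.hl.trans P.hlm) hb 0 le_rfl (l_pos P.hl).le, hb.zero]

theorem j5286_Hl (P : Par l m c k) (hb : Adm l m b) : H l m b l = m := by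
  rw [H_low P.hl (P.hl.trans P.hlm) hb l (l_pos P.hl).le le_rfl, hb.top]

theorem j5286_s1pos (P : Par l m c k) : 0 < s1 l k ∧ 0 < s1 m k := by
  have hl0 := l_pos P.hl
  have hm0 := l_pos (P.hl.trans P.hlm)
  unfold s1
  constructor <;> positivity

theorem j5286_b_low (P : Par l m c k) (hS : ∀ s, 0 ≤ s → s ≤ l → S l m c k b s = b s) (u : ℝ)
    (h0 : 0 < u) (h1 : u < s1 l k) : b u = m * exp (-(H l m b (Real.log (l / u)))) := by
  have hul : u ≤ l := by
    have := P.s1l; have := P.s2l; have := (s2_lt P).1; linarith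
  rw [← hS u h0.le hul, S, if_neg (not_le.2 h0), if_pos h1]

theorem j5286_b_mid (P : Par l m c k) (hS : ∀ s, 0 ≤ s → s ≤ l → S l m c k b s = b s) (u : ℝ)
    (h0 : s1 l k ≤ u) (h1 : u ≤ s2 l k) : b u = bmid l m c k u := by
  have hu0 : 0 < u := lt_of_lt_of_le (j5286_s1pos P).1 h0
  have hul : u ≤ l := h1.trans (s2_lt P).1.le
  rw [← hS u hu0.le hul, S, if_neg (not_le.2 hu0), if_neg (not_lt.2 h0), if_pos h1]

theorem j5286_b_up (P : Par l m c k) (hS : ∀ s, 0 ≤ s → s ≤ l → S l m c k b s = b s) (u : ℝ)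
    (h0 : s2 l k < u) (h1 : u < l) : b u = m * exp (-(eta l m b (Real.log (l / u)))) := by
  have h2 : s1 l k < s2 l k := P.s1l.trans P.s2l
  have hu0 : 0 < u := (j5286_s1pos P).1.trans (h2.trans h0)
  rw [← hS u hu0.le h1.le, S, if_neg (not_le.2 hu0), if_neg (not_lt.2 (h2.trans h0).le),
    if_neg (not_le.2 h0), if_pos h1]

theorem j5286_Hs1 (P : Par l m c k) (hb : Adm l m b) (hS : ∀ s, 0 ≤ s → s ≤ l → S l m c k b s = b s) :
    H l m b (s1 l k) = s1 m k := by
  have h2 : s1 l k < s2 l k := P.s1l.trans P.s2l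
  rw [H_low P.hl (P.hl.trans P.hlm) hb _ (j5286_s1pos P).1.le (h2.trans (s2_lt P).1).le,
    j5286_b_mid P hS _ le_rfl h2.le, bmid_s1 P]

theorem j5286_Hs2 (P : Par l m c k) (hb : Adm l m b) (hS : ∀ s, 0 ≤ s → s ≤ l → S l m c k b s = b s) :
    H l m b (s2 l k) = s2 m k := by
  have h2 : s1 l k < s2 l k := P.s1l.trans P.s2l
  rw [H_low P.hl (P.hl.trans P.hlm) hb _ ((j5286_s1pos P).1.trans h2).le (s2_lt P).1.le,
    j5286_b_mid P hS _ h2.le le_rfl, bmid_s2 P]

theorem j5286_Hmid (P : Par l m c k) (hb : Adm l m b) (hS : ∀ s, 0 ≤ s → s ≤ l → S l m c k b s = b s)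
    (u : ℝ) (h0 : s1 l k ≤ u) (h1 : u ≤ s2 l k) : H l m b u = bmid l m c k u := by
  rw [H_low P.hl (P.hl.trans P.hlm) hb _ ((j5286_s1pos P).1.le.trans h0) (h1.trans (s2_lt P).1.le),
    j5286_b_mid P hS _ h0 h1]

theorem j5286_s12m (P : Par l m c k) : s1 m k < s2 m k := by
  have h1 := P.s1m
  have h2 := s2m_ge P
  have h3 := P.s2l
  have h4 := (s2_lt P).1
  linarith

theorem j5286_bmid_strict (P : Par l m c k) {s t : ℝ} (h : s < t) : bmid l m c k s < bmid l m c k t := by
  obtain ⟨L, hL, h1⟩ := bmid_lip P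
  have := (h1 s t h.le).2
  by_contra hcon
  push Not at hcon
  have : L * (bmid l m c k t - bmid l m c k s) ≤ 0 := mul_nonpos_of_nonneg_of_nonpos hL.le (by linarith)
  linarith

/-- logarithm facts below `s1` -/
theorem j5286_log_s1 (P : Par l m c k) (u : ℝ) (h0 : 0 < u) :
    (u < s1 l k → o l k < Real.log (l / u)) ∧ (u ≤ s1 l k → o l k ≤ Real.log (l / u)) := by
  have hl0 := l_pos P.hl
  have e1 : exp (Real.log (l / u)) = l / u := Real.exp_log (by positivity)
  have e2 : s1 l k * exp (o l k) = l := by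
    unfold s1
    rw [mul_assoc, ← Real.exp_add]; simp
  constructor
  · intro h
    rw [← Real.exp_lt_exp, e1, lt_div_iff₀ h0]
    have : u * exp (o l k) < s1 l k * exp (o l k) := mul_lt_mul_of_pos_right h (Real.exp_pos _)
    linarith
  · intro h
    rw [← Real.exp_le_exp, e1, le_div_iff₀ h0]
    have : u * exp (o l k) ≤ s1 l k * exp (o l k) := mul_le_mul_of_nonneg_right h (Real.exp_pos _).le
    linarith

/-- (A) -/
theorem j5286_A (P : Par l m c k) (hb : Adm l m b) (hS : ∀ s, 0 ≤ s → s ≤ l → S l m c k b s = b s)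
    (u : ℝ) (h0 : 0 ≤ u) (h1 : u < s1 l k) : H l m b u < s1 m k := by
  have hm0 := l_pos (P.hl.trans P.hlm)
  rcases eq_or_lt_of_le h0 with h | h
  · rw [← h, j5286_zero P hb]; exact (j5286_s1pos P).2
  · have hul : u ≤ l := by
      have := P.s1l; have := P.s2l; have := (s2_lt P).1; linarith
    rw [H_low P.hl (P.hl.trans P.hlm) hb u h0 hul, j5286_b_low P hS u h h1]
    have h2 := j5286_gt_o P hb hS k _ ((j5286_log_s1 P u h).1 h1)
    unfold s1
    exact mul_lt_mul_of_pos_left (Real.exp_lt_exp.2 (by linarith)) hm0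

/-- (B) -/
theorem j5286_B (P : Par l m c k) (hb : Adm l m b) (hS : ∀ s, 0 ≤ s → s ≤ l → S l m c k b s = b s)
    (u : ℝ) (h1 : s1 l k < u) : s1 m k < H l m b u := by
  rcases le_total u (s2 l k) with h | h
  · rw [j5286_Hmid P hb hS u h1.le h, ← bmid_s1 P]
    exact j5286_bmid_strict P h1
  · have h2 := H_mono P.hl (P.hl.trans P.hlm) hb (s2 l k) u
      ((j5286_s1pos P).1.trans (P.s1l.trans P.s2l)).le h
    rw [j5286_Hs2 P hb hS] at h2
    exact lt_of_lt_of_le (j5286_s12m P) h2

/-- (C) -/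
theorem j5286_C (P : Par l m c k) (hb : Adm l m b) (hS : ∀ s, 0 ≤ s → s ≤ l → S l m c k b s = b s)
    (u : ℝ) (h0 : 0 ≤ u) (h1 : u < s2 l k) : H l m b u < s2 m k := by
  rcases le_total (s1 l k) u with h | h
  · rw [j5286_Hmid P hb hS u h h1.le, ← bmid_s2 P]
    exact j5286_bmid_strict P h1
  · have h2 := H_mono P.hl (P.hl.trans P.hlm) hb u (s1 l k) h0 h
    rw [j5286_Hs1 P hb hS] at h2
    exact lt_of_le_of_lt h2 (j5286_s12m P)

/-- parameters above `s2` -/
theorem j5286_up (P : Par l m c k) (u : ℝ)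
    (h0 : s2 l k < u) (h1 : u < l) : 0 < Real.log (l / u) ∧ u = l * exp (-(Real.log (l / u))) ∧
      Real.log (l / u) < ep l k ∧ th (o l k) < Real.log (l / Real.log (l / u)) ∧
      Real.log (l / u) = l * exp (-(Real.log (l / Real.log (l / u)))) := by
  have hl0 := l_pos P.hl
  have hu0 : 0 < u := ((j5286_s1pos P).1.trans (P.s1l.trans P.s2l)).trans h0
  have hY : 0 < Real.log (l / u) := Real.log_pos ((one_lt_div hu0).2 h1)
  have e1 : exp (Real.log (l / u)) = l / u := Real.exp_log (by positivity)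
  have hYe : Real.log (l / u) < ep l k := by
    rw [← Real.exp_lt_exp, e1, div_lt_iff₀ hu0]
    have e2 : exp (ep l k) * s2 l k = l := by
      unfold s2
      rw [mul_comm, mul_assoc, ← Real.exp_add]; simp
    have : exp (ep l k) * s2 l k < exp (ep l k) * u := mul_lt_mul_of_pos_left h0 (Real.exp_pos _)
    linarith
  have e3 : exp (Real.log (l / Real.log (l / u))) = l / Real.log (l / u) := Real.exp_log (by positivity)
  refine ⟨hY, ?_, hYe, ?_, ?_⟩
  · rw [Real.exp_neg, e1]; field_simp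
  · rw [← Real.exp_lt_exp, e3, lt_div_iff₀ hY]
    have e4 : exp (th (o l k)) * ep l k = l := by
      unfold ep
      rw [mul_comm, mul_assoc, ← Real.exp_add]; simp
    have : exp (th (o l k)) * Real.log (l / u) < exp (th (o l k)) * ep l k :=
      mul_lt_mul_of_pos_left hYe (Real.exp_pos _)
    linarith
  · rw [Real.exp_neg, e3]; field_simp

theorem j5286_up2 (P : Par l m c k) (u : ℝ) (h0 : s2 l k < u) (h1 : u < l) :
    o l k < wh (Real.log (l / Real.log (l / u))) ∧
    th (wh (Real.log (l / Real.log (l / u)))) = Real.log (l / Real.log (l / u)) := by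
  obtain ⟨hY, _, _, h4, _⟩ := j5286_up P u h0 h1
  have hpi : π ≤ o l k := by have := P.ol; linarith
  have hth0 : 0 ≤ th (o l k) := by unfold th; exact Real.sqrt_nonneg _
  have hZ : 0 ≤ Real.log (l / Real.log (l / u)) := hth0.trans h4.le
  have h5 := th_wh hZ
  refine ⟨?_, h5⟩
  have h6 := wh_mono hth0 h4.le
  rw [wh_th hpi] at h6
  rcases eq_or_lt_of_le h6 with h7 | h7
  · exfalso
    rw [← h7] at h5
    linarith
  · exact h7

/-- (D) -/
theorem j5286_D (P : Par l m c k) (hb : Adm l m b) (hS : ∀ s, 0 ≤ s → s ≤ l → S l m c k b s = b s)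
    (u : ℝ) (h1 : s2 l k < u) : s2 m k < H l m b u := by
  have hm0 := l_pos (P.hl.trans P.hlm)
  have hu0 : 0 < u := ((j5286_s1pos P).1.trans (P.s1l.trans P.s2l)).trans h1
  rcases lt_or_ge u l with h | h
  · rw [H_low P.hl (P.hl.trans P.hlm) hb u hu0.le h.le, j5286_b_up P hS u h1 h]
    obtain ⟨h2, h3⟩ := j5286_up2 P u h1 h
    have h4 := j5286_gt_o P hb hS k _ h2
    have hpi : π ≤ o m k := by have := P.om; linarith
    have h5 : th (o m k) < th (H l m b (wh (Real.log (l / Real.log (l / u))))) := by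
      rcases eq_or_lt_of_le (th_mono hpi h4.le) with h6 | h6
      · exfalso
        have h7 := wh_th hpi
        have h8 := wh_th (hpi.trans h4.le)
        rw [h6, h8] at h7
        linarith
      · exact h6
    have h6 : eta l m b (Real.log (l / u)) < ep m k := by
      unfold eta ep
      exact mul_lt_mul_of_pos_left (Real.exp_lt_exp.2 (by linarith)) hm0
    unfold s2
    exact mul_lt_mul_of_pos_left (Real.exp_lt_exp.2 (by linarith)) hm0
  · have h2 := H_mono P.hl (P.hl.trans P.hlm) hb l u (l_pos P.hl).le h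
    rw [j5286_Hl P hb] at h2
    exact lt_of_lt_of_le (s2_lt P).2 h2

theorem j5286_grow (P : Par l m c k) (hb : Adm l m b)
    (hg : ∃ Y : ℝ, ∀ y, Y ≤ y → H l m b y ≤ exp (√y)) :
    ∃ C : ℝ, ∀ x, 0 ≤ x → 3 * Real.log (1 + H l m b x) - C ≤ x := by
  obtain ⟨Y, hY⟩ := hg
  have hm := P.hl.trans P.hlm
  have hn : ∀ x, 0 ≤ x → 0 ≤ H l m b x := H_nonneg P.hl hm hb
  refine ⟨3 * Real.log (1 + H l m b (max Y 0)) + 6, fun x hx => ?_⟩
  have hl1 : 0 ≤ Real.log (1 + H l m b (max Y 0)) :=
    Real.log_nonneg (by have := hn (max Y 0) (le_max_right _ _); linarith)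
  rcases le_total x (max Y 0) with h | h
  · have h1 := H_mono P.hl hm hb x (max Y 0) hx h
    have h2 : Real.log (1 + H l m b x) ≤ Real.log (1 + H l m b (max Y 0)) :=
      Real.log_le_log (by have := hn x hx; linarith) (by linarith)
    linarith
  · have h1 := hY x (le_trans (le_max_left _ _) h)
    have hs : 0 ≤ √x := Real.sqrt_nonneg x
    have h2 : Real.log (1 + H l m b x) ≤ 1 + √x := by
      rw [Real.log_le_iff_le_exp (by have := hn x hx; linarith), Real.exp_add]
      have h3 : 1 ≤ exp (√x) := Real.one_le_exp hs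
      have h4 : 2 ≤ exp (1 : ℝ) := by have := Real.add_one_le_exp (1 : ℝ); linarith
      nlinarith
    have h3 : √x * √x = x := Real.mul_self_sqrt hx
    nlinarith [sq_nonneg (√x - 3 / 2)]

end J5286

theorem sys_inv {l m c : ℝ} {k : ℕ} (P : Par l m c k) {b : ℝ → ℝ} (hb : Adm l m b)
    (hS : ∀ s, 0 ≤ s → s ≤ l → S l m c k b s = b s)
    (hg : ∃ Y : ℝ, ∀ y, Y ≤ y → H l m b y ≤ exp (√y)) : Sys m l k (fun v x => Gr l m b x v) := by
  have hl0 := l_pos P.hl
  have hm := P.hl.trans P.hlm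
  have hm0 := l_pos hm
  have h12 : s1 l k < s2 l k := P.s1l.trans P.s2l
  have hs1 := (j5286_s1pos P).1
  refine ⟨⟨?_, ?_, ?_, ?_, ?_, ?_, ?_⟩, ?_, ?_, ?_, ?_, ?_, ?_, ?_, ?_⟩
  · rintro v x ⟨h0, rfl⟩
    exact ⟨H_nonneg P.hl hm hb x h0, h0⟩
  · exact ⟨le_rfl, (j5286_zero P hb).symm⟩
  · rintro x ⟨h0, h1⟩
    rcases eq_or_lt_of_le h0 with h | h
    · exact h.symm
    · have := j5286_pos P hb hS x h
      linarith
  · rintro v x ⟨h0, rfl⟩
    refine ⟨(e_pos hl0 x).le, ?_⟩
    have h4 := H_iter P.hl hm hb 1 x h0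
    simp only [Function.iterate_one] at h4
    exact h4.symm
  · rintro j v x ⟨h0, rfl⟩ hj
    have h1 : o l j ≤ x := by
      by_contra hcon
      push Not at hcon
      have := j5286_lt_o P hb hS j x h0 hcon
      linarith
    obtain ⟨u, hu0, hu⟩ := rep_fix P.hl j x h1
    refine ⟨H l m b u, u, ⟨hu0, rfl⟩, ?_, hu⟩
    rw [← H_iter P.hl hm hb j u hu0, hu]
  · rintro v x v' x' ⟨h0, rfl⟩ ⟨h0', rfl⟩ hlt
    by_contra hcon
    push Not at hcon
    have := H_mono P.hl hm hb x' x h0' hcon.le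
    linarith
  · obtain ⟨C, hC⟩ := j5286_grow P hb hg
    refine ⟨C, ?_⟩
    rintro v x ⟨h0, rfl⟩
    exact hC x h0
  · exact ⟨hs1.le, (j5286_Hs1 P hb hS).symm⟩
  · exact ⟨(hs1.trans h12).le, (j5286_Hs2 P hb hS).symm⟩
  · exact ⟨hl0.le, (j5286_Hl P hb).symm⟩
  · rintro u ⟨h0, h1⟩
    rcases lt_trichotomy u l with h | h | h
    · exfalso
      rw [H_low P.hl hm hb u h0 h.le] at h1
      have := fix_lt P hb hS u h0 h
      linarith
    · exact h
    · have := j5286_gt_l P hb hS u h
      linarith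
  · rintro s u ⟨h0, rfl⟩ h1
    by_contra hcon
    push Not at hcon
    have := j5286_gt_l P hb hS u hcon
    linarith
  · rintro s u ⟨h0, rfl⟩ h1 h2
    have hu0 : 0 < u := by
      rcases eq_or_lt_of_le h0 with h | h
      · rw [← h, j5286_zero P hb] at h1; exact absurd h1 (lt_irrefl _)
      · exact h
    have hu1 : u ≤ s1 l k := by
      by_contra hcon
      push Not at hcon
      have := j5286_B P hb hS u hcon
      linarith
    have hlog := (j5286_log_s1 P u hu0).2 hu1
    have hol : 0 ≤ o l k := by have := P.ol; have := Real.pi_pos; linarith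
    have e1 : exp (Real.log (l / u)) = l / u := Real.exp_log (by positivity)
    refine ⟨H l m b (Real.log (l / u)), Real.log (l / u), ⟨hol.trans hlog, rfl⟩, ?_, ?_, ?_⟩
    · rw [← H_o P.hl hm hb k]
      exact H_mono P.hl hm hb _ _ hol hlog
    · rcases eq_or_lt_of_le hu1 with h | h
      · have h3 : Real.log (l / u) = o l k := by
          rw [h]; unfold s1
          rw [Real.exp_neg, ← div_eq_mul_inv, div_div_cancel₀ hl0.ne', Real.log_exp]
        rw [h3, H_o P.hl hm hb k, h, j5286_Hs1 P hb hS]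
        rfl
      · rw [H_low P.hl hm hb u h0 (by linarith [(s2_lt P).1])]
        exact j5286_b_low P hS u hu0 h
    · rw [Real.exp_neg, e1]; field_simp
  · rintro s u ⟨h0, rfl⟩ h1 h2
    have hu1 : s2 l k ≤ u := by
      by_contra hcon
      push Not at hcon
      have := j5286_C P hb hS u h0 hcon
      linarith
    have hu2 : u < l := by
      by_contra hcon
      push Not at hcon
      have := H_mono P.hl hm hb l u hl0.le hcon
      rw [j5286_Hl P hb] at this
      linarith
    have hol : 0 ≤ o l k := by have := P.ol; have := Real.pi_pos; linarith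
    rcases eq_or_lt_of_le hu1 with h | h
    · refine ⟨o m k, o l k, ⟨hol, (H_o P.hl hm hb k).symm⟩, le_rfl, le_rfl, ?_, ?_⟩
      · rw [← h, j5286_Hs2 P hb hS]; rfl
      · rw [← h]; rfl
    · obtain ⟨g1, g2, g3, g4, g5⟩ := j5286_up P u h hu2
      obtain ⟨g6, g7⟩ := j5286_up2 P u h hu2
      refine ⟨H l m b (wh (Real.log (l / Real.log (l / u)))), wh (Real.log (l / Real.log (l / u))),
        ⟨hol.trans g6.le, rfl⟩, (j5286_gt_o P hb hS k _ g6).le, g6.le, ?_, ?_⟩
      · rw [H_low P.hl hm hb u h0 hu2.le]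
        exact j5286_b_up P hS u h hu2
      · rw [g7, ← g5]
        exact g2
  · obtain ⟨L, hL, hlip⟩ := bmid_lip P
    refine ⟨L, hL, ?_⟩
    rintro s u s' u' ⟨h0, rfl⟩ ⟨h0', rfl⟩ h1 h2 h3
    have lo : ∀ u, 0 ≤ u → s1 m k ≤ H l m b u → s1 l k ≤ u := by
      intro u hu hH
      by_contra hcon
      push Not at hcon
      have := j5286_A P hb hS u hu hcon
      linarith
    have hi : ∀ u, H l m b u ≤ s2 m k → u ≤ s2 l k := by
      intro u hH
      by_contra hcon
      push Not at hcon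
      have := j5286_D P hb hS u hcon
      linarith
    have a1 := lo u h0 h1
    have a2 := hi u (h2.trans h3)
    have a3 := lo u' h0' (h1.trans h2)
    have a4 := hi u' h3
    rw [j5286_Hmid P hb hS u a1 a2, j5286_Hmid P hb hS u' a3 a4] at h2 ⊢
    rcases le_total u u' with h | h
    · exact (hlip u u' h).2
    · have : 0 ≤ L * (bmid l m c k u' - bmid l m c k u) := mul_nonneg hL.le (by linarith)
      linarith

end Jsysinv

end Pool.Agent.Helper115.EXR
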