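import Pool.Agent.Helper115.EXR.Main
import Pool.Agent.Helper115.EXR.Chain
import Pool.Agent.Helper115.EXC.M7

set_option autoImplicit false

namespace Pool.Agent.Helper115.EXR

open Real

theorem GoodC.toGood {l m R R' : ℝ} {h β : ℝ → ℝ} (hG : GoodC l m R h β) (hR : R ≤ R') :
    Pool.Agent.Helper734.EX.Good l m R' (fun _ => h) (fun _ => β) where
  hR := le_trans hG.hR hR
  mono := fun _ => hG.mono
  cont := fun _ => hG.cont
  zero := fun _ => hG.zero
  pos := fun _ => hG.pos
  neg := fun _ => hG.neg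
  right := fun _ x hx => hG.right x (le_trans hR hx)
  left := fun _ x hx => hG.left x (by linarith)
  grow := fun _ x hx => hG.grow x (le_trans hR hx)
  inc := fun _ x d hx hd => hG.inc x d (le_trans hR hx) hd

/-- all the strip-invariant sets are homeomorphic -/
theorem K_homeo (l m : ℝ) (hl : Real.exp (-1) < l) (hm : Real.exp (-1) < m) :
    Nonempty (Pool.Agent.Helper734.EX.K l ≃ₜ Pool.Agent.Helper734.EX.K m) := by
  refine chain (P := fun l m => Nonempty (Pool.Agent.Helper734.EX.K l ≃ₜ Pool.Agent.Helper734.EX.K m))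
    (fun l => ⟨Homeomorph.refl _⟩) (fun l m h => ⟨h.some.symm⟩)
    (fun l m n h1 h2 => ⟨h1.some.trans h2.some⟩) ?_ l m hl hm
  intro p q hp hpq
  obtain ⟨κ, hκ, H⟩ := exists_goodC hp hpq
  refine ⟨κ, hκ, ?_⟩
  intro l m hpl hlq hlm hmk
  obtain ⟨h, g, β, γ, R, R', hi1, hi2, hG, hG'⟩ := H l m hpl hlq hlm hmk
  have P : Pool.Agent.Helper734.EX.Pair l m (max R R') (fun _ => h) (fun _ => β) (fun _ => g)
      (fun _ => γ) :=
    { hl := lt_of_lt_of_le hp hpl
      hm := lt_of_lt_of_le hp (le_trans hpl hlm.le)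
      g1 := hG.toGood (le_max_left _ _)
      g2 := hG'.toGood (le_max_right _ _)
      i1 := fun _ x => hi1 x
      i2 := fun _ x => hi2 x }
  exact P.homeo

end Pool.Agent.Helper115.EXR
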