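import Pool.Agent.Helper115.EXR.F

set_option autoImplicit false

namespace Pool.Agent.Helper115.EXR

open Real

section Jfixcont

theorem small_5287 {C : ℝ} (hC : 0 < C) {ε : ℝ} (hε : 0 < ε) :
    ∃ N : ℝ, 0 ≤ N ∧ C / (1 + N) ^ 3 < ε := by
  refine ⟨C / ε, (div_pos hC hε).le, ?_⟩
  have h0 : 0 < C / ε := div_pos hC hε
  have h1 : (0 : ℝ) < (1 + C / ε) ^ 3 := by positivity
  rw [div_lt_iff₀ h1]
  have h2 : 1 + C / ε ≤ (1 + C / ε) ^ 3 := by
    have : (1 + C / ε) ^ 1 ≤ (1 + C / ε) ^ 3 := pow_le_pow_right₀ (by linarith) (by norm_num)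
    simpa using this
  have h3 : ε * (C / ε) = C := by field_simp
  nlinarith

theorem fix_cont {l m c : ℝ} {k : ℕ} (P : Par l m c k) {b : ℝ → ℝ} (hb : Adm l m b)
    {C : ℝ} (hC : 0 < C) (hM : ∀ N : ℝ, 0 ≤ N → Md l (Gr l m b) C N) :
    ContinuousOn b (Set.Icc 0 l) := by
  have hl := P.hl
  have hm : Real.exp (-1) < m := P.hl.trans P.hlm
  have hG : ∀ s, 0 ≤ s → s ≤ l → Gr l m b s (b s) := fun s h0 h1 =>
    ⟨h0, (H_low hl hm hb s h0 h1).symm⟩
  rw [Metric.continuousOn_iff]
  intro s hs ε hε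
  obtain ⟨N, hN, hN'⟩ := small_5287 hC hε
  refine ⟨exp (-N), exp_pos _, ?_⟩
  intro t ht hts
  rw [Real.dist_eq] at hts ⊢
  rcases le_total s t with h | h
  · have h1 := hM N hN s (b s) t (b t) (hG s hs.1 hs.2) (hG t ht.1 ht.2) h ht.2
      (le_of_lt ((le_abs_self _).trans_lt hts))
    have h2 := hb.mono s t hs.1 h ht.2
    rw [abs_of_nonneg (by linarith)]
    linarith
  · have h1 := hM N hN t (b t) s (b s) (hG t ht.1 ht.2) (hG s hs.1 hs.2) h hs.2
      (by
        have := (neg_le_abs (t - s)).trans_lt hts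
        linarith)
    have h2 := hb.mono t s ht.1 h hs.2
    rw [abs_of_nonpos (by linarith)]
    linarith

theorem fix_strictMono {l m c : ℝ} {k : ℕ} (P : Par l m c k) {b : ℝ → ℝ} (hb : Adm l m b)
    {C : ℝ} (hC : 0 < C) (hM : ∀ N : ℝ, 0 ≤ N → Md m (fun v x => Gr l m b x v) C N) :
    StrictMonoOn b (Set.Icc 0 l) := by
  have hl := P.hl
  have hm : Real.exp (-1) < m := P.hl.trans P.hlm
  have hG : ∀ s, 0 ≤ s → s ≤ l → Gr l m b s (b s) := fun s h0 h1 =>
    ⟨h0, (H_low hl hm hb s h0 h1).symm⟩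
  intro s hs t ht hst
  by_contra hcon
  push Not at hcon
  have h2 := hb.mono s t hs.1 hst.le ht.2
  obtain ⟨N, hN, hN'⟩ := small_5287 hC (sub_pos.2 hst)
  have h1 := hM N hN (b s) s (b t) t (hG s hs.1 hs.2) (hG t ht.1 ht.2) h2
    (hb.le t ht.1 ht.2) (by linarith [exp_pos (-N)])
  linarith

end Jfixcont

section Jhhconj

theorem hh_conj {l m c : ℝ} {k : ℕ} (P : Par l m c k) {b : ℝ → ℝ} (hb : Adm l m b)
    (hpos : ∀ s, 0 < s → s ≤ l → 0 < b s) (x : ℝ) :
    hh l m b (l * exp x) = m * exp (hh l m b x) := by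
  have hl := P.hl
  have hm : Real.exp (-1) < m := P.hl.trans P.hlm
  have hl0 : 0 < l := (Real.exp_pos _).trans hl
  have hm0 : 0 < m := (Real.exp_pos _).trans hm
  have hlx : 0 < l * exp x := mul_pos hl0 (Real.exp_pos x)
  unfold hh
  rw [if_pos hlx.le]
  by_cases hx : 0 ≤ x
  · rw [if_pos hx]
    have := H_iter hl hm hb 1 x hx
    simpa [e] using this
  · rw [if_neg hx]
    have hx' : x < 0 := not_le.mp hx
    have h1 : l * exp x ≤ l := by
      have : exp x ≤ 1 := Real.exp_le_one_iff.2 hx'.le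
      nlinarith
    rw [H_low hl hm hb _ hlx.le h1]
    have hb0 := hpos _ hlx h1
    rw [Real.exp_log (div_pos hb0 hm0)]
    field_simp

theorem hh_zero {l m c : ℝ} {k : ℕ} (P : Par l m c k) {b : ℝ → ℝ} (hb : Adm l m b) :
    hh l m b 0 = 0 := by
  have hl := P.hl
  have hm : Real.exp (-1) < m := P.hl.trans P.hlm
  have hl0 : 0 < l := (Real.exp_pos _).trans hl
  unfold hh
  rw [if_pos le_rfl, H_low hl hm hb 0 le_rfl hl0.le, hb.zero]

end Jhhconj

section Jhhmono

theorem hh_strictMono {l m c : ℝ} {k : ℕ} (P : Par l m c k) {b : ℝ → ℝ} (hb : Adm l m b)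
    (hs : StrictMonoOn b (Set.Icc 0 l)) : StrictMono (hh l m b) := by
  have hl := P.hl
  have hm : Real.exp (-1) < m := hl.trans P.hlm
  have hl0 : 0 < l := l_pos hl
  have hm0 : 0 < m := l_pos hm
  have hlexp : ∀ x : ℝ, x < 0 → 0 < l * exp x ∧ l * exp x < l := by
    intro x hx
    refine ⟨by positivity, ?_⟩
    have : exp x < 1 := by rw [Real.exp_lt_one_iff]; exact hx
    nlinarith
  intro x y hxy
  rcases lt_or_ge y 0 with hy | hy
  · -- both negative
    have hx : x < 0 := hxy.trans hy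
    unfold hh
    rw [if_neg (not_le.2 hx), if_neg (not_le.2 hy)]
    obtain ⟨hx1, hx2⟩ := hlexp x hx
    obtain ⟨hy1, hy2⟩ := hlexp y hy
    have h1 : b (l * exp x) < b (l * exp y) := by
      refine hs ⟨hx1.le, hx2.le⟩ ⟨hy1.le, hy2.le⟩ ?_
      exact mul_lt_mul_of_pos_left (Real.exp_lt_exp.2 hxy) hl0
    have h2 : 0 < b (l * exp x) := by
      have := hs ⟨le_rfl, hl0.le⟩ ⟨hx1.le, hx2.le⟩ hx1
      rwa [hb.zero] at this
    refine Real.log_lt_log (div_pos h2 hm0) ?_
    exact div_lt_div_of_pos_right h1 hm0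
  · rcases lt_or_ge x 0 with hx | hx
    · -- x < 0 ≤ y
      unfold hh
      rw [if_neg (not_le.2 hx), if_pos hy]
      obtain ⟨hx1, hx2⟩ := hlexp x hx
      have h1 : b (l * exp x) < m := by
        have := hs ⟨hx1.le, hx2.le⟩ ⟨hl0.le, le_rfl⟩ hx2
        rwa [hb.top] at this
      have h2 : 0 < b (l * exp x) := by
        have := hs ⟨le_rfl, hl0.le⟩ ⟨hx1.le, hx2.le⟩ hx1
        rwa [hb.zero] at this
      have h3 : Real.log (b (l * exp x) / m) < 0 := by
        refine Real.log_neg (div_pos h2 hm0) ?_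
        rwa [div_lt_one hm0]
      exact h3.trans_le (H_nonneg hl hm hb y hy)
    · -- 0 ≤ x < y
      unfold hh
      rw [if_pos hx, if_pos hy]
      obtain ⟨j, s, _, hs0, hsl, hsx⟩ := rep hl 0 x (by simpa [o] using hx)
      have hoj : o l j ≤ y := by
        have h1 : o l j ≤ (e l)^[j] s := (eit_strictMono hl0 j).monotone hs0
        rw [hsx] at h1
        linarith
      obtain ⟨s', hs'0, hs'y⟩ := rep_fix hl j y hoj
      have hss : s < s' := by
        by_contra hn
        push Not at hn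
        have h1 := (eit_strictMono hl0 j).monotone hn
        rw [hsx, hs'y] at h1
        linarith
      rw [← hsx, ← hs'y]
      rcases le_or_gt s' l with h | h
      · rw [H_eq hl hm hb j s hs0 hsl.le, H_eq hl hm hb j s' hs'0 h]
        exact eit_strictMono hm0 j (hs ⟨hs0, hsl.le⟩ ⟨hs'0, h⟩ hss)
      · rw [H_eq hl hm hb j s hs0 hsl.le, H_iter hl hm hb j s' hs'0]
        refine eit_strictMono hm0 j ?_
        have h1 : b s < b l := hs ⟨hs0, hsl.le⟩ ⟨hl0.le, le_rfl⟩ hsl
        have h2 : H l m b l ≤ H l m b s' := H_mono hl hm hb l s' hl0.le h.le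
        rw [H_low hl hm hb l hl0.le le_rfl] at h2
        exact h1.trans_le h2

end Jhhmono

section Jhhsurj

theorem hh_surj {l m c : ℝ} {k : ℕ} (P : Par l m c k) {b : ℝ → ℝ} (hb : Adm l m b)
    (hc : ContinuousOn b (Set.Icc 0 l)) : Function.Surjective (hh l m b) := by
  have hl := P.hl
  have hm : Real.exp (-1) < m := lt_trans P.hl P.hlm
  have hl0 : 0 < l := l_pos hl
  have hm0 : 0 < m := l_pos hm
  have hsurj : ∀ u, 0 ≤ u → u ≤ m → ∃ s, 0 ≤ s ∧ s ≤ l ∧ b s = u := by
    intro u h0 h1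
    have := intermediate_value_Icc hl0.le hc
    rw [hb.zero, hb.top] at this
    obtain ⟨s, hs, rfl⟩ := this ⟨h0, h1⟩
    exact ⟨s, hs.1, hs.2, rfl⟩
  intro y
  by_cases hy : 0 ≤ y
  · obtain ⟨j, u, -, hu0, hu1, hju⟩ := rep hm 0 y (by simpa [o] using hy)
    obtain ⟨s, hs0, hs1, rfl⟩ := hsurj u hu0 hu1.le
    refine ⟨(e l)^[j] s, ?_⟩
    have hx : 0 ≤ (e l)^[j] s := by
      have h1 := eit_ge hl s j
      have h2 := dlt_pos hl
      have h3 : (0:ℝ) ≤ j * (1 + Real.log l) := by positivity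
      linarith
    rw [hh, if_pos hx, H_eq hl hm hb j s hs0 hs1, hju]
  · push Not at hy
    have hu0 : 0 < m * exp y := by positivity
    have hu1 : m * exp y < m := by
      have : exp y < 1 := by rw [← Real.exp_zero]; exact Real.exp_lt_exp.2 hy
      nlinarith
    obtain ⟨s, hs0, hs1, hs⟩ := hsurj (m * exp y) hu0.le hu1.le
    have hs0' : 0 < s := by
      rcases hs0.lt_or_eq with h | h
      · exact h
      · rw [← h, hb.zero] at hs
        linarith
    have hs1' : s < l := by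
      rcases hs1.lt_or_eq with h | h
      · exact h
      · rw [h, hb.top] at hs
        linarith
    have hx : Real.log (s / l) < 0 := by
      apply Real.log_neg (by positivity)
      rw [div_lt_one hl0]
      exact hs1'
    refine ⟨Real.log (s / l), ?_⟩
    rw [hh, if_neg (not_le.2 hx), Real.exp_log (by positivity), mul_div_cancel₀ _ hl0.ne', hs,
      mul_div_cancel_left₀ _ hm0.ne', Real.log_exp]

end Jhhsurj

section Jbbneg

theorem bb_neg {l m c : ℝ} {k : ℕ} (P : Par l m c k) {b : ℝ → ℝ} (hb : Adm l m b)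
    (hs : StrictMonoOn b (Set.Icc 0 l)) (x : ℝ) :
    hh l m b (-(l * exp x)) = -(m * exp (bb l m b x)) := by
  have hl : 0 < l := l_pos P.hl
  have hm : 0 < m := hl.trans P.hlm
  have hX : 0 < l * exp x := mul_pos hl (exp_pos _)
  set X := l * exp x with hXd
  have ht0 : 0 < l * exp (-X) := mul_pos hl (exp_pos _)
  have ht1 : l * exp (-X) < l := by
    have : exp (-X) < 1 := by rw [Real.exp_lt_one_iff]; linarith
    nlinarith
  have hb0 : 0 < b (l * exp (-X)) := by
    have := hs (Set.mem_Icc.2 ⟨le_refl 0, hl.le⟩) (Set.mem_Icc.2 ⟨ht0.le, ht1.le⟩) ht0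
    rwa [hb.zero] at this
  have hb1 : b (l * exp (-X)) < m := by
    have := hs (Set.mem_Icc.2 ⟨ht0.le, ht1.le⟩) (Set.mem_Icc.2 ⟨hl.le, le_refl l⟩) ht1
    rwa [hb.top] at this
  have hhv : hh l m b (-X) = Real.log (b (l * exp (-X)) / m) := by
    unfold hh
    rw [if_neg (by linarith)]
  have hneg : hh l m b (-X) < 0 := by
    rw [hhv]
    apply Real.log_neg (div_pos hb0 hm)
    rw [div_lt_one hm]; exact hb1
  unfold bb
  rw [← hXd, Real.exp_log (div_pos (by linarith) hm)]
  field_simp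

theorem bb_right {l m c : ℝ} {k : ℕ} (P : Par l m c k) {b : ℝ → ℝ} (hb : Adm l m b)
    (hS : ∀ s, 0 ≤ s → s ≤ l → S l m c k b s = b s) (x : ℝ) (hx : o l k ≤ x) :
    bb l m b x = hh l m b x := by
  have hl : 0 < l := l_pos P.hl
  have hm : 0 < m := hl.trans P.hlm
  have hm1 : Real.exp (-1) < m := P.hl.trans P.hlm
  have hpi := Real.pi_pos
  have hol := P.ol
  have hx0 : 0 ≤ x := by linarith
  have hXx : x < l * exp x := by
    have h1 := e_gt hl x
    have h2 := dlt_pos P.hl
    unfold e at h1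
    linarith
  set X := l * exp x with hXd
  have ht0 : 0 < l * exp (-X) := mul_pos hl (exp_pos _)
  have ht1 : l * exp (-X) < l := by
    have : exp (-X) < 1 := by rw [Real.exp_lt_one_iff]; linarith
    nlinarith
  have hts : l * exp (-X) < s1 l k := by
    unfold s1
    apply mul_lt_mul_of_pos_left _ hl
    rw [Real.exp_lt_exp]; linarith
  have hlog : log (l / (l * exp (-X))) = X := by
    have : l / (l * exp (-X)) = exp X := by
      rw [Real.exp_neg]; field_simp
    rw [this, Real.log_exp]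
  have hbt : b (l * exp (-X)) = m * exp (-(H l m b X)) := by
    rw [← hS _ ht0.le ht1.le]
    unfold S
    rw [if_neg (by linarith), if_pos hts, hlog]
  have hHX : H l m b X = m * exp (H l m b x) := by
    have h1 := H_iter P.hl hm1 hb 1 x hx0
    simp only [Function.iterate_one] at h1
    unfold e at h1
    exact h1
  have hhv : hh l m b (-X) = -(H l m b X) := by
    unfold hh
    rw [if_neg (by linarith), hbt, mul_div_cancel_left₀ _ hm.ne', Real.log_exp]
  have h2 : hh l m b x = H l m b x := by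
    unfold hh
    rw [if_pos hx0]
  unfold bb
  rw [← hXd, hhv, h2, neg_neg, hHX, mul_div_cancel_left₀ _ hm.ne', Real.log_exp]

theorem bb_left {l m c : ℝ} {k : ℕ} (P : Par l m c k) {b : ℝ → ℝ} (hb : Adm l m b)
    (hS : ∀ s, 0 ≤ s → s ≤ l → S l m c k b s = b s) (x : ℝ) (hx : x ≤ -(o l k)) :
    bb l m b x < 0 ∧ (bb l m b x) ^ 2 + π ^ 2 = (hh l m b (√(x ^ 2 + π ^ 2))) ^ 2 := by
  have hl : 0 < l := l_pos P.hl
  have hm : 0 < m := hl.trans P.hlm
  have hm1 : Real.exp (-1) < m := P.hl.trans P.hlm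
  have hpi := Real.pi_pos
  have hol := P.ol
  have hom := P.om
  have hth := th_bounds (show π ≤ o l k by linarith)
  have hY0 : 0 < l * exp x := mul_pos hl (exp_pos _)
  set Y := l * exp x with hYd
  have hYep : Y ≤ ep l k := by
    rw [hYd]; unfold ep
    apply mul_le_mul_of_nonneg_left _ hl.le
    rw [Real.exp_le_exp]; linarith [hth.2]
  have ht0 : 0 < l * exp (-Y) := mul_pos hl (exp_pos _)
  have ht1 : l * exp (-Y) < l := by
    have : exp (-Y) < 1 := by rw [Real.exp_lt_one_iff]; linarith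
    nlinarith
  have hts : s2 l k ≤ l * exp (-Y) := by
    unfold s2
    apply mul_le_mul_of_nonneg_left _ hl.le
    rw [Real.exp_le_exp]; linarith
  have hlog : log (l / (l * exp (-Y))) = Y := by
    have : l / (l * exp (-Y)) = exp Y := by
      rw [Real.exp_neg]; field_simp
    rw [this, Real.log_exp]
  have hlogY : log (l / Y) = -x := by
    have : l / Y = exp (-x) := by
      rw [Real.exp_neg, hYd]; field_simp
    rw [this, Real.log_exp]
  have heta : eta l m b Y = m * exp (-(th (H l m b (wh (-x))))) := by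
    unfold eta
    rw [hlogY]
  have hs1 := P.s1l
  have hs2 := P.s2l
  have hbt : b (l * exp (-Y)) = m * exp (-(eta l m b Y)) := by
    rw [← hS _ ht0.le ht1.le]
    unfold S
    rw [if_neg (by linarith), if_neg (by linarith)]
    by_cases hle : l * exp (-Y) ≤ s2 l k
    · rw [if_pos hle]
      have heq : l * exp (-Y) = s2 l k := le_antisymm hle hts
      rw [heq, bmid_s2 P]
      have h1 : Y = ep l k := by
        unfold s2 at heq
        have h2 := mul_left_cancel₀ hl.ne' heq
        have h3 := Real.exp_injective h2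
        linarith
      have h4 : -x = th (o l k) := by
        rw [hYd] at h1
        unfold ep at h1
        have h2 := mul_left_cancel₀ hl.ne' h1
        have h3 := Real.exp_injective h2
        linarith
      rw [heta, h4, wh_th (by linarith), H_o P.hl hm1 hb]
      rfl
    · rw [if_neg hle, if_pos ht1, hlog]
  have hhv : hh l m b (-Y) = -(eta l m b Y) := by
    unfold hh
    rw [if_neg (by linarith), hbt, mul_div_cancel_left₀ _ hm.ne', Real.log_exp]
  have hbb : bb l m b x = -(th (H l m b (wh (-x)))) := by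
    unfold bb
    rw [← hYd, hhv, neg_neg, heta, mul_div_cancel_left₀ _ hm.ne', Real.log_exp]
  have hwh : wh (-x) = √(x ^ 2 + π ^ 2) := by
    unfold wh
    rw [neg_sq]
  have hw1 : o l k ≤ wh (-x) := by
    have := (wh_ge (-x)).1
    linarith
  have hH1 : o m k ≤ H l m b (wh (-x)) := by
    rw [← H_o P.hl hm1 hb k]
    exact H_mono P.hl hm1 hb _ _ (by linarith) hw1
  have hh2 : hh l m b (√(x ^ 2 + π ^ 2)) = H l m b (wh (-x)) := by
    rw [← hwh]
    unfold hh
    rw [if_pos (by linarith)]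
  set Q := H l m b (wh (-x)) with hQ
  have hQ1 : 0 < Q ^ 2 - π ^ 2 := by nlinarith
  have hthQ : 0 < th Q := by
    unfold th
    exact Real.sqrt_pos.2 hQ1
  refine ⟨by rw [hbb]; linarith, ?_⟩
  rw [hbb, hh2]
  have : (th Q) ^ 2 = Q ^ 2 - π ^ 2 := by
    unfold th
    exact Real.sq_sqrt hQ1.le
  rw [neg_sq, this]
  ring

end Jbbneg

section Jgoodfwd

theorem good_fwd_sq {x : ℝ} (hx : 1 ≤ x) : (Real.log x) ^ 2 ≤ x := by
  have hx0 : 0 < x := by linarith
  have ht : 0 ≤ Real.log x := Real.log_nonneg hx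
  obtain ⟨t, htt⟩ : ∃ t : ℝ, t = Real.log x := ⟨_, rfl⟩
  have h1 : x = (Real.exp (t / 4) ^ 2) ^ 2 := by
    rw [← pow_mul, ← Real.exp_nat_mul]
    have h2 : ((2 * 2 : ℕ) : ℝ) * (t / 4) = Real.log x := by
      rw [htt]; push_cast; ring
    rw [h2, Real.exp_log hx0]
  have h3 : 1 + t / 4 ≤ Real.exp (t / 4) := by linarith [Real.add_one_le_exp (t / 4)]
  have h4 : (0 : ℝ) ≤ 1 + t / 4 := by rw [htt]; positivity
  have h5 : (1 + t / 4) ^ 2 ≤ Real.exp (t / 4) ^ 2 := pow_le_pow_left₀ h4 h3 2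
  have h6 : t ≤ (1 + t / 4) ^ 2 := by nlinarith [sq_nonneg (1 - t / 4)]
  have h7 : t ≤ Real.exp (t / 4) ^ 2 := h6.trans h5
  have h8 : t ^ 2 ≤ (Real.exp (t / 4) ^ 2) ^ 2 := pow_le_pow_left₀ (by rw [htt]; exact ht) h7 2
  rw [← htt]
  linarith

theorem good_fwd {l m c : ℝ} {k : ℕ} (P : Par l m c k) {b : ℝ → ℝ} (hb : Adm l m b)
    (hS : ∀ s, 0 ≤ s → s ≤ l → S l m c k b s = b s)
    (hs : StrictMonoOn b (Set.Icc 0 l)) (hc : ContinuousOn b (Set.Icc 0 l))
    (hinc : ∃ R : ℝ, ∀ x v x' v', Gr l m b x v → Gr l m b x' v' → R ≤ x → x ≤ x' →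
      x' - x ≤ exp (-(exp (x / 2))) → v' - v ≤ 1) :
    ∃ R : ℝ, GoodC l m R (hh l m b) (bb l m b) := by
  obtain ⟨R0, hR0⟩ := hinc
  have hl0 : 0 < l := l_pos P.hl
  have hmono : StrictMono (hh l m b) := hh_strictMono P hb hs
  have hpos : ∀ s, 0 < s → s ≤ l → 0 < b s := by
    intro s h0 h1
    have h2 := hs (Set.left_mem_Icc.2 hl0.le) (Set.mem_Icc.2 ⟨h0.le, h1⟩) h0
    rwa [hb.zero] at h2
  have hhH : ∀ x, 0 ≤ x → hh l m b x = H l m b x := fun x hx => if_pos hx
  obtain ⟨R, hR⟩ : ∃ R : ℝ, R = max (max 10 (o l k)) (max (l + 1) (R0 + 1)) := ⟨_, rfl⟩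
  have hR1 : 10 ≤ R := by rw [hR]; exact (le_max_left _ _).trans (le_max_left _ _)
  have hR2 : o l k ≤ R := by rw [hR]; exact (le_max_right _ _).trans (le_max_left _ _)
  have hR3 : l + 1 ≤ R := by rw [hR]; exact (le_max_left _ _).trans (le_max_right _ _)
  have hR4 : R0 + 1 ≤ R := by rw [hR]; exact (le_max_right _ _).trans (le_max_right _ _)
  refine ⟨R, ?_⟩
  refine { hR := hR1, mono := hmono, cont := ?_, zero := hh_zero P hb, pos := ?_, neg := ?_,
           right := ?_, left := ?_, grow := ?_, inc := ?_ }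
  · exact hmono.monotone.continuous_of_surjective (hh_surj P hb hc)
  · exact fun x => hh_conj P hb hpos x
  · exact fun x => bb_neg P hb hs x
  · exact fun x hx => bb_right P hb hS x (hR2.trans hx)
  · exact fun x hx => bb_left P hb hS x (by linarith)
  · intro x hx
    rw [hhH x (by linarith)]
    exact (good_fwd_sq (by linarith)).trans (H_ge P hb hS x (by linarith))
  · intro x d hx hd
    have hd1 : |d| ≤ 1 := by
      refine hd.trans ?_
      rw [Real.exp_le_one_iff]
      have := Real.exp_pos (x / 2)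
      linarith
    have hd2 := abs_le.1 hd1
    have hx0 : 0 ≤ x := by linarith
    have hxd0 : 0 ≤ x + d := by linarith [hd2.1]
    rcases le_or_gt 0 d with h0 | h0
    · have h1 : hh l m b x ≤ hh l m b (x + d) := hmono.monotone (by linarith)
      rw [abs_of_nonneg (by linarith)]
      rw [abs_of_nonneg h0] at hd
      rw [hhH x hx0, hhH (x + d) hxd0]
      refine hR0 x _ (x + d) _ ⟨hx0, rfl⟩ ⟨hxd0, rfl⟩ (by linarith) (by linarith) ?_
      have h2 : x + d - x = d := by ring
      rw [h2]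
      exact hd
    · have h1 : hh l m b (x + d) ≤ hh l m b x := hmono.monotone (by linarith)
      rw [abs_of_nonpos (by linarith)]
      rw [abs_of_neg h0] at hd
      rw [hhH x hx0, hhH (x + d) hxd0]
      have h2 := hR0 (x + d) _ x _ ⟨hxd0, rfl⟩ ⟨hx0, rfl⟩ (by linarith [hd2.1]) (by linarith) ?_
      · linarith
      · have h3 : x - (x + d) = -d := by ring
        rw [h3]
        refine hd.trans ?_
        apply Real.exp_le_exp.2
        have h4 : Real.exp ((x + d) / 2) ≤ Real.exp (x / 2) := Real.exp_le_exp.2 (by linarith)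
        linarith

end Jgoodfwd

section Jgoodinv

theorem good_inv {l m c : ℝ} {k : ℕ} (P : Par l m c k) {b : ℝ → ℝ} (hb : Adm l m b)
    (hS : ∀ s, 0 ≤ s → s ≤ l → S l m c k b s = b s)
    (hs : StrictMonoOn b (Set.Icc 0 l)) (hc : ContinuousOn b (Set.Icc 0 l))
    (hg : ∃ Y : ℝ, ∀ y, Y ≤ y → H l m b y ≤ exp (√y))
    {R₀ : ℝ} (hG : GoodC l m R₀ (hh l m b) (bb l m b))
    (hinc : ∃ R : ℝ, ∀ v x v' x', Gr l m b x v → Gr l m b x' v' → R ≤ v → v ≤ v' →
      v' - v ≤ exp (-(exp (v / 2))) → x' - x ≤ 1) :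
    ∃ (R : ℝ) (g γ : ℝ → ℝ), Function.LeftInverse g (hh l m b) ∧
      Function.RightInverse g (hh l m b) ∧ GoodC m l R g γ := by
  have hl : Real.exp (-1) < l := P.hl
  have hl0 : 0 < l := l_pos hl
  have hm0 : 0 < m := hl0.trans P.hlm
  obtain ⟨Y, hY⟩ := hg
  obtain ⟨R1, hR1⟩ := hinc
  have hpos' : ∀ x, 0 ≤ x → hh l m b x = H l m b x := by
    intro x hx
    simp [hh, hx]
  have hsurj : Function.Surjective (hh l m b) := hh_surj P hb hc
  set h := hh l m b with hdef
  have hinj : Function.Injective h := hG.mono.injective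
  obtain ⟨g, hgr⟩ : ∃ g : ℝ → ℝ, ∀ y, h (g y) = y :=
    ⟨Function.surjInv hsurj, Function.surjInv_eq hsurj⟩
  have hgl : ∀ x, g (h x) = x := fun x => hinj (hgr (h x))
  have hgeq : ∀ x y, h x = y → g y = x := by
    intro x y hxy
    rw [← hxy]
    exact hgl x
  have hgmono : StrictMono g := by
    intro y y' hyy
    by_contra hcon
    push Not at hcon
    have := hG.mono.monotone hcon
    rw [hgr, hgr] at this
    linarith
  have hgsurj : Function.Surjective g := fun x => ⟨h x, hgl x⟩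
  have hg0 : g 0 = 0 := hgeq 0 0 hG.zero
  have hgge : ∀ x y, h x ≤ y → x ≤ g y := by
    intro x y hxy
    have := hgmono.monotone hxy
    rwa [hgl] at this
  set R := max 10 (max (h R₀) (max (h (√(R₀ ^ 2 + π ^ 2))) (max (h (max Y 1)) (R1 + 1)))) with hRdef
  have hRa : 10 ≤ R := le_max_left _ _
  have hRb : h R₀ ≤ R := (le_max_left _ _).trans (le_max_right _ _)
  have hRc : h (√(R₀ ^ 2 + π ^ 2)) ≤ R :=
    ((le_max_left _ _).trans (le_max_right _ _)).trans (le_max_right _ _)
  have hRd : h (max Y 1) ≤ R :=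
    (((le_max_left _ _).trans (le_max_right _ _)).trans (le_max_right _ _)).trans (le_max_right _ _)
  have hRe : R1 + 1 ≤ R :=
    (((le_max_right _ _).trans (le_max_right _ _)).trans (le_max_right _ _)).trans (le_max_right _ _)
  have hR0 := hG.hR
  have key : ∀ x y, h (-(l * exp x)) = -(m * exp y) →
      Real.log (-(g (-(m * exp y))) / l) = x := by
    intro x y hxy
    rw [hgeq _ _ hxy, neg_neg, mul_div_cancel_left₀ _ hl0.ne', Real.log_exp]
  refine ⟨R, g, fun y => Real.log (-(g (-(m * exp y))) / l), hgl, hgr, ?_⟩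
  refine ⟨hRa, hgmono, hgmono.monotone.continuous_of_surjective hgsurj, hg0, ?_, ?_, ?_, ?_, ?_, ?_⟩
  · intro y
    apply hgeq
    rw [hG.pos, hgr]
  · intro y
    have h1 : g (-(m * exp y)) < 0 := by
      rw [← hg0]
      apply hgmono
      have := exp_pos y
      have : 0 < m * exp y := by positivity
      linarith
    show g (-(m * exp y)) = -(l * exp (Real.log (-(g (-(m * exp y))) / l)))
    rw [Real.exp_log (div_pos (by linarith) hl0)]
    field_simp
  · intro y hy
    show Real.log (-(g (-(m * exp y))) / l) = g y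
    apply key
    have hx : R₀ ≤ g y := hgge _ _ (hRb.trans hy)
    rw [hG.neg, hG.right _ hx, hgr]
  · intro y hy
    show Real.log (-(g (-(m * exp y))) / l) < 0 ∧
      (Real.log (-(g (-(m * exp y))) / l)) ^ 2 + π ^ 2 = (g (√(y ^ 2 + π ^ 2))) ^ 2
    have hyneg : y < 0 := by linarith
    have hQ : R ≤ √(y ^ 2 + π ^ 2) := by
      apply Real.le_sqrt_of_sq_le
      nlinarith [sq_nonneg π]
    set Q := √(y ^ 2 + π ^ 2) with hQdef
    have hQ2 : Q ^ 2 = y ^ 2 + π ^ 2 := Real.sq_sqrt (by positivity)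
    have hX : √(R₀ ^ 2 + π ^ 2) ≤ g Q := hgge _ _ (hRc.trans hQ)
    set X := g Q with hXdef
    have hX0 : 0 ≤ X := (Real.sqrt_nonneg _).trans hX
    have hX2 : R₀ ^ 2 + π ^ 2 ≤ X ^ 2 := by
      rw [← Real.sq_sqrt (show 0 ≤ R₀ ^ 2 + π ^ 2 by positivity)]
      exact pow_le_pow_left₀ (Real.sqrt_nonneg _) hX 2
    have hs2 : R₀ ≤ √(X ^ 2 - π ^ 2) := by
      apply Real.le_sqrt_of_sq_le
      linarith
    have hs3 : √(X ^ 2 - π ^ 2) ^ 2 = X ^ 2 - π ^ 2 := Real.sq_sqrt (by nlinarith)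
    have hx := hG.left (-√(X ^ 2 - π ^ 2)) (by linarith)
    have hsx : √((-√(X ^ 2 - π ^ 2)) ^ 2 + π ^ 2) = X := by
      rw [neg_sq, hs3, sub_add_cancel]
      exact Real.sqrt_sq hX0
    rw [hsx, hgr, hQ2] at hx
    obtain ⟨hb1, hb2⟩ := hx
    have hby : bb l m b (-√(X ^ 2 - π ^ 2)) = y := by
      have h3 : (bb l m b (-√(X ^ 2 - π ^ 2))) ^ 2 = y ^ 2 := by linarith
      rcases sq_eq_sq_iff_eq_or_eq_neg.1 h3 with h4 | h4
      · exact h4
      · exfalso
        linarith
    have hk := key (-√(X ^ 2 - π ^ 2)) y (by rw [hG.neg, hby])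
    rw [hk]
    constructor
    · linarith
    · rw [neg_sq, hs3]
      ring
  · intro y hy
    have hx : max Y 1 ≤ g y := hgge _ _ (hRd.trans hy)
    have hx0 : 0 ≤ g y := by
      have := le_max_right Y 1
      linarith
    have h1 := hY (g y) ((le_max_left _ _).trans hx)
    rw [← hpos' _ hx0, hgr] at h1
    have hy0 : 0 < y := by linarith
    have h2 : Real.log y ≤ √(g y) := by
      rw [Real.log_le_iff_le_exp hy0]
      exact h1
    have h3 : 0 ≤ Real.log y := Real.log_nonneg (by linarith)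
    calc (Real.log y) ^ 2 ≤ (√(g y)) ^ 2 := pow_le_pow_left₀ h3 h2 2
      _ = g y := Real.sq_sqrt hx0
  · intro y d hy hd
    have hGr : ∀ z, 0 ≤ z → Gr l m b (g z) z := by
      intro z hz
      have h0 : 0 ≤ g z := by
        rw [← hg0]
        exact hgmono.monotone hz
      exact ⟨h0, by rw [← hpos' _ h0, hgr]⟩
    have hd1 : |d| ≤ 1 := by
      refine hd.trans ?_
      have := exp_pos (y / 2)
      exact Real.exp_le_one_iff.2 (by linarith)
    rcases le_total 0 d with hd0 | hd0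
    · have h1 := hR1 y (g y) (y + d) (g (y + d)) (hGr y (by linarith)) (hGr _ (by linarith))
        (by linarith) (by linarith) (by
          rw [abs_of_nonneg hd0] at hd
          linarith)
      have h2 : g y ≤ g (y + d) := hgmono.monotone (by linarith)
      rw [abs_of_nonneg (by linarith)]
      exact h1
    · have hdd : |d| = -d := abs_of_nonpos hd0
      rw [hdd] at hd hd1
      have h0 : exp (-exp (y / 2)) ≤ exp (-exp ((y + d) / 2)) := by
        apply Real.exp_le_exp.2
        apply neg_le_neg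
        apply Real.exp_le_exp.2
        linarith
      have h1 := hR1 (y + d) (g (y + d)) y (g y) (hGr _ (by linarith)) (hGr y (by linarith))
        (by linarith) (by linarith) (by linarith)
      have h2 : g (y + d) ≤ g y := hgmono.monotone (by linarith)
      rw [abs_of_nonpos (by linarith)]
      linarith

end Jgoodinv

end Pool.Agent.Helper115.EXR
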