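import Pool.Agent.Helper115.EXR.G

set_option autoImplicit false

namespace Pool.Agent.Helper115.EXR

open Real

section Jexists

theorem v_le_exp_sqrt {v : ℝ} (hv : 0 ≤ v) : v ≤ exp (√v) := by
  have ht : 0 ≤ √v := Real.sqrt_nonneg v
  have h2 : √v ^ 2 = v := Real.sq_sqrt hv
  set t := √v with htdef
  have h1 : 1 + t / 4 ≤ exp (t / 4) := by
    have := Real.add_one_le_exp (t / 4)
    linarith
  have h3 : exp t = exp (t / 4) ^ 4 := by
    rw [← Real.exp_nat_mul]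
    congr 1
    push_cast
    ring
  have h4 : (1 + t / 4) ^ 4 ≤ exp (t / 4) ^ 4 := pow_le_pow_left₀ (by positivity) h1 4
  have h5 : t ≤ (1 + t / 4) ^ 2 := by nlinarith [sq_nonneg (1 - t / 4)]
  have h6 : t ^ 2 ≤ ((1 + t / 4) ^ 2) ^ 2 := pow_le_pow_left₀ ht h5 2
  calc v = t ^ 2 := h2.symm
    _ ≤ ((1 + t / 4) ^ 2) ^ 2 := h6
    _ = (1 + t / 4) ^ 4 := by ring
    _ ≤ exp (t / 4) ^ 4 := h4
    _ = exp t := h3.symm

theorem exists_goodC {p q : ℝ} (hp : Real.exp (-1) < p) (hpq : p ≤ q) : ∃ κ₀ : ℝ, 0 < κ₀ ∧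
    ∀ l m : ℝ, p ≤ l → l ≤ q → l < m → m ≤ l * exp κ₀ →
    ∃ (h g β γ : ℝ → ℝ) (R R' : ℝ), Function.LeftInverse g h ∧ Function.RightInverse g h ∧
      GoodC l m R h β ∧ GoodC m l R' g γ := by
  obtain ⟨κ₀, hκ, Hκ⟩ := H_le hp hpq
  refine ⟨κ₀, hκ, ?_⟩
  intro l m hpl hlq hlm hmk
  have hl : Real.exp (-1) < l := lt_of_lt_of_le hp hpl
  have hm : Real.exp (-1) < m := hl.trans hlm
  have hl0 : 0 < l := l_pos hl
  have hm0 : 0 < m := l_pos hm
  obtain ⟨A1, hA1, HA1⟩ := exists_fix hl hlm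
  obtain ⟨A2, hA2, HA2⟩ := Mod hl hm
  obtain ⟨A3, hA3, HA3⟩ := Mod hm hl
  have hlog : 0 < Real.log (m / l) := Real.log_pos (by rw [lt_div_iff₀ hl0]; linarith)
  set c := min (Real.log (m / l)) (l / 2) with hcdef
  have hc : 0 < c := lt_min hlog (by positivity)
  have hcl : c ≤ l / 2 := min_le_right _ _
  have hcL : c ≤ Real.log (m / l) := min_le_left _ _
  have hcm : l * exp c ≤ m := by
    have h1 : exp c ≤ m / l := by
      have := Real.exp_le_exp.2 hcL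
      rwa [Real.exp_log (by positivity)] at this
    calc l * exp c ≤ l * (m / l) := by gcongr
      _ = m := by field_simp
  obtain ⟨k, HK⟩ := par_exists hl hlm hc hcl hcm (max A1 (max A2 A3))
  obtain ⟨P, hAm, hAl⟩ := HK k le_rfl
  have e1 : A1 * exp (-(o m k) / 2) ≤ 1 :=
    le_trans (mul_le_mul_of_nonneg_right (le_max_left _ _) (exp_pos _).le) hAm
  have e2 : A2 * exp (-(o m k) / 2) ≤ 1 :=
    le_trans (mul_le_mul_of_nonneg_right ((le_max_left _ _).trans (le_max_right _ _))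
      (exp_pos _).le) hAm
  have e3 : A3 * exp (-(o l k) / 2) ≤ 1 :=
    le_trans (mul_le_mul_of_nonneg_right ((le_max_right _ _).trans (le_max_right _ _))
      (exp_pos _).le) hAl
  obtain ⟨b, hb, hS⟩ := HA1 c k P e1
  have hg : ∃ Y : ℝ, ∀ y, Y ≤ y → H l m b y ≤ exp (√y) :=
    Hκ l m c k b hpl hlq hmk hcL P hb hS
  have hs1 := sys_fwd P hb hS
  have hs2 := sys_inv P hb hS hg
  obtain ⟨C, hC, hM⟩ := HA2 k _ hs1 e2 P.ol P.om (P.s1l.trans P.s2l)
  have hsm : s1 m k < s2 m k := by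
    have h1 := P.s1m
    have h2 := s2m_ge P
    linarith
  obtain ⟨C', hC', hM'⟩ := HA3 k _ hs2 e3 P.om P.ol hsm
  have hcont := fix_cont P hb hC hM
  have hmono := fix_strictMono P hb hC' hM'
  obtain ⟨Y, hY⟩ := hg
  have hinc := inc_abs hl hm hs1.toRel hC hM (Y := Y) (by
    intro x v hG hYx
    rw [hG.2]
    exact hY x hYx)
  have hinc' := inc_abs hm hl hs2.toRel hC' hM' (Y := m + 1) (by
    intro v x hG hYv
    change Gr l m b x v at hG
    obtain ⟨hx0, hv⟩ := hG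
    have hv0 : 0 ≤ v := by linarith
    refine le_trans ?_ (v_le_exp_sqrt hv0)
    by_cases hxl : l ≤ x
    · rw [hv]
      exact H_ge P hb hS x hxl
    · exfalso
      push Not at hxl
      have h1 : H l m b x ≤ H l m b l := H_mono hl hm hb x l hx0 hxl.le
      have h2 : H l m b l = m := by
        rw [H_low hl hm hb l hl0.le le_rfl, hb.top]
      linarith)
  obtain ⟨R, hR⟩ := good_fwd P hb hS hmono hcont hinc
  obtain ⟨R', g, γ, hgl, hgr, hR'⟩ := good_inv P hb hS hmono hcont ⟨Y, hY⟩ hR hinc'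
  exact ⟨hh l m b, g, bb l m b, γ, R, R', hgl, hgr, hR, hR'⟩

end Jexists

end Pool.Agent.Helper115.EXR
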